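import Mathlib
import Pool.Agent.Lib.MP_98022b_UN.Tree

/-!
# TANK UP, stage 3: trees and families of subgroups

`Γ` is a tree with oriented edges, `U x` is a subgroup of `K` for each vertex `x`. If an element of
`U x` which is a sum of elements of the `U z`, `z` beyond the neighbour `y` of `x`, lies in `U y`,
then the relations between the `U x` are generated by those of the edges.
-/

set_option autoImplicit false

namespace Pool.Agent.UP25

open Pool.Agent.Lib.MP_98022b_UN

universe u v w

section dist

variable {V : Type u} {Γ : SimpleGraph V} (hΓ : Γ.IsTree)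

include hΓ

theorem adj_cases {x y : V} (h : Γ.Adj x y) (z : V) :
    Γ.dist z x = Γ.dist z y + 1 ∨ Γ.dist z y = Γ.dist z x + 1 :=
  hΓ.dist_eq_dist_add_one_of_adj z h

theorem exists_parent {r x : V} (h : x ≠ r) : ∃ y, Γ.Adj x y ∧ Γ.dist r x = Γ.dist r y + 1 := by
  obtain ⟨w, hw⟩ := hΓ.connected.exists_walk_length_eq_dist x r
  cases w with
  | nil => exact absurd rfl h
  | cons hadj w =>
    rename_i y
    refine ⟨y, hadj, ?_⟩
    rw [SimpleGraph.Walk.length_cons] at hw
    have h1 : Γ.dist y r ≤ w.length := SimpleGraph.dist_le w
    rcases adj_cases hΓ hadj r with h2 | h2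
    · exact h2
    · rw [SimpleGraph.dist_comm, SimpleGraph.dist_comm (u := r)] at h2
      omega

theorem tree_through {x y r : V} (hxy : Γ.Adj x y) (hr : Γ.dist r x = Γ.dist r y + 1) (n : ℕ) :
    ∀ z : V, Γ.dist x z = n → Γ.dist z y = Γ.dist z x + 1 → Γ.dist r z = Γ.dist r x + n := by
  induction n using Nat.strong_induction_on with
  | _ n ih =>
    intro z hz hzy
    rcases n with _ | n
    · have h1 : x = z := hΓ.connected.dist_eq_zero_iff.1 hz
      rw [← h1, add_zero]
    · have hne : z ≠ x := by
        rintro rfl
        rw [SimpleGraph.dist_self] at hz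
        omega
      have hzx : Γ.dist z x = n + 1 := by rw [SimpleGraph.dist_comm]; exact hz
      obtain ⟨z', ha, hz'⟩ := exists_parent hΓ hne
      have hz'x : Γ.dist z' x = n := by rw [SimpleGraph.dist_comm]; omega
      -- the vertices on the way to `x` are on the side of `x`
      have side : ∀ a b : V, Γ.Adj a b → Γ.dist b y = Γ.dist b x + 1 → Γ.dist x b = Γ.dist x a + 1 →
          Γ.dist a y = Γ.dist a x + 1 := by
        intro a b hab h1 h2
        rcases adj_cases hΓ hxy a with h3 | h3
        · exfalso
          have h4 : Γ.dist b y ≤ Γ.dist b a + Γ.dist a y := hΓ.connected.dist_triangle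
          have h5 : Γ.dist b a = 1 := SimpleGraph.dist_eq_one_iff_adj.2 hab.symm
          have h6 : Γ.dist b x = Γ.dist a x + 1 := by
            rw [SimpleGraph.dist_comm, h2, SimpleGraph.dist_comm]
          omega
        · exact h3
      have hs := side z' z ha.symm hzy (by omega)
      have h1 := ih n (by omega) z' (by omega) hs
      rcases adj_cases hΓ ha r with h2 | h2
      · omega
      · exfalso
        rcases n with _ | m
        · have h3 : z' = x := hΓ.connected.dist_eq_zero_iff.1 hz'x
          subst h3
          have h4 : z = y := by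
            refine Tree_unique hΓ ha.symm hxy (x := r) ?_ ?_
            · rw [SimpleGraph.dist_comm, SimpleGraph.dist_comm (u := z')]; omega
            · rw [SimpleGraph.dist_comm, SimpleGraph.dist_comm (u := z')]; omega
          subst h4
          rw [SimpleGraph.dist_self] at hzy
          omega
        · have hne' : z' ≠ x := by
            rintro rfl
            rw [SimpleGraph.dist_self] at hz'x
            omega
          obtain ⟨z2, ha2, hz2⟩ := exists_parent hΓ hne'
          have hs2 := side z2 z' ha2.symm hs (by omega)
          have h3 := ih m (by omega) z2 (by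
            rw [SimpleGraph.dist_comm] at hz'x
            omega) hs2
          have h4 : z = z2 := by
            refine Tree_unique hΓ ha.symm ha2 (x := r) ?_ ?_
            · rw [SimpleGraph.dist_comm, SimpleGraph.dist_comm (u := z')]; omega
            · rw [SimpleGraph.dist_comm, SimpleGraph.dist_comm (u := z')]; omega
          subst h4
          omega

/-- balls around neighbours -/
theorem ball_step {x y z t : V} {m : ℕ} (hxy : Γ.Adj x y) (hz : Γ.dist z x = Γ.dist z y + 1)
    (h1 : Γ.dist x t ≤ m) (h2 : Γ.dist z t ≤ m) : Γ.dist y t ≤ m := by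
  rcases adj_cases hΓ hxy t with h | h
  · rw [SimpleGraph.dist_comm] at h1 ⊢
    omega
  · have h3 := tree_through hΓ hxy hz (Γ.dist x t) t rfl h
    rw [SimpleGraph.dist_comm, h, SimpleGraph.dist_comm]
    omega

end dist

/-- an orientation of the edges -/
structure Orient {V : Type u} (Γ : SimpleGraph V) where
  P : V → V → Prop
  tot : ∀ x y, Γ.Adj x y → P x y ∨ P y x
  asym : ∀ x y, Γ.Adj x y → P x y → ¬ P y x

/-- the oriented edges -/
def Orient.E {V : Type u} {Γ : SimpleGraph V} (o : Orient Γ) : Type u :=
  {p : V × V // Γ.Adj p.1 p.2 ∧ o.P p.1 p.2}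

section exact

variable {V : Type u} {Γ : SimpleGraph V} (or : Orient Γ) {K : Type w} [AddCommGroup K]

/-- the sum of the coefficients -/
noncomputable def sumV (V : Type u) (K : Type w) [AddCommGroup K] : (V →₀ K) →+ K :=
  Finsupp.liftAddHom fun _ => AddMonoidHom.id K

theorem sumV_single (x : V) (k : K) : sumV V K (Finsupp.single x k) = k :=
  Finsupp.liftAddHom_apply_single _ _ _

/-- the boundary: terminus minus origin -/
noncomputable def bdE (K : Type w) [AddCommGroup K] : (or.E →₀ K) →+ (V →₀ K) :=
  Finsupp.liftAddHom fun e =>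
    Finsupp.singleAddHom (M := K) e.1.2 - Finsupp.singleAddHom (M := K) e.1.1

theorem bdE_single (e : or.E) (k : K) : bdE or K (Finsupp.single e k) =
    Finsupp.single e.1.2 k - Finsupp.single e.1.1 k := by
  unfold bdE
  rw [Finsupp.liftAddHom_apply_single]
  rfl

theorem sumV_bdE (g : or.E →₀ K) : sumV V K (bdE or K g) = 0 := by
  induction g using Finsupp.induction_linear with
  | zero => rw [map_zero, map_zero]
  | add x y hx hy => rw [map_add, map_add, hx, hy, add_zero]
  | single e k => rw [bdE_single, map_sub, sumV_single, sumV_single, sub_self]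

theorem sumV_eq (f : V →₀ K) : sumV V K f = ∑ x ∈ f.support, f x := rfl

/-- exactness at the vertices -/
theorem tree_exact (hΓ : Γ.IsTree) (U : V → AddSubgroup K)
    (hU : ∀ x y, Γ.Adj x y → ∀ k ∈ U x,
      (∃ (S : Finset V) (φ : V → K), (∀ z ∈ S, φ z ∈ U z ∧ Γ.dist z x = Γ.dist z y + 1) ∧
        k = ∑ z ∈ S, φ z) → k ∈ U y)
    (f : V →₀ K) (hf : ∀ x, f x ∈ U x) (h0 : sumV V K f = 0) :
    ∃ g : or.E →₀ K, (∀ e, g e ∈ U e.1.1 ∧ g e ∈ U e.1.2) ∧ bdE or K g = f := by
  classical
  obtain ⟨r⟩ := hΓ.connected.nonempty
  obtain ⟨n, hn⟩ : ∃ n, n = ∑ x ∈ f.support, Γ.dist r x := ⟨_, rfl⟩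
  induction n using Nat.strong_induction_on generalizing f with
  | _ n ih =>
    by_cases h : ∀ x ∈ f.support, x = r
    · have h1 : f = Finsupp.single r (f r) := by
        ext x
        by_cases hx : x = r
        · rw [hx, Finsupp.single_eq_same]
        · rw [Finsupp.single_eq_of_ne hx]
          by_contra h2
          exact hx (h x (Finsupp.mem_support_iff.2 h2))
      have h2 : f r = 0 := by
        rw [h1, sumV_single] at h0
        exact h0
      refine ⟨0, fun e => ⟨(U _).zero_mem, (U _).zero_mem⟩, ?_⟩
      rw [map_zero, h1, h2, Finsupp.single_zero]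
    · push Not at h
      obtain ⟨x1, hx1, hx1r⟩ := h
      obtain ⟨x, hx, hmax⟩ := Finset.exists_max_image f.support (fun z => Γ.dist r z) ⟨x1, hx1⟩
      have hxr : x ≠ r := by
        rintro rfl
        have h1 := hmax x1 hx1
        rw [SimpleGraph.dist_self] at h1
        exact hx1r (hΓ.connected.dist_eq_zero_iff.1 (Nat.le_zero.1 h1)).symm
      obtain ⟨y, hxy, hy⟩ := exists_parent hΓ hxr
      have hxy' : x ≠ y := hxy.ne
      have hk : f x ∈ U y := by
        refine hU x y hxy (f x) (hf x) ⟨f.support.erase x, fun z => - f z, fun z hz => ⟨?_, ?_⟩, ?_⟩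
        · exact (U z).neg_mem (hf z)
        · rcases adj_cases hΓ hxy z with h1 | h1
          · exact h1
          · exfalso
            have h2 := tree_through hΓ hxy hy _ z rfl h1
            have h3 := hmax z (Finset.mem_of_mem_erase hz)
            have h4 : Γ.dist x z = 0 := by omega
            exact Finset.ne_of_mem_erase hz (hΓ.connected.dist_eq_zero_iff.1 h4).symm
        · rw [sumV_eq, ← Finset.add_sum_erase _ _ hx] at h0
          rw [Finset.sum_neg_distrib]
          exact eq_neg_of_add_eq_zero_left h0
      obtain ⟨k, hkk⟩ : ∃ k, k = f x := ⟨_, rfl⟩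
      rw [← hkk] at hk
      have hkx : k ∈ U x := hkk ▸ hf x
      let f' : V →₀ K := f - Finsupp.single x k + Finsupp.single y k
      have hf'1 : ∀ z, f' z ∈ U z := by
        intro z
        change (f - Finsupp.single x k + Finsupp.single y k) z ∈ U z
        rw [Finsupp.add_apply, Finsupp.sub_apply]
        refine (U z).add_mem ((U z).sub_mem (hf z) ?_) ?_
        · by_cases hz : z = x
          · rw [hz, Finsupp.single_eq_same]; exact hkx
          · rw [Finsupp.single_eq_of_ne hz]; exact (U z).zero_mem
        · by_cases hz : z = y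
          · rw [hz, Finsupp.single_eq_same]; exact hk
          · rw [Finsupp.single_eq_of_ne hz]; exact (U z).zero_mem
      have hf'0 : sumV V K f' = 0 := by
        change sumV V K (f - Finsupp.single x k + Finsupp.single y k) = 0
        rw [map_add, map_sub, h0, sumV_single, sumV_single]
        abel
      have hsupp : f'.support ⊆ insert y (f.support.erase x) := by
        intro z hz
        rw [Finsupp.mem_support_iff] at hz
        by_cases hzy : z = y
        · rw [hzy]; exact Finset.mem_insert_self _ _
        · refine Finset.mem_insert_of_mem (Finset.mem_erase.2 ⟨?_, ?_⟩)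
          · rintro rfl
            apply hz
            change (f - Finsupp.single z k + Finsupp.single y k) z = 0
            rw [Finsupp.add_apply, Finsupp.sub_apply, Finsupp.single_eq_same,
              Finsupp.single_eq_of_ne hzy, hkk, sub_self, add_zero]
          · rw [Finsupp.mem_support_iff]
            intro h1
            apply hz
            change (f - Finsupp.single x k + Finsupp.single y k) z = 0
            have hzx : z ≠ x := by
              rintro rfl
              exact (Finsupp.mem_support_iff.1 hx) h1
            rw [Finsupp.add_apply, Finsupp.sub_apply, h1, Finsupp.single_eq_of_ne hzx,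
              Finsupp.single_eq_of_ne hzy, sub_zero, add_zero]
      have hlt : ∑ z ∈ f'.support, Γ.dist r z < n := by
        have h1 : ∑ z ∈ f'.support, Γ.dist r z ≤
            ∑ z ∈ insert y (f.support.erase x), Γ.dist r z :=
          Finset.sum_le_sum_of_subset hsupp
        have h2 : ∑ z ∈ insert y (f.support.erase x), Γ.dist r z ≤
            Γ.dist r y + ∑ z ∈ f.support.erase x, Γ.dist r z := by
          by_cases hy' : y ∈ f.support.erase x
          · rw [Finset.insert_eq_self.2 hy']; omega
          · rw [Finset.sum_insert hy']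
        have h3 := Finset.add_sum_erase f.support (fun z => Γ.dist r z) hx
        omega
      obtain ⟨g, hg, hgf⟩ := ih _ hlt f' hf'1 hf'0 rfl
      have hff : f = f' + (Finsupp.single x k - Finsupp.single y k) := by
        change f = f - Finsupp.single x k + Finsupp.single y k +
          (Finsupp.single x k - Finsupp.single y k)
        abel
      rcases or.tot x y hxy with hP | hP
      · let e : or.E := ⟨(x, y), hxy, hP⟩
        refine ⟨g - Finsupp.single e k, fun e' => ?_, ?_⟩
        · rw [Finsupp.sub_apply]
          by_cases he : e' = e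
          · rw [he, Finsupp.single_eq_same]
            exact ⟨(U _).sub_mem (hg e).1 hkx, (U _).sub_mem (hg e).2 hk⟩
          · rw [Finsupp.single_eq_of_ne he, sub_zero]
            exact hg e'
        · rw [map_sub, hgf, bdE_single, hff]
          change f' - (Finsupp.single y k - Finsupp.single x k) = _
          abel
      · let e : or.E := ⟨(y, x), hxy.symm, hP⟩
        refine ⟨g + Finsupp.single e k, fun e' => ?_, ?_⟩
        · rw [Finsupp.add_apply]
          by_cases he : e' = e
          · rw [he, Finsupp.single_eq_same]
            exact ⟨(U _).add_mem (hg e).1 hk, (U _).add_mem (hg e).2 hkx⟩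
          · rw [Finsupp.single_eq_of_ne he, add_zero]
            exact hg e'
        · rw [map_add, hgf, bdE_single, hff]

theorem bdE_apply (g : or.E →₀ K) (x : V) : bdE or K g x =
    ∑ e ∈ g.support, (Finsupp.single e.1.2 (g e) x - Finsupp.single e.1.1 (g e) x) := by
  have h1 : bdE or K g = ∑ e ∈ g.support,
      (Finsupp.single e.1.2 (g e) - Finsupp.single e.1.1 (g e)) := rfl
  rw [h1, Finsupp.finsetSum_apply]
  rfl

/-- injectivity -/
theorem tree_inj (hΓ : Γ.IsTree) (g : or.E →₀ K) (h : bdE or K g = 0) : g = 0 := by
  classical
  obtain ⟨r⟩ := hΓ.connected.nonempty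
  by_contra hg
  have hne : g.support.Nonempty := Finsupp.support_nonempty_iff.2 hg
  obtain ⟨e, he, hmax⟩ := Finset.exists_max_image g.support
    (fun e => max (Γ.dist r e.1.1) (Γ.dist r e.1.2)) hne
  have hge : g e ≠ 0 := Finsupp.mem_support_iff.1 he
  have hadj : Γ.Adj e.1.1 e.1.2 := e.2.1
  rcases adj_cases hΓ hadj r with h1 | h1
  · -- the far end is the origin
    have h2 := congrArg (fun f => f e.1.1) h
    simp only [Finsupp.zero_apply] at h2
    rw [bdE_apply, Finset.sum_eq_single_of_mem e he, Finsupp.single_eq_of_ne hadj.ne,
      Finsupp.single_eq_same, zero_sub, neg_eq_zero] at h2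
    · exact hge h2
    · intro e' he' hee'
      have hm := hmax e' he'
      rw [h1] at hm
      have hadj' : Γ.Adj e'.1.1 e'.1.2 := e'.2.1
      have h3 : e.1.1 ≠ e'.1.2 := by
        intro h4
        rcases adj_cases hΓ hadj' r with h5 | h5
        · rw [← h4] at h5
          omega
        · rw [← h4] at h5
          have h6 : e'.1.1 = e.1.2 := by
            refine Tree_unique hΓ (z := e.1.1) (h4 ▸ hadj'.symm) hadj (x := r) ?_ ?_
            · rw [SimpleGraph.dist_comm, SimpleGraph.dist_comm (u := e.1.1)]; omega
            · rw [SimpleGraph.dist_comm, SimpleGraph.dist_comm (u := e.1.1)]; omega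
          have h7 := e'.2.2
          rw [h6, ← h4] at h7
          exact or.asym _ _ hadj e.2.2 h7
      have h3' : e.1.1 ≠ e'.1.1 := by
        intro h4
        rcases adj_cases hΓ hadj' r with h5 | h5
        · have h6 : e'.1.2 = e.1.2 := by
            refine Tree_unique hΓ (z := e.1.1) (h4 ▸ hadj') hadj (x := r) ?_ ?_
            · rw [← h4] at h5
              rw [SimpleGraph.dist_comm, SimpleGraph.dist_comm (u := e.1.1)]; omega
            · rw [SimpleGraph.dist_comm, SimpleGraph.dist_comm (u := e.1.1)]; omega
          exact hee' (Subtype.ext (Prod.ext h4.symm h6))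
        · rw [← h4] at h5
          rw [h5] at hm
          omega
      rw [Finsupp.single_eq_of_ne h3, Finsupp.single_eq_of_ne h3', sub_zero]
  · have h2 := congrArg (fun f => f e.1.2) h
    simp only [Finsupp.zero_apply] at h2
    rw [bdE_apply, Finset.sum_eq_single_of_mem e he, Finsupp.single_eq_same,
      Finsupp.single_eq_of_ne hadj.ne', sub_zero] at h2
    · exact hge h2
    · intro e' he' hee'
      have hm := hmax e' he'
      rw [h1] at hm
      have hadj' : Γ.Adj e'.1.1 e'.1.2 := e'.2.1
      have h3 : e.1.2 ≠ e'.1.1 := by
        intro h4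
        rcases adj_cases hΓ hadj' r with h5 | h5
        · rw [← h4] at h5
          have h6 : e'.1.2 = e.1.1 := by
            refine Tree_unique hΓ (z := e.1.2) (h4 ▸ hadj') hadj.symm (x := r) ?_ ?_
            · rw [SimpleGraph.dist_comm, SimpleGraph.dist_comm (u := e.1.2)]; omega
            · rw [SimpleGraph.dist_comm, SimpleGraph.dist_comm (u := e.1.2)]; omega
          have h7 := e'.2.2
          rw [h6, ← h4] at h7
          exact or.asym _ _ hadj e.2.2 h7
        · rw [← h4] at h5
          omega
      have h3' : e.1.2 ≠ e'.1.2 := by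
        intro h4
        rcases adj_cases hΓ hadj' r with h5 | h5
        · rw [← h4] at h5
          rw [h5] at hm
          omega
        · have h6 : e'.1.1 = e.1.1 := by
            refine Tree_unique hΓ (z := e.1.2) (h4 ▸ hadj'.symm) hadj.symm (x := r) ?_ ?_
            · rw [← h4] at h5
              rw [SimpleGraph.dist_comm, SimpleGraph.dist_comm (u := e.1.2)]; omega
            · rw [SimpleGraph.dist_comm, SimpleGraph.dist_comm (u := e.1.2)]; omega
          exact hee' (Subtype.ext (Prod.ext h6 h4.symm))
      rw [Finsupp.single_eq_of_ne h3, Finsupp.single_eq_of_ne h3', sub_zero]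

end exact

end Pool.Agent.UP25
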