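import Mathlib
import Pool.Agent.Lib.UP25.Tree1
import Pool.Agent.Lib.UP.ClassVPF

/-!
# TANK UP, stage 3: groups acting on locally finite trees, definitions
-/

set_option autoImplicit false
set_option linter.unusedVariables false

open MonoidAlgebra Pool.Agent.UP

namespace Pool.Agent.UP25

universe u v

/-- virtually poly-`ℤ` of length `≤ d` -/
def VPZ (d : ℕ) (G : Type v) [Group G] : Prop := ∃ N : Subgroup G, N.FiniteIndex ∧ PolyZ d N

/-- torsion-free, and a subgroup of finite index acts by automorphisms on a locally finite tree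
such that the stabilisers of the vertices are virtually poly-`ℤ` of length `≤ d` -/
def VTd (d : ℕ) (H : Type v) [Group H] : Prop :=
  (∀ h : H, IsOfFinOrder h → h = 1) ∧
    ∃ (N : Subgroup H) (V : Type v) (_ : MulAction N V) (Γ : SimpleGraph V),
      N.FiniteIndex ∧ Γ.IsTree ∧ (∀ (n : N) (x y : V), Γ.Adj x y → Γ.Adj (n • x) (n • y)) ∧
        (∀ x : V, (Γ.neighborSet x).Finite) ∧ ∀ x : V, VPZ d (MulAction.stabilizer N x)

/-- `H` acts by automorphisms on a locally finite tree, with an invariant orientation of the edges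
and finitely many orbits of vertices -/
structure TAct (H : Type v) [Group H] (V : Type v) [MulAction H V] where
  Γ : SimpleGraph V
  tree : Γ.IsTree
  adj : ∀ (h : H) (x y : V), Γ.Adj x y → Γ.Adj (h • x) (h • y)
  or : Orient Γ
  orP : ∀ (h : H) (x y : V), or.P x y → or.P (h • x) (h • y)
  lf : ∀ x : V, (Γ.neighborSet x).Finite
  fin : Finite (MulAction.orbitRel.Quotient H V)

namespace TAct

variable {H : Type v} [Group H] {V : Type v} [MulAction H V] (T : TAct H V)

/-- the oriented edges -/
abbrev E : Type v := T.or.E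

instance : MulAction H T.E where
  smul h e := ⟨(h • e.1.1, h • e.1.2), T.adj h _ _ e.2.1, T.orP h _ _ e.2.2⟩
  one_smul e := Subtype.ext (Prod.ext (one_smul H _) (one_smul H _))
  mul_smul g h e := Subtype.ext (Prod.ext (mul_smul g h _) (mul_smul g h _))

theorem smul_fst (h : H) (e : T.E) : (h • e : T.E).1.1 = h • e.1.1 := rfl

theorem smul_snd (h : H) (e : T.E) : (h • e : T.E).1.2 = h • e.1.2 := rfl

/-- the stabiliser of an edge fixes both ends -/
theorem mem_stabE (h : H) (e : T.E) :
    h ∈ MulAction.stabilizer H e ↔ h • e.1.1 = e.1.1 ∧ h • e.1.2 = e.1.2 := by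
  rw [MulAction.mem_stabilizer_iff]
  constructor
  · intro hh
    exact ⟨congrArg (fun f : T.E => f.1.1) hh, congrArg (fun f : T.E => f.1.2) hh⟩
  · rintro ⟨h1, h2⟩
    exact Subtype.ext (Prod.ext h1 h2)

end TAct

/-- the group rings `A[R]` of all groups `R` which embed in `G` are Noetherian and satisfy the
Auslander condition -/
def NAR (A : Type u) [CommRing A] [StarRing A] (G : Type v) [Group G] : Prop :=
  ∀ (R : Type v) [Group R] (f : R →* G), Function.Injective f →
    IsNoetherianRing A[R] ∧ @AR A[R] _ (starMA A R)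

theorem NAR.of_injective {A : Type u} [CommRing A] [StarRing A] {G K : Type v} [Group G] [Group K]
    (h : NAR A G) (f : K →* G) (hf : Function.Injective f) : NAR A K :=
  fun R _ k hk => h R (f.comp k) (hf.comp hk)

theorem NAR.noetherian {A : Type u} [CommRing A] [StarRing A] {G : Type v} [Group G]
    (h : NAR A G) : IsNoetherianRing A[G] :=
  (h G (MonoidHom.id G) Function.injective_id).1

theorem NAR.ar {A : Type u} [CommRing A] [StarRing A] {G : Type v} [Group G]
    (h : NAR A G) : @AR A[G] _ (starMA A G) :=
  (h G (MonoidHom.id G) Function.injective_id).2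

/-- commensurable subgroups -/
def Cms {H : Type v} [Group H] (L M : Subgroup H) : Prop :=
  (L ⊓ M).relIndex L ≠ 0 ∧ (L ⊓ M).relIndex M ≠ 0

/-- the conjugate `g L g⁻¹` -/
abbrev cjg {H : Type v} [Group H] (g : H) (L : Subgroup H) : Subgroup H :=
  L.map (MulAut.conj g).toMonoidHom

/-- stabilisers of vertices and edges -/
def TAct.Stab {H : Type v} [Group H] {V : Type v} [MulAction H V] (T : TAct H V)
    (L : Subgroup H) : Prop :=
  (∃ x : V, L = MulAction.stabilizer H x) ∨ ∃ e : T.E, L = MulAction.stabilizer H e

end Pool.Agent.UP25
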