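import Mathlib
import Pool.Agent.Lib.UP25.TDefs
import Pool.Agent.Lib.UPV.V8

/-!
# TANK UP, stage 3, row S3 (helper52): closure properties of the classes
-/

set_option autoImplicit false
set_option linter.unusedVariables false

open MonoidAlgebra Pool.Agent.UP Pool.Agent.UPV

namespace Pool.Agent.UP25

universe u v w

theorem s3_comap {G K : Type v} [Group G] [Group K] (f : K →* G) (N : Subgroup G)
    (hN : N.FiniteIndex) : (N.comap f).FiniteIndex := by
  refine ⟨?_⟩
  rw [Subgroup.index_comap]
  exact (inferInstance : (N.subgroupOf f.range).FiniteIndex).index_ne_zero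

theorem VPZ.of_injective {d : ℕ} {G K : Type v} [Group G] [Group K] (h : VPZ d G) (f : K →* G)
    (hf : Function.Injective f) : VPZ d K := by
  obtain ⟨N, hN, hP⟩ := h
  refine ⟨N.comap f, s3_comap f N hN, ?_⟩
  refine PolyZ.of_injective (H := N)
    { toFun := fun a => ⟨f a.1, a.2⟩
      map_one' := Subtype.ext (map_one f)
      map_mul' := fun a b => Subtype.ext (map_mul f a.1 b.1) } ?_ hP
  intro a b hab
  exact Subtype.ext (hf (congrArg Subtype.val hab))

theorem VPZ.mono {d e : ℕ} (hde : d ≤ e) {G : Type v} [Group G] (h : VPZ d G) : VPZ e G := by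
  obtain ⟨N, hN, hP⟩ := h
  exact ⟨N, hN, hP.mono hde⟩

theorem VPZ.nar {A : Type u} [CommRing A] [StarRing A] [IsNoetherianRing A] (hA : AR A) {g : ℕ}
    (hg : FL A g) {d : ℕ} {G : Type v} [Group G] (htf : ∀ h : G, IsOfFinOrder h → h = 1)
    (h : VPZ d G) : NAR A G := by
  intro R _ f hf
  obtain ⟨N, hN, hP⟩ := h.of_injective f hf
  have htf' : ∀ h : R, IsOfFinOrder h → h = 1 := by
    intro h hh
    refine hf ?_
    rw [htf (f h) (f.isOfFinOrder hh), map_one]
  obtain ⟨h1, h2, -⟩ := nfacts_virt hA hg d R htf' N hN hP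
  exact ⟨h1, h2⟩

theorem VTd.of_injective {d : ℕ} {G K : Type v} [Group G] [Group K] (f : K →* G)
    (hf : Function.Injective f) (h : VTd d G) : VTd d K := by
  obtain ⟨htf, N, V, act, Γ, hN, hΓ, hadj, hlf, hst⟩ := h
  let j : N.comap f →* N :=
    { toFun := fun a => ⟨f a.1, a.2⟩
      map_one' := Subtype.ext (map_one f)
      map_mul' := fun a b => Subtype.ext (map_mul f a.1 b.1) }
  have hj : Function.Injective j := by
    intro a b hab
    exact Subtype.ext (hf (congrArg Subtype.val hab))
  refine ⟨?_, N.comap f, V, MulAction.compHom V j, Γ, s3_comap f N hN, hΓ, ?_, hlf, ?_⟩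
  · intro h hh
    refine hf ?_
    rw [htf (f h) (f.isOfFinOrder hh), map_one]
  · intro n x y hxy
    exact hadj (j n) x y hxy
  · intro x
    let _ : MulAction (N.comap f) V := MulAction.compHom V j
    refine (hst x).of_injective
      { toFun := fun a => ⟨j a.1, a.2⟩
        map_one' := Subtype.ext (map_one j)
        map_mul' := fun a b => Subtype.ext (map_mul j a.1 b.1) } ?_
    intro a b hab
    exact Subtype.ext (hj (congrArg Subtype.val hab))

theorem VTd.mono {d e : ℕ} (hde : d ≤ e) {G : Type v} [Group G] (h : VTd d G) : VTd e G := by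
  obtain ⟨htf, N, V, act, Γ, hN, hΓ, hadj, hlf, hst⟩ := h
  exact ⟨htf, N, V, act, Γ, hN, hΓ, hadj, hlf, fun x => (hst x).mono hde⟩

end Pool.Agent.UP25
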