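import Mathlib
import Pool.Agent.Lib.UP.Defs4
import Pool.Agent.Lib.UP.U1
import Pool.Agent.Lib.UP.U2
import Pool.Agent.Lib.UP.U3
import Pool.Agent.Lib.UP.U5
import Pool.Agent.Lib.UP.U5E
import Pool.Agent.Lib.UP.F5b
import Pool.Agent.Lib.UP.F7a
import Pool.Agent.Lib.UP.F7b
import Pool.Agent.Lib.UP.F7c
import Pool.Agent.Lib.UP.F7d
import Pool.Agent.Lib.UP.F8b

/-!
# TANK UP: over every coherent ring with involution the condition `AR1` implies `ARW` and `ARF`

Only the last condition is used for `W` with `Ext^l(W, R) = 0`, `1 ≤ l ≤ q`.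
-/

set_option autoImplicit false

open CategoryTheory

namespace Pool.Agent.UP25

open Pool.Agent.UP

universe u

variable {S : Type u} [Ring S] [StarRing S]

/-- `B` embeds in a free module of finite rank: `E^p(B) = E^(p+1)(S^m / B)` -/
theorem loc_of_embed (h : AR1 S) {B : Type u} [AddCommGroup B] [Module S B] {P : RC S} (r : Res P B)
    {m : ℕ} (ψ : B →ₗ[S] (Fin m → S)) (hψ : Function.Injective ψ) {p : ℕ} (hp : 1 ≤ p) :
    Loc S p (P.E p) := by
  obtain ⟨q, rfl⟩ : ∃ q, p = q + 1 := ⟨p - 1, by omega⟩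
  -- the matrix of `ψ ∘ ε`
  let D0 : Matrix (P.ι 0) (Fin m) S := fun i j => ψ (r.ε (Pi.single i 1)) j
  have hD0 : ∀ x : P.ι 0 → S, Matrix.vecMul x D0 = ψ (r.ε x) := by
    intro x
    have hx : x = ∑ i, x i • (Pi.single i (1 : S) : P.ι 0 → S) := by
      funext k
      simp [Finset.sum_apply, Pi.single_apply]
    conv_rhs => rw [hx]
    rw [map_sum, map_sum]
    funext j
    simp [Matrix.vecMul, dotProduct, Finset.sum_apply, D0]
  have hDD : P.D 0 * D0 = 0 := by
    apply Matrix.ext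
    intro a j
    have h1 : (P.D 0 * D0) a = Matrix.vecMul (P.D 0 a) D0 := by
      funext j
      rfl
    have h2 : (P.D 0 a : P.ι 0 → S) = Matrix.vecMul (Pi.single a (1 : S)) (P.D 0) := by
      rw [Matrix.single_one_vecMul]
      rfl
    rw [h1, hD0, h2, r.zero, map_zero]
    rfl
  have hT : ∀ k, (F8a_cons P m D0 hDD).Ex k := by
    intro k
    cases k with
    | zero =>
      change ∀ x : P.ι 0 → S, Matrix.vecMul x D0 = 0 → ∃ y : P.ι 1 → S,
        Matrix.vecMul y (P.D 0) = x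
      intro x hx
      rw [hD0] at hx
      exact r.ker x (hψ (by rw [hx, map_zero]))
    | succ k => exact r.ex k
  exact h (F8a_cons P m D0 hDD) hT (q + 1)

/-- (W2) from (W1) -/
theorem arw_of_ar1 (hc : CohT S) (h : AR1 S) : ARW S := by
  intro T hT n hn hco
  obtain ⟨q, rfl⟩ : ∃ q, n = q + 1 := ⟨n - 1, by omega⟩
  have hfpM := fp_E hc T (q + 1)
  have hMloc : Loc S q (T.E (q + 1)) := h T hT q
  obtain ⟨P1, ⟨r1⟩⟩ := exists_res_coh hc (T.E (q + 1))
  have hfpC : Module.FinitePresentation S ((T.ι (q + 1) → S) ⧸ T.bd (q + 1)) := by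
    refine Module.finitePresentation_of_surjective (Submodule.mkQ _) (Submodule.mkQ_surjective _) ?_
    rw [Submodule.ker_mkQ]
    have h1 : T.bd (q + 1) = LinearMap.range (Matrix.vecMulLinear (T.D q).conjTranspose) := rfl
    rw [h1, LinearMap.range_eq_map]
    exact Submodule.FG.map _ Module.Finite.fg_top
  obtain ⟨P0, ⟨r0⟩⟩ := exists_res_coh hc ((T.ι (q + 1) → S) ⧸ T.bd (q + 1))
  have hfinM : Module.Finite S (T.E (q + 1)) := inferInstance
  have hlow : ∀ l < q, P1.CoEx l := (ge_iff r1 q).1 hMloc.ge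
  rw [ge_iff r1]
  intro l hl
  rcases Nat.lt_or_ge l q with hlq | hlq
  · exact hlow l hlq
  · obtain rfl : l = q := by omega
    have hC : P0.CoEx l := ext_dual_coker hc T hT (l + 1) hn hco r0
    obtain ⟨f, hf⟩ := exists_lift r1 r0 (F8b_inc T (l + 1))
    obtain ⟨rB⟩ := cone_res_lin f r1 r0 (F8b_inc T (l + 1)) (F8b_inc_inj T (l + 1)) hf
    obtain ⟨m, ψ, hψ⟩ := F8b_psi T (l + 1)
    have hB : Loc S (l + 1) ((cone f).E (l + 1)) := loc_of_embed h rB ψ hψ (by omega)
    obtain ⟨i, g, _, hker⟩ := cone_E f l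
    have hi : Function.Injective i := by
      rw [← LinearMap.ker_eq_bot, hker, eq_bot_iff]
      rintro _ ⟨y, rfl⟩
      rw [F8b_E_zero hC y, map_zero]
      exact Submodule.zero_mem _
    have hP : Loc S (l + 1) (P1.E l) := Loc.of_injective i hi hB
    apply F8b_coEx
    intro a
    exact LinearMap.congr_fun (pure_loc P1 l hlow hP LinearMap.id) a

/-- (W3) from (W1), for the modules which occur in the surgery -/
theorem arf_of_ar1 (hc : CohT S) (h : AR1 S) (T : RC S) (hT : ∀ k, T.Ex k) {q : ℕ} (hq : 1 ≤ q)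
    (hco : ∀ l, 1 ≤ l → l ≤ q → T.CoEx l) (K : Submodule S (T.E (q + 1))) (hK : K.FG) (P : RC S)
    (rP : Res P K) (ξ : P.ι q → S) (hξ : ξ ∈ P.cy q) :
    ∃ (C : RC S) (Z : ChM P C), (∀ k, C.Ex k) ∧ IsEmpty (C.ι (q + 1)) ∧
      ((∃ H : Matrix (P.ι 0) (C.ι 1) S, Z.U 0 = H * C.D 0) → ξ ∈ P.bd q) := by
  have hfpE := fp_E hc T (q + 1)
  have hfpK : Module.FinitePresentation S K := fp_submodule hc K hK
  have hMloc : Loc S q (T.E (q + 1)) := h T hT q
  have hPc : ∀ l < q, P.CoEx l := (ge_iff rP q).1 (hMloc K hK)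
  -- `E^q(M) = 0`
  obtain ⟨P0, ⟨r0⟩⟩ := exists_res_coh hc (T.E (q + 1))
  have hM0 : P0.CoEx q := (ge_iff r0 (q + 1)).1
    (arw_of_ar1 hc h T hT (q + 1) (by omega) fun l h1 h2 => hco l h1 (by omega)) q (by omega)
  -- `E^q(K)` embeds in `E^(q+1)(M / K)`
  obtain ⟨f, hf⟩ := exists_lift rP r0 K.subtype
  obtain ⟨rB⟩ := cone_res_lin f rP r0 K.subtype K.subtype_injective hf
  have hB : Loc S q ((cone f).E (q + 1)) := h (cone f) rB.ex q
  obtain ⟨i, g, _, hker⟩ := cone_E f q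
  have hi : Function.Injective i := by
    rw [← LinearMap.ker_eq_bot, hker, eq_bot_iff]
    rintro _ ⟨y, rfl⟩
    rw [F8b_E_zero hM0 y, map_zero]
    exact Submodule.zero_mem _
  have hEq : Loc S q (P.E q) := Loc.of_injective i hi hB
  let ξ' : P.E q := Submodule.Quotient.mk ⟨ξ, hξ⟩
  let D : Submodule S (P.E q) := Submodule.span S {ξ'}
  have hfpD : Module.FinitePresentation S D := by
    have := fp_E hc P q
    exact fp_submodule hc D (Submodule.fg_span_singleton _)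
  obtain ⟨Q, ⟨rQ⟩⟩ := exists_res_coh hc D
  have hQc : ∀ l < q, Q.CoEx l := (ge_iff rQ q).1 (hEq D (Submodule.fg_span_singleton _))
  obtain ⟨C, Z, hC, hCe, hZ⟩ := functional_core rP.ex hPc D rQ hQc
  refine ⟨C, Z, hC, hCe, fun hH => ?_⟩
  have hD := hZ hH
  have h1 : ξ' ∈ D := Submodule.mem_span_singleton_self _
  rw [hD, Submodule.mem_bot] at h1
  have h2 : (⟨ξ, hξ⟩ : P.cy q) ∈ (P.bd q).comap (P.cy q).subtype :=
    (Submodule.Quotient.mk_eq_zero _).1 h1
  exact h2

end Pool.Agent.UP25
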