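import Mathlib
import Pool.Agent.Lib.UP.Defs4
import Pool.Agent.Lib.UP.U14
import Pool.Agent.Lib.UP.F5b
import Pool.Agent.Lib.UP.F6b
import Pool.Agent.Lib.UP.F9
import Pool.Agent.Lib.UP.F9a
import Pool.Agent.Lib.UP.F9b
import Pool.Agent.Lib.UP.TrBr
import Pool.Agent.Lib.UP25.Ar1

/-!
# TANK UP: all the facts from coherence, `AR1` and finite dimension

(The first proof is the proof of `funM_of` of row F9b, with the weaker hypothesis.)
-/

set_option autoImplicit false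
set_option linter.unusedSectionVars false

open CategoryTheory CategoryTheory.Abelian
open scoped Matrix

namespace Pool.Agent.UP25

open Pool.Agent.UP

universe u

theorem funM_of_ar1 {S : Type u} [Ring S] [StarRing S] (hc : CohT S) (h : AR1 S) : FunM S := by
  intro K C _ _ _ _ deg e d i₀ p e' δ f hX hcol hrow hk q hq y hy1 hy2 hy3
  have hcol' : ∀ j : ℤ, j < -(-(i₀ : ℤ)) → ColEx deg e d j := fun j hj => hcol j (by omega)
  have hfpW := F9b_fpW hX (-(i₀ : ℤ))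
  obtain ⟨T, ⟨rT⟩⟩ := exists_res_coh hc (colW hX (-(i₀ : ℤ)))
  obtain ⟨φ, hφ⟩ : ∃ φ, φ = phi hX hcol' hk q := ⟨_, rfl⟩
  obtain ⟨φ', hφ'⟩ : ∃ φ' : GV (fun c => (p c : ℤ)) e' 0 →ₗ[S] T.E (q + 1),
      φ' = ((esEquiv rT q).symm : ES S (q + 1) (colW hX (-(i₀ : ℤ))) →ₗ[S] T.E (q + 1)) ∘ₗ φ :=
    ⟨_, rfl⟩
  have hfin : (LinearMap.range φ').FG := by
    have := hk.cx.gi.finite 0
    rw [LinearMap.range_eq_map]
    exact Module.Finite.fg_top.map φ'
  have hfpE := fp_E hc T (q + 1)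
  have hfpK := fp_submodule hc (LinearMap.range φ') hfin
  obtain ⟨P, ⟨rP⟩⟩ := exists_res_coh hc (LinearMap.range φ')
  have hker : ∀ x : GV (fun c => (p c : ℤ)) e' 0,
      φ'.rangeRestrict x = 0 ↔ ∃ y : C → S, y ᵥ* δ = x := by
    intro x
    rw [← phi_eq_zero hX hcol' hk q hq.symm x, ← hφ]
    have h1 : φ' x = 0 ↔ φ x = 0 := by
      rw [hφ']
      exact (esEquiv rT q).symm.map_eq_zero_iff
    exact Subtype.ext_iff.trans h1
  have hr : ∀ j, 0 < j → ∀ x : GV (fun c => (p c : ℤ)) e' j, (x : C → S) ᵥ* δ = 0 →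
      ∃ y : C → S, y ᵥ* δ = x := by
    intro j hj x hx
    refine hk.rowex' j x hx ?_
    refine (hrow (-(i₀ : ℤ) + j) (by omega)).vec (hk.F j x) ?_
    rw [hk.F_coe, hk.fd, hx, Matrix.zero_vecMul, neg_zero]
  let P' : PR S (LinearMap.range φ') := hk.cx.toPR 0 φ'.rangeRestrict
    φ'.surjective_rangeRestrict hker hr
  -- the functional
  obtain ⟨y', hy'⟩ : ∃ y' : C → S, y' = fun i => y i () := ⟨_, rfl⟩
  have g1 : ∀ k, y' k ≠ 0 → (p k : ℤ) = 0 + (q : ℤ) := by
    intro k hk'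
    have := hy1 k (by rw [hy'] at hk'; exact hk')
    omega
  have g2 : e' *ᵥ y' = y' := by
    funext i
    have := congrFun (congrFun hy2 i) ()
    rw [hy']
    exact this
  have g3 : δ *ᵥ y' = 0 := by
    funext i
    have := congrFun (congrFun hy3 i) ()
    rw [hy']
    exact this
  have gi := hk.cx.gi
  let F : P'.X q →ₗ[S] S := dotF y' ∘ₗ (GV (fun c => (p c : ℤ)) e' (0 + (q : ℤ))).subtype
  have hF : F ∘ₗ P'.d q = 0 := by
    refine LinearMap.ext fun (x : GV (fun c => (p c : ℤ)) e' (0 + ((q + 1 : ℕ) : ℤ))) => ?_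
    change ((x : C → S) ᵥ* δ) ⬝ᵥ y' = 0
    rw [← Matrix.dotProduct_mulVec, g3, dotProduct_zero]
  obtain ⟨ξ, hξ⟩ := tCls_surj rP q (esCls P' q F hF)
  have hco : ∀ l, 1 ≤ l → l ≤ q → T.CoEx l := fun l h1 h2 =>
    coEx_colW hX hcol' hrow rT hq.symm l h1 (by omega)
  obtain ⟨Cq, Z, hCex, hCe, hCf⟩ :=
    arf_of_ar1 hc h T rT.ex (by omega) hco (LinearMap.range φ') hfin P rP ξ ξ.2
  obtain ⟨v, hv0, hv⟩ := F9b_lift P' rP
  let pr' : ∀ n : ℕ, (C → S) →ₗ[S] P'.X n := fun n => hk.cx.gi.pr (0 + (n : ℤ))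
  have pr_self : ∀ (n : ℕ) (x : GV (fun c => (p c : ℤ)) e' (0 + (n : ℤ))),
      pr' n (x : C → S) = x := fun n x => hk.cx.gi.pr_self _ x
  have pr_e : ∀ (n : ℕ) (w : C → S), pr' n (w ᵥ* e') = pr' n w := fun n w => F9b_pr_e hk.cx _ w
  have pr_d : ∀ (n : ℕ) (w : C → S), pr' n (w ᵥ* δ) = P'.d n (pr' (n + 1) w) :=
    fun n w => F9b_pr_d hk.cx (by push_cast; ring) w
  have pr_single : ∀ (n : ℕ) (i : C), p i ≠ n → pr' n (Pi.single i 1) = 0 :=
    fun n i hi => F9b_pr_single hk.cx _ i (by omega)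
  obtain ⟨A, hA⟩ : ∃ A : ∀ n, Matrix C (P.ι n) S, A = fun n i => v n (pr' n (Pi.single i 1)) :=
    ⟨_, rfl⟩
  have hAv : ∀ (n : ℕ) (w : C → S), w ᵥ* A n = v n (pr' n w) := by
    intro n w
    have h1 : (A n).vecMulLinear = v n ∘ₗ pr' n := by
      refine LinearMap.pi_ext' fun i => LinearMap.ext_ring ?_
      change (Pi.single i (1 : S)) ᵥ* A n = v n (pr' n (Pi.single i 1))
      rw [Matrix.single_one_vecMul, hA]
      rfl
    exact LinearMap.congr_fun h1 w
  have hAe : ∀ n, e' * A n = A n := by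
    intro n
    refine Matrix.ext fun i => congrFun ?_
    change (e' i) ᵥ* A n = A n i
    have h1 : e' i = (Pi.single i (1 : S)) ᵥ* e' := by rw [Matrix.single_one_vecMul]; rfl
    rw [h1, hAv, pr_e, hA]
  have hAd : ∀ n, δ * A n = A (n + 1) * P.D n := by
    intro n
    refine Matrix.ext fun i => congrFun ?_
    change (δ i) ᵥ* A n = (A (n + 1) i) ᵥ* P.D n
    have h1 : δ i = (Pi.single i (1 : S)) ᵥ* δ := by rw [Matrix.single_one_vecMul]; rfl
    rw [h1, hAv, pr_d, hA]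
    exact (hv n _).symm
  refine F9b_core Cq q hCex hCe (by omega) (fun n => A n * Z.U n) ?_ ?_ ?_ ?_
  · intro n i b hb
    by_contra hcon
    apply hb
    have h1 : A n i = 0 := by
      rw [hA]
      change v n (pr' n (Pi.single i 1)) = 0
      rw [pr_single n i hcon, map_zero]
    change (A n i ᵥ* Z.U n) b = 0
    rw [h1, Matrix.zero_vecMul]
    rfl
  · intro n
    change e' * (A n * Z.U n) = A n * Z.U n
    rw [← Matrix.mul_assoc, hAe]
  · intro n
    change δ * (A n * Z.U n) = A (n + 1) * Z.U (n + 1) * Cq.D n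
    rw [← Matrix.mul_assoc, hAd, Matrix.mul_assoc, Matrix.mul_assoc, Z.comm]
  · rintro ⟨H, hH⟩
    have hrow' : ∀ s : P.ι 0, ∃ w : Cq.ι 1 → S, Z.U 0 s = w ᵥ* Cq.D 0 := by
      intro s
      obtain ⟨u, hu⟩ := P'.surj (rP.ε (Pi.single s 1))
      obtain ⟨t, ht⟩ := rP.ker (v 0 u - Pi.single s 1) (by rw [map_sub, hv0, hu, sub_self])
      obtain ⟨u0, hu0⟩ : ∃ u0 : GV (fun c => (p c : ℤ)) e' (0 + ((0 : ℕ) : ℤ)), u0 = u := ⟨u, rfl⟩
      have h1 : v 0 u = (u0 : C → S) ᵥ* A 0 := by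
        rw [hAv, pr_self 0 u0, hu0]
      have h2 : (u0 : C → S) ᵥ* (A 0 * Z.U 0) = (u0 : C → S) ᵥ* (H * Cq.D 0) := by
        funext b
        simp only [Matrix.vecMul, dotProduct]
        refine Finset.sum_congr rfl fun i _ => ?_
        by_cases h3 : (u0 : C → S) i = 0
        · rw [h3, zero_mul, zero_mul]
        · have h4 : (p i : ℤ) = 0 + ((0 : ℕ) : ℤ) := u0.2.1 i h3
          rw [hH i (by omega) b]
      refine ⟨(u0 : C → S) ᵥ* H - t ᵥ* Z.U 1, ?_⟩
      have h5 : Z.U 0 s = (Pi.single s (1 : S)) ᵥ* Z.U 0 := by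
        rw [Matrix.single_one_vecMul]
        rfl
      have h6 : (Pi.single s (1 : S) : P.ι 0 → S) = v 0 u - t ᵥ* P.D 0 := by
        rw [ht]
        abel
      rw [h5, h6, Matrix.sub_vecMul, Matrix.sub_vecMul, h1, Matrix.vecMul_vecMul, h2,
        Matrix.vecMul_vecMul, Matrix.vecMul_vecMul, Matrix.vecMul_vecMul, Z.comm 0]
    choose W hW using hrow'
    have hbd : (ξ : P.ι q → S) ∈ P.bd q := hCf ⟨W, funext hW⟩
    obtain ⟨m, rfl⟩ : ∃ m, q = m + 1 := ⟨q - 1, by omega⟩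
    have h1 : tCls rP (m + 1) ξ = 0 := by
      rw [← LinearMap.mem_ker, tCls_ker]
      exact hbd
    rw [hξ, esCls_eq_zero] at h1
    obtain ⟨g, hg⟩ := h1
    obtain ⟨c, c1, c2, c3⟩ := gi.fun_surj _ g
    have h1 : y' - δ *ᵥ c = 0 := by
      refine gi.fun_inj (0 + ((m + 1 : ℕ) : ℤ)) _ (fun k hk' => ?_) ?_ fun x => ?_
      · by_cases h2 : y' k = 0
        · have h3 : (δ *ᵥ c) k ≠ 0 := fun h0 => hk' (by rw [Pi.sub_apply, h2, h0, sub_zero])
          by_contra hcon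
          apply h3
          simp only [Matrix.mulVec, dotProduct]
          refine Finset.sum_eq_zero fun i _ => ?_
          by_cases h4 : c i = 0
          · rw [h4, mul_zero]
          · by_cases h5 : δ k i = 0
            · rw [h5, zero_mul]
            · have h6 : (p i : ℤ) = 0 + (m : ℤ) := c1 i h4
              have h7 := hk.δ_deg k i h5
              exact absurd (by push_cast; omega) hcon
        · exact g1 k h2
      · rw [Matrix.mulVec_sub, g2, Matrix.mulVec_mulVec, hk.eδ]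
      · rw [dotProduct_sub, sub_eq_zero]
        have h2 := LinearMap.congr_fun hg x
        have h3 : (x : C → S) ⬝ᵥ y' = g (P'.d m x) := h2.symm
        rw [h3]
        refine (c3 (P'.d m x)).trans ?_
        change ((x : C → S) ᵥ* δ) ⬝ᵥ c = _
        rw [← Matrix.dotProduct_mulVec]
    refine ⟨fun i _ => c i, ?_⟩
    funext i u
    have h2 := congrFun (sub_eq_zero.1 h1) i
    rw [hy'] at h2
    exact h2

/-- coherence, `AR1` and finite dimension are enough -/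
theorem facts4_of_ar1 {S : Type u} [Ring S] [StarRing S] (hc : CohT S) (h : AR1 S) {g : ℕ}
    (hg : FL S g) : Facts4 S (g + 1) :=
  ⟨hc, pdT_of_fl hc hg, ausM1_of hc h, ausW_of hc (arw_of_ar1 hc h), funM_of_ar1 hc h,
    endM_of_fl_coh hc hg⟩

end Pool.Agent.UP25
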