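import Mathlib
import Pool.Agent.Lib.UP25.TDefs

/-!
# TANK UP, stage 3, row S3 (helper52): groups acting on locally finite trees, the group side
-/

set_option autoImplicit false
set_option linter.unusedVariables false

open MonoidAlgebra Pool.Agent.UP

namespace Pool.Agent.UP25

universe u v w

/-- balls of a locally finite connected graph are finite -/
theorem s3_ball {V : Type w} {Γ : SimpleGraph V} (hΓ : Γ.IsTree)
    (hlf : ∀ x : V, (Γ.neighborSet x).Finite) (x : V) (m : ℕ) : {y | Γ.dist x y ≤ m}.Finite := by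
  induction m with
  | zero =>
    refine (Set.finite_singleton x).subset fun y hy => ?_
    have h1 : Γ.dist x y = 0 := Nat.le_zero.1 hy
    exact (hΓ.connected.dist_eq_zero_iff.1 h1).symm
  | succ m ih =>
    refine (ih.union (ih.biUnion fun z _ => hlf z)).subset fun y hy => ?_
    have hy' : Γ.dist x y ≤ m + 1 := hy
    by_cases h : Γ.dist x y ≤ m
    · exact Or.inl h
    · refine Or.inr ?_
      have hne : y ≠ x := by
        rintro rfl
        rw [SimpleGraph.dist_self] at h
        exact h (Nat.zero_le _)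
      obtain ⟨z, ha, hz⟩ := exists_parent hΓ hne
      refine Set.mem_biUnion (x := z) ?_ ha.symm
      change Γ.dist x z ≤ m
      omega

/-- automorphisms of a connected graph preserve the distances -/
theorem s3_dist {V : Type w} {H : Type v} [Group H] [MulAction H V] {Γ : SimpleGraph V}
    (hΓ : Γ.IsTree) (hadj : ∀ (h : H) (x y : V), Γ.Adj x y → Γ.Adj (h • x) (h • y)) (h : H)
    (x y : V) : Γ.dist (h • x) (h • y) = Γ.dist x y := by
  have key : ∀ (h : H) (x y : V), Γ.dist (h • x) (h • y) ≤ Γ.dist x y := by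
    intro h x y
    obtain ⟨w, hw⟩ := hΓ.connected.exists_walk_length_eq_dist x y
    let f : Γ →g Γ := { toFun := fun x => h • x, map_rel' := fun {a b} hab => hadj h a b hab }
    have h1 : Γ.dist (h • x) (h • y) ≤ (w.map f).length := SimpleGraph.dist_le (w.map f)
    rw [SimpleGraph.Walk.length_map, hw] at h1
    exact h1
  refine le_antisymm (key h x y) ?_
  have h2 := key h⁻¹ (h • x) (h • y)
  rwa [inv_smul_smul, inv_smul_smul] at h2

/-- coset representatives -/
theorem s3_cosets {H : Type v} [Group H] (L M : Subgroup H) (h : L.relIndex M ≠ 0) :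
    ∃ D : Finset H, ∀ s ∈ M, ∃ d ∈ D, s * d⁻¹ ∈ L := by
  classical
  have hfi : (L.subgroupOf M).FiniteIndex := ⟨h⟩
  have hfin : Finite (M ⧸ L.subgroupOf M) := Subgroup.finite_quotient_of_finiteIndex
  have : Fintype (M ⧸ L.subgroupOf M) := Fintype.ofFinite _
  refine ⟨Finset.univ.image fun q : M ⧸ L.subgroupOf M => ((q.out : M) : H)⁻¹, fun s hs => ?_⟩
  let q : M ⧸ L.subgroupOf M := QuotientGroup.mk (⟨s, hs⟩ : M)⁻¹
  refine ⟨((q.out : M) : H)⁻¹, Finset.mem_image_of_mem _ (Finset.mem_univ q), ?_⟩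
  have h1 : (q.out : M)⁻¹ * (⟨s, hs⟩ : M)⁻¹ ∈ L.subgroupOf M := by
    rw [← QuotientGroup.eq]
    exact Quotient.out_eq' q
  have h2 : ((q.out : M) : H)⁻¹ * s⁻¹ ∈ L := h1
  have h3 := L.inv_mem h2
  rw [mul_inv_rev, inv_inv, inv_inv] at h3
  rw [inv_inv]
  exact h3

section

variable {H V : Type v} [Group H] [MulAction H V] (T : TAct H V)

include T

theorem TAct.ball_finite (x : V) (m : ℕ) : {y | T.Γ.dist x y ≤ m}.Finite :=
  s3_ball T.tree T.lf x m

theorem TAct.finE : Finite (MulAction.orbitRel.Quotient H T.E) := by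
  have hV : Finite (MulAction.orbitRel.Quotient H V) := T.fin
  let R : Set V := Set.range fun q : MulAction.orbitRel.Quotient H V => q.out
  have hR : R.Finite := Set.finite_range _
  let S : Set T.E := {e | e.1.1 ∈ R}
  have hS : S.Finite := by
    have h1 : ((fun e : T.E => e.1) '' S).Finite := by
      refine ((hR.biUnion fun x _ => (T.lf x).image fun y => (x, y))).subset ?_
      rintro _ ⟨e, he, rfl⟩
      refine Set.mem_biUnion (x := e.1.1) he ⟨e.1.2, e.2.1, rfl⟩
    exact Set.Finite.of_finite_image h1 Subtype.val_injective.injOn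
  have : Finite S := hS.to_subtype
  refine Finite.of_surjective
    (fun e : S => (Quotient.mk'' e.1 : MulAction.orbitRel.Quotient H T.E)) fun q => ?_
  induction q using Quotient.inductionOn' with
  | h e =>
    let p : MulAction.orbitRel.Quotient H V := Quotient.mk'' e.1.1
    have h1 : p.out ∈ MulAction.orbit H e.1.1 := by
      rw [← MulAction.orbitRel_apply]
      exact Quotient.exact' (Quotient.out_eq' p)
    obtain ⟨h, hh⟩ := h1
    refine ⟨⟨h • e, ?_⟩, ?_⟩
    · change (h • e.1.1 : V) ∈ R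
      exact ⟨p, hh.symm⟩
    · refine Quotient.sound' ?_
      rw [MulAction.orbitRel_apply]
      exact ⟨h, rfl⟩

/-- the orbit of a vertex under the stabiliser of another one is finite -/
theorem TAct.s3_rel (x y : V) :
    (MulAction.stabilizer H y).relIndex (MulAction.stabilizer H x) ≠ 0 := by
  have h1 : (MulAction.stabilizer H y).subgroupOf (MulAction.stabilizer H x) =
      MulAction.stabilizer (MulAction.stabilizer H x) y := by
    ext g
    rw [Subgroup.mem_subgroupOf, MulAction.mem_stabilizer_iff, MulAction.mem_stabilizer_iff]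
    rfl
  rw [Subgroup.relIndex, h1, MulAction.index_stabilizer]
  have h2 : MulAction.orbit (MulAction.stabilizer H x) y ⊆ {z | T.Γ.dist x z ≤ T.Γ.dist x y} := by
    rintro _ ⟨g, rfl⟩
    have hg : g.1 • x = x := g.2
    change T.Γ.dist x (g.1 • y) ≤ T.Γ.dist x y
    have h3 := s3_dist T.tree T.adj g.1 x y
    rw [hg] at h3
    exact h3.le
  exact ((Set.ncard_pos ((T.ball_finite x _).subset h2)).2 (MulAction.nonempty_orbit y)).ne'

theorem TAct.s3_stab {L : Subgroup H} (hL : T.Stab L) :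
    ∃ x y : V, L = MulAction.stabilizer H x ⊓ MulAction.stabilizer H y := by
  rcases hL with ⟨x, rfl⟩ | ⟨e, rfl⟩
  · exact ⟨x, x, (inf_idem _).symm⟩
  · refine ⟨e.1.1, e.1.2, ?_⟩
    ext g
    rw [TAct.mem_stabE, Subgroup.mem_inf]
    rfl

theorem TAct.s3_rel2 {L M : Subgroup H} (hL : T.Stab L) (hM : T.Stab M) : M.relIndex L ≠ 0 := by
  obtain ⟨x, y, rfl⟩ := T.s3_stab hL
  obtain ⟨x', y', rfl⟩ := T.s3_stab hM
  have h1 : (MulAction.stabilizer H x' ⊓ MulAction.stabilizer H y').relIndex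
      (MulAction.stabilizer H x) ≠ 0 :=
    Subgroup.relIndex_inf_ne_zero (T.s3_rel x x') (T.s3_rel x y')
  refine Subgroup.relIndex_ne_zero_trans h1 ?_
  rw [Subgroup.relIndex_eq_one.2 inf_le_left]
  exact one_ne_zero

theorem TAct.cms {L M : Subgroup H} (hL : T.Stab L) (hM : T.Stab M) : Cms L M := by
  refine ⟨?_, ?_⟩
  · rw [Subgroup.inf_relIndex_left]
    exact T.s3_rel2 hL hM
  · rw [Subgroup.inf_relIndex_right]
    exact T.s3_rel2 hM hL

theorem TAct.stab_cjg {L : Subgroup H} (hL : T.Stab L) (g : H) : T.Stab (cjg g L) := by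
  rcases hL with ⟨x, rfl⟩ | ⟨e, rfl⟩
  · exact Or.inl ⟨g • x, (MulAction.stabilizer_smul_eq_stabilizer_map_conj g x).symm⟩
  · exact Or.inr ⟨g • e, (MulAction.stabilizer_smul_eq_stabilizer_map_conj g e).symm⟩

theorem TAct.ball_cosets {L : Subgroup H} (hL : T.Stab L) (x0 x : V) (m : ℕ) :
    ∃ C : Finset H, ∀ h : H, T.Γ.dist x (h • x0) ≤ m → ∃ c ∈ C, h * c⁻¹ ∈ L := by
  classical
  have key : ∀ v : V, ∃ C : Finset H, ∀ h : H, h • x0 = v → ∃ c ∈ C, h * c⁻¹ ∈ L := by
    intro v
    by_cases hv : ∃ k : H, k • x0 = v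
    · obtain ⟨k, hk⟩ := hv
      obtain ⟨D, hD⟩ := s3_cosets L (MulAction.stabilizer H v) (T.s3_rel2 (Or.inl ⟨v, rfl⟩) hL)
      refine ⟨D.image fun d => d * k, fun h hh => ?_⟩
      have h1 : h * k⁻¹ ∈ MulAction.stabilizer H v := by
        rw [MulAction.mem_stabilizer_iff, mul_smul, ← hk, inv_smul_smul, hh, hk]
      obtain ⟨d, hd, h2⟩ := hD _ h1
      refine ⟨d * k, Finset.mem_image_of_mem _ hd, ?_⟩
      rw [mul_inv_rev, ← mul_assoc]
      exact h2
    · exact ⟨∅, fun h hh => absurd ⟨h, hh⟩ hv⟩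
  choose C hC using key
  refine ⟨(T.ball_finite x m).toFinset.biUnion C, fun h hh => ?_⟩
  obtain ⟨c, hc, h1⟩ := hC (h • x0) h rfl
  exact ⟨c, Finset.mem_biUnion.2 ⟨h • x0, (T.ball_finite x m).mem_toFinset.2 hh, hc⟩, h1⟩

end

end Pool.Agent.UP25
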