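import Mathlib
import Pool.Agent.Lib.UP25.TDefs
import Pool.Agent.Lib.UP.FLat

/-!
# TANK UP, stage 3, row S4 (helper62)

The Cayley tree of a free group of finite rank; finitely generated groups in the class `VPFd d` are
in the class `VTd d`.
-/

set_option autoImplicit false

open Pool.Agent.UP

namespace Pool.Agent.UP25

universe v w

/-- trees from a norm with unique parents -/
theorem isTree_of_norm {V : Type w} (Γ : SimpleGraph V) (N : V → ℕ) (r : V)
    (h0 : ∀ v, v ≠ r → ∃ u, Γ.Adj v u ∧ N u < N v)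
    (h1 : ∀ v u u', Γ.Adj v u → Γ.Adj v u' → N u ≤ N v → N u' ≤ N v → u = u') : Γ.IsTree := by
  classical
  have hr : ∀ n : ℕ, ∀ v : V, N v = n → Γ.Reachable v r := by
    intro n
    induction n using Nat.strong_induction_on with
    | _ n ih =>
      intro v hv
      by_cases hvr : v = r
      · rw [hvr]
      · obtain ⟨u, h2, h3⟩ := h0 v hvr
        exact h2.reachable.trans (ih (N u) (by omega) u rfl)
  have : Nonempty V := ⟨r⟩
  refine ⟨⟨fun u v => (hr _ u rfl).trans (hr _ v rfl).symm⟩, ?_⟩
  intro v c hc'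
  obtain ⟨w, hw, hmax⟩ := c.support.toFinset.exists_max_image N
    ⟨v, List.mem_toFinset.2 c.start_mem_support⟩
  rw [List.mem_toFinset] at hw
  have h2 : (c.rotate w hw).IsCycle := by
    rw [SimpleGraph.Walk.isCycle_rotate]
    exact hc'
  have h3 : ∀ x ∈ (c.rotate w hw).support, N x ≤ N w := by
    intro x hx
    rw [SimpleGraph.Walk.mem_support_rotate_iff] at hx
    exact hmax x (List.mem_toFinset.2 hx)
  refine h2.snd_ne_penultimate ?_
  exact h1 w _ _ (SimpleGraph.Walk.adj_snd h2.not_nil)
    (SimpleGraph.Walk.adj_penultimate h2.not_nil).symm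
    (h3 _ (SimpleGraph.Walk.getVert_mem_support _ _))
    (h3 _ (SimpleGraph.Walk.getVert_mem_support _ _))

/-- the Cayley graph of a free group, on a copy `V` of the group -/
def cayF {V : Type w} {n : ℕ} (f : V → FreeGroup (Fin n)) : SimpleGraph V where
  Adj x y := ∃ s : Fin n × Bool, f y = f x * ltr s
  symm := ⟨by
    rintro x y ⟨s, h⟩
    refine ⟨opl s, ?_⟩
    rw [h, ← ltr_inv, mul_inv_cancel_right]⟩
  loopless := ⟨by
    rintro x ⟨s, h⟩
    have h1 : ltr s = 1 := by
      have := h
      rw [eq_comm, mul_eq_left] at this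
      exact this
    have h2 := norm_mul_ltr (1 : FreeGroup (Fin n)) s
    rw [one_mul, h1, FreeGroup.norm_one] at h2
    rcases h2 with h2 | ⟨-, h2⟩ <;> omega⟩

theorem cayF_tree {V : Type w} {n : ℕ} (f : V → FreeGroup (Fin n)) (hf : Function.Bijective f) :
    (cayF f).IsTree := by
  obtain ⟨r, hr⟩ := hf.2 1
  refine isTree_of_norm _ (fun x => (f x).norm) r ?_ ?_
  · intro v hv
    have hv1 : f v ≠ 1 := fun h => hv (hf.1 (h.trans hr.symm))
    have h1 : ((f v)⁻¹).toWord ≠ [] := by
      intro h
      exact hv1 (inv_eq_one.1 (FreeGroup.toWord_eq_nil_iff.1 h))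
    obtain ⟨s, tl, h2⟩ := List.exists_cons_of_ne_nil h1
    obtain ⟨u, hu⟩ := hf.2 (f v * ltr s)
    refine ⟨u, ⟨s, hu⟩, ?_⟩
    have h3 : (f v)⁻¹ = ltr s * FreeGroup.mk tl := by
      rw [ltr, FreeGroup.mul_mk, List.singleton_append, ← h2, FreeGroup.mk_toWord]
    have h4 : f v * ltr s = (FreeGroup.mk tl)⁻¹ := by
      rw [eq_inv_iff_mul_eq_one, mul_assoc, ← h3, mul_inv_cancel]
    have h5 : (f v * ltr s).norm ≤ tl.length := by
      rw [h4, FreeGroup.norm_inv_eq]
      exact FreeGroup.norm_mk_le
    have h6 : (f v).norm = tl.length + 1 := by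
      rw [← FreeGroup.norm_inv_eq, FreeGroup.norm, h2, List.length_cons]
    rw [hu]
    omega
  · rintro v u u' ⟨s, hs⟩ ⟨s', hs'⟩ h h'
    rw [hs] at h
    rw [hs'] at h'
    apply hf.1
    rw [hs, hs', ltr_unique h h']

theorem cayF_finite {V : Type w} {n : ℕ} (f : V → FreeGroup (Fin n)) (hf : Function.Injective f)
    (x : V) : ((cayF f).neighborSet x).Finite := by
  have h1 : ((fun y => f y) '' (cayF f).neighborSet x).Finite := by
    refine (Set.finite_range fun s : Fin n × Bool => f x * ltr s).subset ?_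
    rintro _ ⟨y, ⟨s, hs⟩, rfl⟩
    exact ⟨s, hs.symm⟩
  exact Set.Finite.of_finite_image h1 hf.injOn

theorem free_tree (n : ℕ) : ∃ Γ : SimpleGraph (FreeGroup (Fin n)), Γ.IsTree ∧
    (∀ g x y, Γ.Adj x y → Γ.Adj (g * x) (g * y)) ∧ ∀ x, (Γ.neighborSet x).Finite := by
  refine ⟨cayF id, cayF_tree id Function.bijective_id, ?_, cayF_finite id Function.injective_id⟩
  rintro g x y ⟨s, hs⟩
  refine ⟨s, ?_⟩
  change g * y = g * x * ltr s
  rw [show y = x * ltr s from hs, mul_assoc]

theorem vtd_of_vpfd {d : ℕ} {H : Type v} [Group H] (hH : Group.FG H) (h : VPFd d H) :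
    VTd d H := by
  obtain ⟨htf, N, X, φ, hN, hP⟩ := h
  have hNfg : Group.FG N := Subgroup.fg_of_index_ne_zero N
  obtain ⟨n, ψ, -, hker⟩ := exists_surj_freeGroup hNfg φ
  let f : ULift.{v} (FreeGroup (Fin n)) → FreeGroup (Fin n) := ULift.down
  have hf : Function.Bijective f := ULift.down_bijective
  let act : MulAction N (ULift.{v} (FreeGroup (Fin n))) :=
    { smul := fun g x => ⟨ψ g * x.down⟩
      one_smul := fun x => by
        apply ULift.down_injective
        change ψ 1 * x.down = x.down
        rw [map_one, one_mul]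
      mul_smul := fun g g' x => by
        apply ULift.down_injective
        change ψ (g * g') * x.down = ψ g * (ψ g' * x.down)
        rw [map_mul, mul_assoc] }
  refine ⟨htf, N, ULift.{v} (FreeGroup (Fin n)), act, cayF f, hN, cayF_tree f hf, ?_,
    cayF_finite f hf.1, ?_⟩
  · rintro g x y ⟨s, hs⟩
    refine ⟨s, ?_⟩
    change ψ g * y.down = ψ g * x.down * ltr s
    rw [show y.down = x.down * ltr s from hs, mul_assoc]
  · intro x
    refine ⟨⊤, inferInstance, ?_⟩
    have hmem : ∀ g : (⊤ : Subgroup (MulAction.stabilizer N x)), (g : MulAction.stabilizer N x).1 ∈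
        φ.ker := by
      intro g
      rw [← hker, MonoidHom.mem_ker]
      have h1 : (g : MulAction.stabilizer N x).1 • x = x := (g : MulAction.stabilizer N x).2
      have h2 : ψ (g : MulAction.stabilizer N x).1 * x.down = x.down := congrArg ULift.down h1
      exact mul_eq_right.1 h2
    refine PolyZ.of_injective (H := φ.ker)
      { toFun := fun g => ⟨(g : MulAction.stabilizer N x).1, hmem g⟩
        map_one' := rfl
        map_mul' := fun _ _ => rfl } ?_ hP
    intro a b hab
    have h1 : (a : MulAction.stabilizer N x).1 = (b : MulAction.stabilizer N x).1 :=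
      congrArg (fun z : φ.ker => z.1) hab
    exact Subtype.ext (Subtype.ext h1)

end Pool.Agent.UP25
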