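import Mathlib
import Pool.Agent.Lib.UP25.Grp
import Pool.Agent.Lib.UP25.S4

/-!
# TANK UP, stage 3, row S3 (helper52): cocompact subtrees

A finitely generated group which acts on a locally finite tree has a subgroup of index at most 2
which acts with finitely many orbits and an invariant orientation on a subtree.
-/

set_option autoImplicit false
set_option linter.unusedVariables false

open MonoidAlgebra Pool.Agent.UP

namespace Pool.Agent.UP25

universe u v w

/-- `x` lies on the segment from `a` to `b` -/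
def s3_btw {V : Type w} (Γ : SimpleGraph V) (a x b : V) : Prop :=
  Γ.dist a x + Γ.dist x b = Γ.dist a b

theorem s3_btw_symm {V : Type w} {Γ : SimpleGraph V} {a x b : V} (h : s3_btw Γ a x b) :
    s3_btw Γ b x a := by
  unfold s3_btw at h ⊢
  have h1 : Γ.dist b x = Γ.dist x b := SimpleGraph.dist_comm
  have h2 : Γ.dist x a = Γ.dist a x := SimpleGraph.dist_comm
  have h3 : Γ.dist b a = Γ.dist a b := SimpleGraph.dist_comm
  omega

section

variable {V : Type w} {Γ : SimpleGraph V} (hΓ : Γ.IsTree)

include hΓ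

theorem s3_btw_split {a b x : V} (h : s3_btw Γ a x b) (r : V) :
    s3_btw Γ a x r ∨ s3_btw Γ r x b := by
  unfold s3_btw at h ⊢
  by_cases hx : x = r
  · subst hx
    left
    rw [SimpleGraph.dist_self, add_zero]
  · obtain ⟨y, hxy, hy⟩ := exists_parent hΓ hx
    rcases adj_cases hΓ hxy a with h1 | h1
    · rcases adj_cases hΓ hxy b with h2 | h2
      · exfalso
        have h3 : Γ.dist a b ≤ Γ.dist a y + Γ.dist y b := hΓ.connected.dist_triangle
        rw [SimpleGraph.dist_comm (u := b), SimpleGraph.dist_comm (u := b)] at h2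
        omega
      · right
        have h3 := tree_through hΓ hxy hy (Γ.dist x b) b rfl h2
        exact h3.symm
    · left
      have h3 := tree_through hΓ hxy hy (Γ.dist x a) a rfl h1
      exact s3_btw_symm h3.symm

/-- parity of distances -/
theorem s3_parity (r a b : V) :
    ((Γ.dist r b : ℕ) : ZMod 2) = (Γ.dist r a : ℕ) + (Γ.dist a b : ℕ) := by
  obtain ⟨w, hw⟩ := hΓ.connected.exists_walk_length_eq_dist a b
  rw [← hw]
  clear hw
  induction w with
  | nil => rw [SimpleGraph.Walk.length_nil, Nat.cast_zero, add_zero]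
  | @cons a c b hac w ih =>
    rw [SimpleGraph.Walk.length_cons, ih]
    have h2 : (1 : ZMod 2) + 1 = 0 := rfl
    rcases adj_cases hΓ hac r with h | h
    · rw [h]
      push_cast
      rw [add_assoc, add_left_comm (1 : ZMod 2), h2, add_zero]
    · rw [h]
      push_cast
      ring

end

/-- **cocompact subtrees** -/
theorem exists_tact {N : Type v} [Group N] (hN : Group.FG N) {V : Type v} [MulAction N V]
    (Γ : SimpleGraph V) (hΓ : Γ.IsTree)
    (hadj : ∀ (n : N) (x y : V), Γ.Adj x y → Γ.Adj (n • x) (n • y))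
    (hlf : ∀ x : V, (Γ.neighborSet x).Finite) :
    ∃ (N' : Subgroup N) (V' : Type v) (_ : MulAction N' V') (_ : TAct N' V'), N'.FiniteIndex ∧
      ∀ x' : V', ∃ x : V, ∀ n ∈ MulAction.stabilizer N' x', (n : N) • x = x := by
  classical
  obtain ⟨r⟩ := hΓ.connected.nonempty
  have hd : ∀ (n : N) (x y : V), Γ.dist (n • x) (n • y) = Γ.dist x y := s3_dist hΓ hadj
  -- the parity
  let φ : N →* Multiplicative (ZMod 2) :=
    { toFun := fun n => Multiplicative.ofAdd ((Γ.dist r (n • r) : ℕ) : ZMod 2)
      map_one' := by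
        rw [one_smul, SimpleGraph.dist_self, Nat.cast_zero]
        rfl
      map_mul' := fun m n => by
        rw [← ofAdd_add]
        congr 1
        rw [s3_parity hΓ r (m • r) ((m * n) • r), mul_smul, hd] }
  have hφ : ∀ n ∈ φ.ker, ∀ x : V, ((Γ.dist r (n • x) : ℕ) : ZMod 2) = (Γ.dist r x : ℕ) := by
    intro n hn x
    have h1 : ((Γ.dist r (n • r) : ℕ) : ZMod 2) = 0 := hn
    rw [s3_parity hΓ r (n • r) (n • x), h1, hd, zero_add]
  have hfi : φ.ker.FiniteIndex := inferInstance
  let N' : Subgroup N := φ.ker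
  have hN' : Group.FG N' := Subgroup.fg_of_index_ne_zero N'
  -- the subtree
  let W : Set V := {x | ∃ g h : N', s3_btw Γ (g • r) x (h • r)}
  have hbtw : ∀ (n : N') (a x b : V), s3_btw Γ a x b → s3_btw Γ (n • a) (n • x) (n • b) := by
    intro n a x b h
    unfold s3_btw at h ⊢
    rw [show Γ.dist (n • a) (n • x) = Γ.dist a x from hd n.1 a x,
      show Γ.dist (n • x) (n • b) = Γ.dist x b from hd n.1 x b,
      show Γ.dist (n • a) (n • b) = Γ.dist a b from hd n.1 a b]
    exact h
  have hW : ∀ (n : N') (x : V), x ∈ W → n • x ∈ W := by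
    rintro n x ⟨g, h, hx⟩
    refine ⟨n * g, n * h, ?_⟩
    rw [mul_smul, mul_smul]
    exact hbtw n _ _ _ hx
  let act : MulAction N' W :=
    { smul := fun n x => ⟨n • x.1, hW n x.1 x.2⟩
      one_smul := fun x => Subtype.ext (one_smul N' x.1)
      mul_smul := fun m n x => Subtype.ext (mul_smul m n x.1) }
  have hrW : r ∈ W := by
    refine ⟨1, 1, ?_⟩
    unfold s3_btw
    rw [one_smul, SimpleGraph.dist_self]
  let Γ' : SimpleGraph W := Γ.comap Subtype.val
  have hΓ' : Γ'.IsTree := by
    refine isTree_of_norm Γ' (fun x => Γ.dist r x.1) ⟨r, hrW⟩ ?_ ?_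
    · intro x hx
      have hne : x.1 ≠ r := fun h => hx (Subtype.ext h)
      obtain ⟨y, hxy, hy⟩ := exists_parent hΓ hne
      have key : ∃ k : N', s3_btw Γ r x.1 (k • r) := by
        obtain ⟨g, h, hgh⟩ := x.2
        rcases s3_btw_split hΓ hgh r with h1 | h1
        · exact ⟨g, s3_btw_symm h1⟩
        · exact ⟨h, h1⟩
      obtain ⟨k, hk⟩ := key
      have hyW : y ∈ W := by
        refine ⟨1, k, ?_⟩
        rw [one_smul]
        unfold s3_btw at hk ⊢
        have h1 : Γ.dist r (k • r) ≤ Γ.dist r y + Γ.dist y (k • r) := hΓ.connected.dist_triangle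
        have h2 : Γ.dist y (k • r) ≤ Γ.dist y x.1 + Γ.dist x.1 (k • r) :=
          hΓ.connected.dist_triangle
        have h3 : Γ.dist y x.1 = 1 := SimpleGraph.dist_eq_one_iff_adj.2 hxy.symm
        omega
      refine ⟨⟨y, hyW⟩, hxy, ?_⟩
      change Γ.dist r y < Γ.dist r x.1
      omega
    · intro x y y' h1 h2 h3 h4
      have h5 : Γ.Adj x.1 y.1 := h1
      have h6 : Γ.Adj x.1 y'.1 := h2
      have h7 : Γ.dist r y.1 ≤ Γ.dist r x.1 := h3
      have h8 : Γ.dist r y'.1 ≤ Γ.dist r x.1 := h4
      refine Subtype.ext (Pool.Agent.Lib.MP_98022b_UN.Tree_unique hΓ h5 h6 (x := r) ?_ ?_)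
      · rw [SimpleGraph.dist_comm, SimpleGraph.dist_comm (u := x.1)]
        rcases adj_cases hΓ h5 r with h | h <;> omega
      · rw [SimpleGraph.dist_comm, SimpleGraph.dist_comm (u := x.1)]
        rcases adj_cases hΓ h6 r with h | h <;> omega
  -- the orbits
  obtain ⟨S, hS⟩ := hN'.out
  let K : Set V := ⋃ s ∈ (insert 1 S : Finset N'), {y | s3_btw Γ r y (s • r)}
  have hK : K.Finite := by
    refine Set.Finite.biUnion (Finset.finite_toSet _) fun s _ => ?_
    refine (s3_ball hΓ hlf r (Γ.dist r (s • r))).subset fun y hy => ?_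
    have h1 : Γ.dist r y + Γ.dist y (s • r) = Γ.dist r (s • r) := hy
    change Γ.dist r y ≤ _
    omega
  have hcov : ∀ (h : N'), ∀ (g : N') (x : V), s3_btw Γ (g • r) x ((g * h) • r) →
      ∃ k : N', k • x ∈ K := by
    intro h
    have hh : h ∈ Subgroup.closure (S : Set N') := by
      rw [hS]
      exact Subgroup.mem_top h
    induction hh using Subgroup.closure_induction with
    | mem s hs =>
      intro g x hx
      refine ⟨g⁻¹, Set.mem_biUnion (x := s) (Finset.mem_insert_of_mem hs) ?_⟩
      have h1 := hbtw g⁻¹ _ _ _ hx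
      rw [inv_smul_smul, mul_smul, inv_smul_smul] at h1
      exact h1
    | one =>
      intro g x hx
      refine ⟨g⁻¹, Set.mem_biUnion (x := 1) (Finset.mem_insert_self _ _) ?_⟩
      have h1 := hbtw g⁻¹ _ _ _ hx
      rw [inv_smul_smul, mul_smul, inv_smul_smul] at h1
      exact h1
    | mul a b _ _ iha ihb =>
      intro g x hx
      rcases s3_btw_split hΓ hx ((g * a) • r) with h1 | h1
      · exact iha g x h1
      · rw [← mul_assoc] at h1
        exact ihb (g * a) x h1
    | inv a _ iha =>
      intro g x hx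
      refine iha (g * a⁻¹) x ?_
      rw [inv_mul_cancel_right]
      exact s3_btw_symm hx
  have hfin : Finite (MulAction.orbitRel.Quotient N' W) := by
    have : Finite {x : W | x.1 ∈ K} :=
      (Set.Finite.preimage Subtype.val_injective.injOn hK).to_subtype
    refine Finite.of_surjective (fun e : {x : W | x.1 ∈ K} =>
      (Quotient.mk'' e.1 : MulAction.orbitRel.Quotient N' W)) fun q => ?_
    induction q using Quotient.inductionOn' with
    | h x =>
      obtain ⟨g, h, hgh⟩ := x.2
      obtain ⟨k, hk⟩ := hcov (g⁻¹ * h) g x.1 (by rwa [mul_inv_cancel_left])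
      refine ⟨⟨k • x, hk⟩, ?_⟩
      refine Quotient.sound' ?_
      rw [MulAction.orbitRel_apply]
      exact ⟨k, rfl⟩
  -- the orientation
  have hpar : ∀ x : V, Even (Γ.dist r x) ↔ ((Γ.dist r x : ℕ) : ZMod 2) = 0 := fun x => by
    rw [ZMod.natCast_eq_zero_iff, even_iff_two_dvd]
  let o : Orient Γ' :=
    { P := fun x _ => Even (Γ.dist r x.1)
      tot := fun x y hxy => by
        have h1 : Γ.Adj x.1 y.1 := hxy
        rcases adj_cases hΓ h1 r with h | h
        · rcases Nat.even_or_odd (Γ.dist r y.1) with h2 | h2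
          · exact Or.inr h2
          · left
            rw [h]
            exact h2.add_one
        · rcases Nat.even_or_odd (Γ.dist r x.1) with h2 | h2
          · exact Or.inl h2
          · right
            rw [h]
            exact h2.add_one
      asym := fun x y hxy hx hy => by
        have h1 : Γ.Adj x.1 y.1 := hxy
        have hx' : Even (Γ.dist r x.1) := hx
        have hy' : Even (Γ.dist r y.1) := hy
        rcases adj_cases hΓ h1 r with h | h
        · rw [h, Nat.even_add_one] at hx'
          exact hx' hy'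
        · rw [h, Nat.even_add_one] at hy'
          exact hy' hx' }
  let T : TAct N' W :=
    { Γ := Γ'
      tree := hΓ'
      adj := fun n x y hxy => hadj n.1 x.1 y.1 hxy
      or := o
      orP := fun n x y hx => by
        change Even (Γ.dist r (n.1 • x.1))
        have hx' : Even (Γ.dist r x.1) := hx
        rw [hpar, hφ n.1 n.2, ← hpar]
        exact hx'
      lf := fun x => Set.Finite.preimage Subtype.val_injective.injOn (hlf x.1)
      fin := hfin }
  refine ⟨N', W, act, T, hfi, fun x => ⟨x.1, fun n hn => ?_⟩⟩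
  exact congrArg Subtype.val (hn : n • x = x)

end Pool.Agent.UP25
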