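import Mathlib
import Pool.Agent.Lib.UP25.Tree1
import Pool.Agent.Lib.UPV.V3
import Pool.Agent.Lib.UPV.F2b

/-!
# The poset of a group acting on a tree

`N ≤ H` of finite index acts on a tree with vertices `V`: the functions `f` from `H` to the faces
(vertices and edges) of the tree with `f (n h) = n • f h`; a face is the set of its vertices.
-/

set_option autoImplicit false

open Pointwise Pool.Agent.UPV Pool.Agent.Lib.MP_98022b_UN

namespace Pool.Agent.UP25.FT

open Pool.Agent.UPV.Fr

universe v w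

/-! ### the tree -/

section tree
variable {V : Type v} (Γ : SimpleGraph V)

/-- the faces of a graph: vertices and edges -/
def IsFace (s : Set V) : Prop := (∃ x, s = {x}) ∨ ∃ x y, Γ.Adj x y ∧ s = {x, y}

variable {Γ}

theorem IsFace.nonempty {s : Set V} (h : IsFace Γ s) : s.Nonempty := by
  rcases h with ⟨a, rfl⟩ | ⟨a, b, _, rfl⟩
  · exact Set.singleton_nonempty a
  · exact ⟨a, Or.inl rfl⟩

theorem IsFace.finite {s : Set V} (h : IsFace Γ s) : s.Finite := by
  rcases h with ⟨a, rfl⟩ | ⟨a, b, _, rfl⟩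
  · exact Set.finite_singleton a
  · exact Set.toFinite _

theorem IsFace.ncard_le {s : Set V} (h : IsFace Γ s) : s.ncard ≤ 2 := by
  rcases h with ⟨a, rfl⟩ | ⟨a, b, _, rfl⟩
  · rw [Set.ncard_singleton]
    omega
  · exact Set.ncard_insert_le _ _ |>.trans (by rw [Set.ncard_singleton])

theorem IsFace.smul {G : Type v} [Group G] [MulAction G V]
    (hadj : ∀ (g : G) (x y : V), Γ.Adj x y → Γ.Adj (g • x) (g • y)) {s : Set V}
    (h : IsFace Γ s) (g : G) : IsFace Γ (g • s) := by
  rcases h with ⟨a, rfl⟩ | ⟨a, b, hab, rfl⟩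
  · exact Or.inl ⟨g • a, by rw [Set.smul_set_singleton]⟩
  · refine Or.inr ⟨g • a, g • b, hadj g a b hab, ?_⟩
    rw [Set.smul_set_insert, Set.smul_set_singleton]

/-- the elements which fix a face -/
theorem IsFace.fix {G : Type v} [Group G] [MulAction G V] {s : Set V} (h : IsFace Γ s) :
    ∃ x y : V, (x = y ∨ Γ.Adj x y) ∧ ∀ g : G, g • s = s →
      (g • x = x ∧ g • y = y) ∨ (g • x = y ∧ g • y = x) := by
  rcases h with ⟨a, rfl⟩ | ⟨a, b, hab, rfl⟩
  · refine ⟨a, a, Or.inl rfl, fun g hg => Or.inl ?_⟩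
    rw [Set.smul_set_singleton, Set.singleton_eq_singleton_iff] at hg
    exact ⟨hg, hg⟩
  · refine ⟨a, b, Or.inr hab, fun g hg => ?_⟩
    rw [Set.smul_set_insert, Set.smul_set_singleton] at hg
    have h1 : g • a ∈ ({a, b} : Set V) := by
      rw [← hg]
      exact Or.inl rfl
    have h2 : g • b ∈ ({a, b} : Set V) := by
      rw [← hg]
      exact Or.inr rfl
    have hne : g • a ≠ g • b := fun h3 => hab.ne (smul_left_cancel g h3)
    rw [Set.mem_insert_iff, Set.mem_singleton_iff] at h1 h2
    rcases h1 with h1 | h1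
    · rcases h2 with h2 | h2
      · exact absurd (h1.trans h2.symm) hne
      · exact Or.inl ⟨h1, h2⟩
    · rcases h2 with h2 | h2
      · exact Or.inr ⟨h1, h2⟩
      · exact absurd (h1.trans h2.symm) hne

theorem face_mem (hΓ : Γ.IsTree) {r : V} {B : Set V} {w p : V}
    (hmax : ∀ z ∈ B, Γ.dist r z ≤ Γ.dist r w) (hp : Γ.Adj w p)
    (hpd : Γ.dist r w = Γ.dist r p + 1) {t : Set V} (ht : IsFace Γ t) (htB : t ⊆ B) (hw : w ∈ t) :
    t = {w} ∨ t = {w, p} := by
  have key : ∀ z ∈ B, Γ.Adj w z → z = p := by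
    intro z hz hwz
    have h1 := hmax z hz
    rcases adj_cases hΓ hwz r with h2 | h2
    · refine Tree_unique hΓ hwz hp (x := r) ?_ ?_
      · rw [SimpleGraph.dist_comm, SimpleGraph.dist_comm (u := w)]; omega
      · rw [SimpleGraph.dist_comm, SimpleGraph.dist_comm (u := w)]; omega
    · omega
  rcases ht with ⟨a, rfl⟩ | ⟨a, b, hab, rfl⟩
  · rw [Set.mem_singleton_iff] at hw
    exact Or.inl (by rw [hw])
  · right
    rw [Set.mem_insert_iff, Set.mem_singleton_iff] at hw
    rcases hw with hw | hw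
    · subst hw
      rw [key b (htB (Or.inr rfl)) hab]
    · subst hw
      rw [key a (htB (Or.inl rfl)) hab.symm, Set.pair_comm]

/-- finite subtrees containing `r` -/
def Cld (Γ : SimpleGraph V) (r : V) (B : Set V) : Prop :=
  r ∈ B ∧ ∀ w ∈ B, ∀ p : V, Γ.Adj w p → Γ.dist r w = Γ.dist r p + 1 → p ∈ B

theorem exists_cld_one (hΓ : Γ.IsTree) (r : V) (n : ℕ) : ∀ w : V, Γ.dist r w = n →
    ∃ B : Set V, B.Finite ∧ Cld Γ r B ∧ w ∈ B := by
  induction n with
  | zero =>
    intro w hw
    have h1 : r = w := hΓ.connected.dist_eq_zero_iff.1 hw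
    refine ⟨{r}, Set.finite_singleton r, ⟨rfl, ?_⟩, h1.symm⟩
    intro z hz p _ hp
    rw [Set.mem_singleton_iff] at hz
    rw [hz, SimpleGraph.dist_self] at hp
    omega
  | succ n ih =>
    intro w hw
    have h1 : w ≠ r := by
      rintro rfl
      rw [SimpleGraph.dist_self] at hw
      omega
    obtain ⟨p, hwp, hp⟩ := exists_parent hΓ h1
    obtain ⟨B, hB, hC, hpB⟩ := ih p (by omega)
    refine ⟨insert w B, hB.insert w, ⟨Or.inr hC.1, ?_⟩, Or.inl rfl⟩
    intro z hz p' hzp' hp'
    rcases hz with hz | hz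
    · subst hz
      have h2 : p' = p := by
        refine Tree_unique hΓ hzp' hwp (x := r) ?_ ?_
        · rw [SimpleGraph.dist_comm, SimpleGraph.dist_comm (u := z)]; omega
        · rw [SimpleGraph.dist_comm, SimpleGraph.dist_comm (u := z)]; omega
      rw [h2]
      exact Or.inr hpB
    · exact Or.inr (hC.2 z hz p' hzp' hp')

theorem exists_cld (hΓ : Γ.IsTree) (r : V) (S : Set V) (hS : S.Finite) :
    ∃ B : Set V, B.Finite ∧ Cld Γ r B ∧ S ⊆ B := by
  induction S, hS using Set.Finite.induction_on with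
  | empty =>
    obtain ⟨B, hB, hC, -⟩ := exists_cld_one hΓ r 0 r SimpleGraph.dist_self
    exact ⟨B, hB, hC, Set.empty_subset B⟩
  | @insert a S _ _ ih =>
    obtain ⟨B, hB, hC, hSB⟩ := ih
    obtain ⟨B', hB', hC', ha⟩ := exists_cld_one hΓ r _ a rfl
    refine ⟨B ∪ B', hB.union hB', ⟨Or.inl hC.1, ?_⟩, ?_⟩
    · rintro w (hw | hw) p hwp hp
      · exact Or.inl (hC.2 w hw p hwp hp)
      · exact Or.inr (hC'.2 w hw p hwp hp)
    · intro x hx
      rcases hx with rfl | hx
      · exact Or.inr ha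
      · exact Or.inl (hSB hx)

end tree

/-! ### the poset -/

section
variable {H : Type v} [Group H] {N : Subgroup H} {V : Type v} [MulAction N V] (Γ : SimpleGraph V)

/-- the functions from `H` to the faces of the tree with `f (n h) = n • f h` -/
abbrev FP : Type v := {f : H → Set V // (∀ h, IsFace Γ (f h)) ∧
  ∀ (n : N) (h : H), f (n * h) = n • f h}

theorem FP.le_iff {f g : FP (N := N) Γ} : f ≤ g ↔ ∀ h, f.1 h ⊆ g.1 h := Iff.rfl

/-- the action -/
instance : MulAction H (FP (N := N) Γ) where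
  smul g f := ⟨fun h => f.1 (h * g), fun h => f.2.1 _, fun n h => by
    change f.1 (n * h * g) = n • f.1 (h * g)
    rw [mul_assoc, f.2.2]⟩
  one_smul f := Subtype.ext (funext fun h => by
    change f.1 (h * 1) = f.1 h
    rw [mul_one])
  mul_smul g g' f := Subtype.ext (funext fun h => by
    change f.1 (h * (g * g')) = f.1 (h * g * g')
    rw [mul_assoc])

theorem FP.smul_apply (g : H) (f : FP (N := N) Γ) (h : H) : (g • f).1 h = f.1 (h * g) := rfl

instance : OrdAct H (FP (N := N) Γ) where
  le_iff g f f' := by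
    constructor
    · intro h x
      have := h (x * g⁻¹)
      rwa [FP.smul_apply, FP.smul_apply, inv_mul_cancel_right] at this
    · intro h x
      exact h _

theorem FP.fix {g : H} (hg : g ∈ N) {f : FP (N := N) Γ} (h : g • f = f) :
    (⟨g, hg⟩ : N) • f.1 1 = f.1 1 := by
  have h1 := congrFun (congrArg Subtype.val h) 1
  rw [FP.smul_apply, one_mul] at h1
  have h2 := f.2.2 ⟨g, hg⟩ 1
  rw [mul_one] at h2
  change f.1 g = _ at h2
  rw [h1] at h2
  exact h2.symm

theorem FP.val_eq (f : FP (N := N) Γ) (h : H) : f.1 h =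
    (⟨h * Quotient.out ((h⁻¹ : H) : H ⧸ N), rp_spec h⟩ : N) • f.1 (rp ((h⁻¹ : H) : H ⧸ N)) := by
  have h1 := f.2.2 ⟨h * Quotient.out ((h⁻¹ : H) : H ⧸ N), rp_spec h⟩ (rp ((h⁻¹ : H) : H ⧸ N))
  rw [← h1]
  have h2 : h = h * Quotient.out ((h⁻¹ : H) : H ⧸ N) * (Quotient.out ((h⁻¹ : H) : H ⧸ N))⁻¹ :=
    (mul_inv_cancel_right _ _).symm
  exact congrArg f.1 h2

theorem FP.le_of_vals {f g : FP (N := N) Γ} (h : ∀ q : H ⧸ N, f.1 (rp q) ⊆ g.1 (rp q)) : f ≤ g :=
  fun x => by
    rw [FP.val_eq, FP.val_eq Γ g]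
    exact Set.smul_set_subset_smul_set_iff.2 (h _)

theorem FP.ext_vals {f g : FP (N := N) Γ} (h : ∀ q : H ⧸ N, f.1 (rp q) = g.1 (rp q)) : f = g :=
  le_antisymm (FP.le_of_vals Γ fun q => (h q).le) (FP.le_of_vals Γ fun q => (h q).ge)

theorem FP.card_le [N.FiniteIndex] {σ : Finset (FP (N := N) Γ)} (hσ : IsCh σ) :
    σ.card ≤ N.index + 1 := by
  classical
  have : Finite (H ⧸ N) := inferInstance
  have : Fintype (H ⧸ N) := Fintype.ofFinite _
  set S : FP (N := N) Γ → ℕ := fun f => ∑ q : H ⧸ N, (f.1 (rp q)).ncard with hS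
  have hmono : ∀ f g : FP (N := N) Γ, f ≤ g → S f ≤ S g := fun f g h =>
    Finset.sum_le_sum fun q _ => Set.ncard_le_ncard (h _) (g.2.1 _).finite
  have hstrict : ∀ f g : FP (N := N) Γ, f ≤ g → S f = S g → f = g := by
    intro f g h hfg
    refine FP.ext_vals Γ fun q => ?_
    by_contra hq
    have h1 : S f < S g := Finset.sum_lt_sum
      (fun q _ => Set.ncard_le_ncard (h _) (g.2.1 _).finite)
      ⟨q, Finset.mem_univ q, Set.ncard_lt_ncard (lt_of_le_of_ne (h _) hq) (g.2.1 _).finite⟩
    omega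
  have hinj : Set.InjOn S σ := by
    intro f hf g hg hfg
    rcases hσ f hf g hg with h | h
    · exact hstrict f g h hfg
    · exact (hstrict g f h hfg.symm).symm
  have hcard : Fintype.card (H ⧸ N) = N.index := by
    rw [Subgroup.index, Nat.card_eq_fintype_card]
  have hsub : σ.image S ⊆ Finset.Icc N.index (N.index + N.index) := by
    intro s hs
    obtain ⟨y, hy, rfl⟩ := Finset.mem_image.1 hs
    rw [Finset.mem_Icc]
    constructor
    · have h1 : ∑ _q : H ⧸ N, 1 ≤ S y := Finset.sum_le_sum fun q _ => by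
        have h2 := (Set.ncard_pos (y.2.1 (rp q)).finite).2 (y.2.1 (rp q)).nonempty
        omega
      rw [Finset.sum_const, Finset.card_univ, hcard, smul_eq_mul, mul_one] at h1
      exact h1
    · have h1 : S y ≤ ∑ _q : H ⧸ N, 2 := Finset.sum_le_sum fun q _ => (y.2.1 (rp q)).ncard_le
      rw [Finset.sum_const, Finset.card_univ, hcard, smul_eq_mul] at h1
      omega
  have h1 := Finset.card_le_card hsub
  rw [Finset.card_image_of_injOn hinj, Nat.card_Icc] at h1
  omega

variable {Γ} (hadj : ∀ (n : N) (x y : V), Γ.Adj x y → Γ.Adj (n • x) (n • y))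

/-- the function with given values at the representatives -/
noncomputable def FP.mk (g : H ⧸ N → Set V) (hg : ∀ q, IsFace Γ (g q)) : FP (N := N) Γ := by
  refine ⟨fun h => (⟨h * Quotient.out ((h⁻¹ : H) : H ⧸ N), rp_spec h⟩ : N) •
    g ((h⁻¹ : H) : H ⧸ N), fun h => (hg _).smul hadj _, ?_⟩
  intro n h
  have h1 : (((n * h : H)⁻¹ : H) : H ⧸ N) = ((h⁻¹ : H) : H ⧸ N) := by
    rw [QuotientGroup.eq, inv_inv, mul_inv_cancel_right]
    exact n.2
  have h2 : (⟨n * h * Quotient.out ((((n * h : H)⁻¹ : H) : H ⧸ N)), rp_spec (n * h)⟩ : N) =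
      n * ⟨h * Quotient.out ((h⁻¹ : H) : H ⧸ N), rp_spec h⟩ := by
    refine Subtype.ext ?_
    change (n : H) * h * Quotient.out (((n * h : H)⁻¹ : H) : H ⧸ N) =
      n * (h * Quotient.out ((h⁻¹ : H) : H ⧸ N))
    rw [h1, mul_assoc]
  change (⟨n * h * Quotient.out ((((n * h : H)⁻¹ : H) : H ⧸ N)), rp_spec (n * h)⟩ : N) •
    g (((n * h : H)⁻¹ : H) : H ⧸ N) = _
  rw [h2, mul_smul, h1]

theorem FP.mk_rp (g : H ⧸ N → Set V) (hg : ∀ q, IsFace Γ (g q)) (q : H ⧸ N) :
    (FP.mk hadj g hg).1 (rp q) = g q := by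
  have h1 : (((rp q)⁻¹ : H) : H ⧸ N) = q := by
    rw [rp, inv_inv]
    exact QuotientGroup.out_eq' q
  have h2 : (⟨rp q * Quotient.out (((rp q)⁻¹ : H) : H ⧸ N), rp_spec (rp q)⟩ : N) = 1 := by
    refine Subtype.ext ?_
    change rp q * Quotient.out (((rp q)⁻¹ : H) : H ⧸ N) = 1
    rw [h1, rp, inv_mul_cancel]
  change (⟨rp q * Quotient.out (((rp q)⁻¹ : H) : H ⧸ N), rp_spec (rp q)⟩ : N) •
    g (((rp q)⁻¹ : H) : H ⧸ N) = g q
  rw [h2, one_smul, h1]

variable [N.FiniteIndex]

variable (Γ) in
theorem FP.finite_vb (B : Set V) (hB : B.Finite) :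
    {f : FP (N := N) Γ | ∀ q : H ⧸ N, f.1 (rp q) ⊆ B}.Finite := by
  classical
  have : Finite (H ⧸ N) := inferInstance
  refine Set.Finite.of_finite_image (f := fun (f : FP (N := N) Γ) (q : H ⧸ N) => f.1 (rp q)) ?_ ?_
  · refine (Set.Finite.pi (t := fun _ : H ⧸ N => {s : Set V | s ⊆ B})
      fun _ => hB.finite_subsets).subset ?_
    rintro _ ⟨f, hf, rfl⟩ q _
    exact hf q
  · intro f _ g _ h
    exact FP.ext_vals Γ fun q => congrFun h q

variable (Γ) in
/-- the functions with values in the subtree `B` at the representatives -/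
noncomputable def VB (B : Set V) (hB : B.Finite) : Finset (FP (N := N) Γ) :=
  (FP.finite_vb Γ B hB).toFinset

theorem mem_VB {B : Set V} {hB : B.Finite} {f : FP (N := N) Γ} :
    f ∈ VB Γ B hB ↔ ∀ q : H ⧸ N, f.1 (rp q) ⊆ B := Set.Finite.mem_toFinset _

variable (M : Type w) [AddCommGroup M]

include hadj in
/-- **exactness on the functions with values in a finite subtree** -/
theorem ex_VB (hΓ : Γ.IsTree) (r : V) (n : ℕ) : ∀ (B : Set V) (hB : B.Finite), Cld Γ r B →
    B.ncard = n → Ex M (VB (N := N) Γ B hB) := by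
  classical
  induction n with
  | zero =>
    intro B hB hC hn
    rw [Set.ncard_eq_zero hB] at hn
    rw [hn] at hC
    exact absurd hC.1 (Set.notMem_empty _)
  | succ n ih =>
    intro B hB hC hn
    obtain ⟨w, hwB, hmax'⟩ := hB.exists_maximalFor (fun z => Γ.dist r z) B ⟨r, hC.1⟩
    have hmax : ∀ z ∈ B, Γ.dist r z ≤ Γ.dist r w := fun z hz => by
      by_contra hc
      push Not at hc
      have := hmax' hz hc.le
      change Γ.dist r z ≤ Γ.dist r w at this
      omega
    by_cases hw1 : w = r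
    · -- the base
      have hB1 : B = {r} := by
        refine Set.eq_singleton_iff_unique_mem.2 ⟨hC.1, fun z hz => ?_⟩
        have h1 := hmax z hz
        rw [hw1, SimpleGraph.dist_self] at h1
        exact (hΓ.connected.dist_eq_zero_iff.1 (by omega)).symm
      have hval : ∀ f ∈ VB (N := N) Γ B hB, ∀ q : H ⧸ N, f.1 (rp q) = {r} := by
        intro f hf q
        have h1 := mem_VB.1 hf q
        rw [hB1] at h1
        exact (Set.subset_singleton_iff_eq.1 h1).resolve_left
          (f.2.1 (rp q)).nonempty.ne_empty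
      set b : FP (N := N) Γ := FP.mk hadj (fun _ => {r}) fun _ => Or.inl ⟨r, rfl⟩ with hb
      have hb1 : ∀ q : H ⧸ N, b.1 (rp q) = {r} := fun q => FP.mk_rp hadj _ _ q
      refine ex_cone (b := b) ?_ fun x hx => Or.inl ?_
      · rw [mem_VB]
        intro q
        rw [hb1, hB1]
      · exact FP.le_of_vals Γ fun q => by rw [hb1, hval x hx q]
    · obtain ⟨p, hadp, hs⟩ := exists_parent hΓ hw1
      have hpB : p ∈ B := hC.2 w hwB p hadp hs
      have hpw : p ≠ w := hadp.ne'
      have hedge : IsFace Γ {w, p} := Or.inr ⟨w, p, hadp, rfl⟩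
      have hface : ∀ f ∈ VB (N := N) Γ B hB, ∀ q : H ⧸ N, w ∈ f.1 (rp q) →
          f.1 (rp q) = {w} ∨ f.1 (rp q) = {w, p} := fun f hf q hq =>
        face_mem hΓ hmax hadp hs (f.2.1 _) (mem_VB.1 hf q) hq
      have hwp : ({w, p} : Set V) ≠ {w} := by
        intro h
        have h1 : p ∈ ({w} : Set V) := by
          rw [← h]
          exact Or.inr rfl
        exact hpw h1
      -- the two steps
      have hB' : (B \ {w}).Finite := hB.subset Set.sdiff_subset
      set F₁ : Finset (FP (N := N) Γ) :=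
        (VB Γ B hB).filter (fun f => ∀ q : H ⧸ N, f.1 (rp q) ≠ {w}) with hF₁
      have hF₂ : Ex M (VB (N := N) Γ (B \ {w}) hB') := by
        refine ih _ hB' ⟨⟨hC.1, fun h => hw1 h.symm⟩, ?_⟩ ?_
        · rintro z ⟨hz, hzw⟩ p' hzp' hp'
          refine ⟨hC.2 z hz p' hzp' hp', ?_⟩
          intro h
          have h1 := hmax z hz
          rw [Set.mem_singleton_iff.1 h] at hp'
          omega
        · rw [Set.ncard_sdiff_singleton_of_mem hwB, hn]
          rfl
      have h₁ : Ex M F₁ := by
        let ρ : FP (N := N) Γ → FP (N := N) Γ := fun f => FP.mk hadj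
          (fun q => if w ∈ f.1 (rp q) then {p} else f.1 (rp q)) fun q => by
            split_ifs
            · exact Or.inl ⟨p, rfl⟩
            · exact f.2.1 _
        have hρ : ∀ f q, (ρ f).1 (rp q) = if w ∈ f.1 (rp q) then {p} else f.1 (rp q) :=
          fun f q => FP.mk_rp hadj _ _ q
        refine ex_down (F := VB Γ (B \ {w}) hB') ?_ ρ ?_ ?_ ?_ hF₂
        · intro f hf
          rw [mem_VB] at hf
          rw [hF₁, Finset.mem_filter, mem_VB]
          refine ⟨fun q => (hf q).trans Set.sdiff_subset, fun q h => ?_⟩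
          have h1 : w ∈ B \ {w} := hf q (by rw [h]; rfl)
          exact h1.2 rfl
        · intro f hf _
          rw [hF₁, Finset.mem_filter] at hf
          rw [mem_VB]
          intro q
          rw [hρ]
          split_ifs with h
          · rintro x rfl
            exact ⟨hpB, hpw⟩
          · exact fun x hx => ⟨mem_VB.1 hf.1 q hx, fun h' => h (h' ▸ hx)⟩
        · intro f hf _
          rw [hF₁, Finset.mem_filter] at hf
          refine FP.le_of_vals Γ fun q => ?_
          rw [hρ]
          split_ifs with h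
          · rcases hface f hf.1 q h with h1 | h1
            · exact absurd h1 (hf.2 q)
            · rw [h1]
              exact fun x hx => Or.inr hx
          · exact subset_rfl
        · intro f hf _ y hy hyf
          rw [hF₁, Finset.mem_filter] at hf
          refine FP.le_of_vals Γ fun q => ?_
          rw [hρ]
          split_ifs with h
          · intro x hx
            have h2 : x ∈ B \ {w} := mem_VB.1 hy q hx
            have h3 : x ∈ f.1 (rp q) := hyf _ hx
            rcases hface f hf.1 q h with h1 | h1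
            · exact absurd h1 (hf.2 q)
            · rw [h1] at h3
              exact h3.resolve_left h2.2
          · exact hyf _
      -- the leaves
      let ρ : FP (N := N) Γ → FP (N := N) Γ := fun f => FP.mk hadj
        (fun q => if f.1 (rp q) = {w} then {w, p} else f.1 (rp q)) fun q => by
          split_ifs
          · exact hedge
          · exact f.2.1 _
      have hρ : ∀ f q, (ρ f).1 (rp q) = if f.1 (rp q) = {w} then {w, p} else f.1 (rp q) :=
        fun f q => FP.mk_rp hadj _ _ q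
      refine ex_up (F := F₁) (Finset.filter_subset _ _) ρ ?_ ?_ ?_ h₁
      · intro f hf _
        rw [hF₁, Finset.mem_filter, mem_VB]
        refine ⟨fun q => ?_, fun q => ?_⟩
        · rw [hρ]
          split_ifs
          · rintro x (rfl | hx)
            · exact hwB
            · rw [Set.mem_singleton_iff] at hx
              rw [hx]
              exact hpB
          · exact mem_VB.1 hf q
        · rw [hρ]
          split_ifs with h
          · exact hwp
          · exact h
      · intro f _ _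
        refine FP.le_of_vals Γ fun q => ?_
        rw [hρ]
        split_ifs with h
        · rw [h]
          exact fun x hx => Or.inl hx
        · exact subset_rfl
      · intro f hf _ y hy hfy
        rw [hF₁, Finset.mem_filter] at hy
        refine FP.le_of_vals Γ fun q => ?_
        rw [hρ]
        split_ifs with h
        · have h1 : w ∈ y.1 (rp q) := hfy _ (by rw [h]; rfl)
          rcases hface y hy.1 q h1 with h2 | h2
          · exact absurd h2 (hy.2 q)
          · rw [h2]
        · exact hfy _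

include hadj in
/-- **exactness** -/
theorem FP.exists_ex (hΓ : Γ.IsTree) (S : Finset (FP (N := N) Γ)) :
    ∃ W : Finset (FP (N := N) Γ), S ⊆ W ∧ Ex M W := by
  classical
  obtain ⟨r⟩ := hΓ.connected.nonempty
  have : Finite (H ⧸ N) := inferInstance
  obtain ⟨B, hB, hC, hSB⟩ := exists_cld hΓ r (⋃ f ∈ S, ⋃ q : H ⧸ N, f.1 (rp q)) (by
    refine Set.Finite.biUnion S.finite_toSet fun f _ => ?_
    exact Set.finite_iUnion fun q => (f.2.1 _).finite)
  refine ⟨VB Γ B hB, fun f hf => mem_VB.2 fun q x hx => hSB ?_, ex_VB hadj M hΓ r _ B hB hC rfl⟩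
  exact Set.mem_biUnion hf (Set.mem_iUnion.2 ⟨q, hx⟩)

end

end Pool.Agent.UP25.FT
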