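import Mathlib
import Pool.Agent.Lib.UP25.S2a
import Pool.Agent.Lib.UPV.V4
import Pool.Agent.Lib.UPV.V5

/-!
# Serre's theorem for groups with a subgroup of finite index which acts on a tree
-/

set_option autoImplicit false

open MonoidAlgebra Pool.Agent.UPV

namespace Pool.Agent.UP25

universe u v

namespace FT

open Pool.Agent.UPV.Fr

section
variable {H : Type v} {P : Type v} [Group H] [PartialOrder P] [MulAction H P] [OrdAct H P]

/-- the stabiliser of a chain fixes a vertex -/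
theorem ch_fix {k : ℕ} (σ : Ch P (k + 1)) : ∃ x : P, ∀ g : H, g • σ = σ → g • x = x := by
  have hne : σ.1.Nonempty := by
    rw [← Finset.card_pos, σ.2.2]
    omega
  obtain ⟨x, hx⟩ := σ.1.exists_minimal hne
  refine ⟨x, fun g h => ?_⟩
  have h1 : act H g σ.1 = σ.1 := congrArg Subtype.val h
  have h2 : g • x ∈ σ.1 := by
    have := (smul_mem_act (g := g)).2 hx.1
    rwa [h1] at this
  have h3 : g⁻¹ • x ∈ σ.1 := by
    have h4 : g • (g⁻¹ • x) ∈ act H g σ.1 := by rw [smul_inv_smul, h1]; exact hx.1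
    exact smul_mem_act.1 h4
  have h4 : x ≤ g • x := (σ.2.1 x hx.1 _ h2).elim id (hx.2 h2)
  have h5 : x ≤ g⁻¹ • x := (σ.2.1 x hx.1 _ h3).elim id (hx.2 h3)
  have h6 : g • x ≤ x := by
    have h7 := (OrdAct.le_iff g _ _).2 h5
    rwa [smul_inv_smul] at h7
  exact le_antisymm h6 h4

variable (H P)
variable (A : Type u) [CommRing A] (M : Type (max u v)) [AddCommGroup M]
  [Module (MonoidAlgebra A H) M]

/-- **the resolution** -/
theorem exists_pres (m : ℕ) (hlen : ∀ σ : Finset P, IsCh σ → σ.card ≤ m + 1) [Nonempty P]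
    (hex : ∀ S : Finset P, ∃ V : Finset P, S ⊆ V ∧ Ex M V) :
    ∃ (X : ℕ → Type v) (_ : ∀ k, MulAction H (X k))
      (D : ∀ k, Tw A H (X (k + 1)) M →ₗ[MonoidAlgebra A H] Tw A H (X k) M)
      (ε : Tw A H (X 0) M →ₗ[MonoidAlgebra A H] M),
      Function.Surjective ε ∧ (∀ y, ε (D 0 y) = 0) ∧ (∀ z, ε z = 0 → ∃ y, D 0 y = z) ∧
      (∀ k y, D k (D (k + 1) y) = 0) ∧ (∀ k z, D k z = 0 → ∃ y, D (k + 1) y = z) ∧
      (∀ k, m < k → IsEmpty (X k)) ∧
      (∀ k (x : X k), ∃ p : P, ∀ g : H, g • x = x → g • p = p) := by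
  refine ⟨fun k => Ch P (k + 1), fun k => inferInstance, fun k => bdD H P A M (k + 1),
    aug H P A M, ?_, ?_, ?_, ?_, ?_, ?_, ?_⟩
  · intro m
    obtain ⟨p⟩ : Nonempty P := inferInstance
    exact ⟨Tw.mk A H ⟨{p}, IsCh.singleton p, Finset.card_singleton p⟩ m, aug_mk H P A M _ m⟩
  · intro y
    have h1 := bd_emb_one H P A M (bdD H P A M 1 y)
    rw [emb_bd, bd_bd (V := Set.univ) fun σ hσ =>
      ⟨(emb_supp H P A M _ y σ hσ).1, Set.subset_univ _⟩] at h1
    exact Finsupp.single_eq_zero.1 h1.symm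
  · intro z hz
    refine bd_exact H P A M hex 1 z ?_
    rw [bd_emb_one, hz, Finsupp.single_zero]
  · intro k y
    exact bdD_bdD H P A M (k + 1) y
  · intro k z hz
    refine bd_exact H P A M hex (k + 1 + 1) z ?_
    have h1 := emb_bd H P A M (k + 1) z
    rw [← h1]
    exact (congrArg _ hz).trans (map_zero _)
  · intro k hk
    refine ⟨fun σ => ?_⟩
    have h1 := hlen σ.1 σ.2.1
    rw [σ.2.2] at h1
    omega
  · intro k x
    exact ch_fix x

end

end FT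

/-- the subgroups whose elements in `N` fix or exchange the ends of a vertex or an edge -/
def FSet {H : Type v} [Group H] (N : Subgroup H) {V : Type v} [MulAction N V]
    (Γ : SimpleGraph V) : Set (Subgroup H) :=
  {S | ∃ x y : V, (x = y ∨ Γ.Adj x y) ∧ ∀ g ∈ S, ∀ hg : g ∈ N,
    ((⟨g, hg⟩ : N) • x = x ∧ (⟨g, hg⟩ : N) • y = y) ∨
      ((⟨g, hg⟩ : N) • x = y ∧ (⟨g, hg⟩ : N) • y = x)}

theorem pd_tree {A : Type u} {H : Type v} [CommRing A] [Group H] (N : Subgroup H)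
    (hN : N.FiniteIndex) {V : Type v} [MulAction N V] (Γ : SimpleGraph V) (hΓ : Γ.IsTree)
    (hadj : ∀ (g : N) (x y : V), Γ.Adj x y → Γ.Adj (g • x) (g • y))
    (M : Type (max u v)) [AddCommGroup M] [Module (MonoidAlgebra A H) M]
    (h : ∀ S ∈ FSet N Γ, ProjOn A H S M) : Pd (MonoidAlgebra A H) M (N.index + 1) := by
  classical
  obtain ⟨r⟩ := hΓ.connected.nonempty
  have hne : Nonempty (FT.FP (N := N) Γ) := ⟨FT.FP.mk hadj (fun _ => {r}) fun _ => Or.inl ⟨r, rfl⟩⟩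
  obtain ⟨X, _, D, ε, h1, h2, h3, h4, h5, h6, h7⟩ := FT.exists_pres H (FT.FP (N := N) Γ) A M
    N.index (fun σ hσ => FT.FP.card_le Γ hσ) (FT.FP.exists_ex hadj M hΓ)
  refine pd_of_res N.index (fun k => Tw A H (X k) M) (fun k => ?_) D M ε h1 h2 h3 h4 h5
    (fun k hk => ?_)
  · refine tw_projective (X k) M fun x => h _ ?_
    obtain ⟨p, hp⟩ := h7 k x
    obtain ⟨a, b, hab, hfix⟩ := (p.2.1 1).fix (G := N)
    exact ⟨a, b, hab, fun g hg hgN => hfix ⟨g, hgN⟩ (FT.FP.fix Γ hgN (hp g hg))⟩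
  · have := h6 k hk
    exact tw_subsingleton A H (X k) M

/-- **Serre's theorem for trees** -/
theorem gd_tree {A : Type u} {H : Type v} [CommRing A] [Group H] (N : Subgroup H)
    (hN : N.FiniteIndex) {V : Type v} [MulAction N V] (Γ : SimpleGraph V) (hΓ : Γ.IsTree)
    (hadj : ∀ (g : N) (x y : V), Γ.Adj x y → Γ.Adj (g • x) (g • y)) (n : ℕ)
    (h : ∀ (S : Subgroup H) (x y : V), (x = y ∨ Γ.Adj x y) →
      (∀ g ∈ S, ∀ hg : g ∈ N, ((⟨g, hg⟩ : N) • x = x ∧ (⟨g, hg⟩ : N) • y = y) ∨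
        ((⟨g, hg⟩ : N) • x = y ∧ (⟨g, hg⟩ : N) • y = x)) → GD A[S] n) :
    GD A[H] (n + N.index) :=
  gd_step_gen (FSet N Γ) N.index (fun M _ _ hM => pd_tree N hN Γ hΓ hadj M hM) n
    (by
      rintro S ⟨x, y, hxy, hS⟩
      exact h S x y hxy hS)

end Pool.Agent.UP25
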