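import Mathlib
import Pool.Agent.Lib.UP25.S2b
import Pool.Agent.Lib.UP25.TDefs
import Pool.Agent.Lib.UPV.V10
import Pool.Agent.Lib.UP.U13c

/-!
# Finite global dimension for groups with a subgroup of finite index which acts on a tree with
virtually poly-`ℤ` stabilisers
-/

set_option autoImplicit false

open MonoidAlgebra Pool.Agent.UP Pool.Agent.UPV

namespace Pool.Agent.UP25

universe u v

/-- an orbit with at most two elements -/
theorem relIndex_stab {N : Type v} [Group N] {V : Type v} [MulAction N V] (S : Subgroup N)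
    (x y : V) (hS : ∀ g ∈ S, g • x = x ∨ g • x = y) :
    (MulAction.stabilizer N x).relIndex S ≠ 0 := by
  have h1 : (MulAction.stabilizer N x).subgroupOf S = MulAction.stabilizer S x := by
    ext g
    rw [Subgroup.mem_subgroupOf, MulAction.mem_stabilizer_iff, MulAction.mem_stabilizer_iff]
    rfl
  rw [Subgroup.relIndex, h1, MulAction.index_stabilizer]
  have h2 : MulAction.orbit S x ⊆ {x, y} := by
    rintro _ ⟨g, rfl⟩
    rcases hS g.1 g.2 with h | h
    · exact Or.inl h
    · exact Or.inr h
  have h3 : (MulAction.orbit S x).Finite := (Set.toFinite {x, y}).subset h2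
  exact ((Set.ncard_pos h3).2 (MulAction.nonempty_orbit x)).ne'

/-- the subgroups of `H` whose elements in `N` fix or exchange two points -/
theorem vpz_of_face {H : Type v} [Group H] (N : Subgroup H) (hN : N.FiniteIndex) {V : Type v}
    [MulAction N V] (S : Subgroup H) (x y : V)
    (hS : ∀ g ∈ S, ∀ hg : g ∈ N, ((⟨g, hg⟩ : N) • x = x ∧ (⟨g, hg⟩ : N) • y = y) ∨
      ((⟨g, hg⟩ : N) • x = y ∧ (⟨g, hg⟩ : N) • y = x)) {d : ℕ}
    (hst : VPZ d (MulAction.stabilizer N x)) : VPZ d S := by
  obtain ⟨N1, hfi, hP⟩ := hst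
  let j : MulAction.stabilizer N x →* H := N.subtype.comp (MulAction.stabilizer N x).subtype
  have hj : Function.Injective j := by
    intro a b hab
    exact Subtype.ext (Subtype.ext hab)
  let L : Subgroup H := N1.map j
  refine ⟨L.subgroupOf S, ?_, ?_⟩
  · refine ⟨?_⟩
    change L.relIndex S ≠ 0
    -- `L` in the image of the stabiliser
    have h1 : L.relIndex ((⊤ : Subgroup (MulAction.stabilizer N x)).map j) ≠ 0 := by
      rw [Subgroup.relIndex_map_map_of_injective _ _ hj, Subgroup.relIndex_top_right]
      exact hfi.index_ne_zero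
    have h2 : (⊤ : Subgroup (MulAction.stabilizer N x)).map j =
        (MulAction.stabilizer N x).map N.subtype := by
      rw [← Subgroup.map_map]
      congr 1
      rw [← MonoidHom.range_eq_map, Subgroup.range_subtype]
    rw [h2] at h1
    have h3 : ((MulAction.stabilizer N x).map N.subtype).relIndex (N ⊓ S) ≠ 0 := by
      have h4 : N ⊓ S = (S.subgroupOf N).map N.subtype := by
        rw [Subgroup.subgroupOf_map_subtype, inf_comm]
      rw [h4, Subgroup.relIndex_map_map_of_injective _ _ N.subtype_injective]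
      refine relIndex_stab _ x y fun g hg => ?_
      rcases hS g.1 hg g.2 with h | h
      · exact Or.inl h.1
      · exact Or.inr h.1
    have h5 : (N ⊓ S).relIndex S ≠ 0 := by
      rw [Subgroup.inf_relIndex_right]
      exact (inferInstance : (N.subgroupOf S).FiniteIndex).index_ne_zero
    exact Subgroup.relIndex_ne_zero_trans (Subgroup.relIndex_ne_zero_trans h1 h3) h5
  · let e : L ≃* N1 := (N1.equivMapOfInjective j hj).symm
    let i : L.subgroupOf S →* L :=
      { toFun := fun a => ⟨a.1.1, a.2⟩
        map_one' := rfl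
        map_mul' := fun _ _ => rfl }
    refine hP.of_injective (e.toMonoidHom.comp i) ?_
    intro a b hab
    have h1 : i a = i b := e.injective hab
    have h2 : (i a).1 = (i b).1 := by rw [h1]
    exact Subtype.ext (Subtype.ext h2)

/-- torsion-free virtually poly-`ℤ` groups have finite global dimension, with a bound which does
not depend on the index -/
theorem gd_vpz {A : Type u} [CommRing A] [StarRing A] [IsNoetherianRing A] (hA : AR A) {g : ℕ}
    (hg : FL A g) {d : ℕ} {S : Type v} [Group S] (htf : ∀ h : S, IsOfFinOrder h → h = 1)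
    (h : VPZ d S) : GD A[S] (g + d + 1) := by
  obtain ⟨K, hK, hP⟩ := h
  obtain ⟨h1, h2, h3⟩ := polyZ_facts hA hg d K hP
  obtain ⟨h4, -, h5⟩ := virt_facts_of hg htf K hK hP ⟨h1, h2, h3⟩
  exact gd_of_fl h5

theorem fl_tree {A : Type u} [CommRing A] [StarRing A] [IsNoetherianRing A] (hA : AR A) {g : ℕ}
    (hg : FL A g) {d : ℕ} {H : Type v} [Group H] (htf : ∀ h : H, IsOfFinOrder h → h = 1)
    (N : Subgroup H) (hN : N.FiniteIndex) {V : Type v} [MulAction N V] (Γ : SimpleGraph V)
    (hΓ : Γ.IsTree) (hadj : ∀ (g : N) (x y : V), Γ.Adj x y → Γ.Adj (g • x) (g • y))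
    (hst : ∀ x : V, VPZ d (MulAction.stabilizer N x)) : FL A[H] (g + d + 2) := by
  have key : ∀ (K : Type v) [Group K] (_ : ∀ h : K, IsOfFinOrder h → h = 1) (N' : Subgroup K)
      (_ : N'.FiniteIndex) [MulAction N' V]
      (_ : ∀ (g : N') (x y : V), Γ.Adj x y → Γ.Adj (g • x) (g • y))
      (_ : ∀ x : V, VPZ d (MulAction.stabilizer N' x)), GD A[K] (g + d + 1 + N'.index) := by
    intro K _ htfK N' hN' _ hadj' hst'
    refine gd_tree N' hN' Γ hΓ hadj' (g + d + 1) fun S x y _ hS => ?_
    refine gd_vpz hA hg ?_ (vpz_of_face N' hN' S x y hS (hst' x))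
    intro h hh
    exact Subtype.ext (htfK h.1 (S.subtype.isOfFinOrder hh))
  have h1 : GD A[H] (g + d + 1 + N.index) := key H htf N hN hadj hst
  have h2 : GD A[N] (g + d + 1 + (⊤ : Subgroup N).index) := by
    refine key N (fun h hh => Subtype.ext (htf h.1 (N.subtype.isOfFinOrder hh))) ⊤ inferInstance
      (fun g x y hxy => hadj g.1 x y hxy) fun x => ?_
    obtain ⟨K, hK, hP⟩ := hst x
    let e : MulAction.stabilizer (⊤ : Subgroup N) x →* MulAction.stabilizer N x :=
      { toFun := fun a => ⟨a.1.1, a.2⟩
        map_one' := rfl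
        map_mul' := fun _ _ => rfl }
    have he : Function.Injective e := by
      intro a b hab
      have h3 : (e a).1 = (e b).1 := by rw [hab]
      exact Subtype.ext (Subtype.ext h3)
    refine ⟨K.comap e, ⟨?_⟩, ?_⟩
    · rw [Subgroup.index_comap]
      exact (inferInstance : (K.subgroupOf e.range).FiniteIndex).index_ne_zero
    · refine hP.of_injective (e.subgroupComap K) ?_
      intro a b hab
      have h3 : e a.1 = e b.1 := congrArg Subtype.val hab
      exact Subtype.ext (he h3)
  rw [Subgroup.index_top] at h2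
  have h3 : FL A[N] (g + d + 2) := fl_of_gd h2
  exact fl_sharp (fl_of_gd h1) (idLE_up N hN (idLE_of_fl h3))

end Pool.Agent.UP25
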