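import Mathlib
import Pool.Agent.Lib.UPV.V6
import Pool.Agent.Lib.UP.Defs4

/-!
# TANK UP, stage 3: the group ring of `H` over the group ring of a subgroup `L` (any index)

`s = ∑ c * ι (s_c)` over the cosets `c L`; rows over `A[H]` and matrices over `A[L]`.
-/

set_option autoImplicit false

open MonoidAlgebra Pool.Agent.UP Pool.Agent.UPV

namespace Pool.Agent.UP25

universe u v

section
variable {A : Type u} {H : Type v} [CommRing A] [Group H] (L : Subgroup H)

theorem psiN_iota_right (s : A[H]) (r : A[L]) : psiN L (s * iotaN L r) = psiN L s * r := by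
  induction r using MonoidAlgebra.induction_linear with
  | zero => rw [map_zero, mul_zero, map_zero, mul_zero]
  | add x y hx hy => rw [map_add, mul_add, map_add, hx, hy, mul_add]
  | single n a =>
    induction s using MonoidAlgebra.induction_linear with
    | zero => rw [zero_mul, map_zero, zero_mul]
    | add x y hx hy => rw [add_mul, map_add, hx, hy, map_add, add_mul]
    | single h b =>
      rw [iotaN_single, single_mul_single]
      by_cases hN : h ∈ L
      · rw [psiN_single_of_mem L hN, psiN_single_of_mem L (L.mul_mem hN n.2), single_mul_single]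
        rfl
      · rw [psiN_single_of_not_mem L hN, psiN_single_of_not_mem L, zero_mul]
        intro h'
        exact hN ((L.mul_mem_cancel_right n.2).1 h')

theorem psiN_iota (r : A[L]) : psiN L (iotaN L r) = r := by
  have h := psiN_iota_right L (1 : A[H]) r
  rw [one_mul] at h
  rw [h, one_def, psiN_single_of_mem L L.one_mem]
  change (1 : A[L]) * r = r
  rw [one_mul]

/-- the part of `s` on the coset `h L` -/
noncomputable def prL (h : H) (s : A[H]) : A[L] := psiN L (single h⁻¹ 1 * s)

theorem prL_add (h : H) (s t : A[H]) : prL L h (s + t) = prL L h s + prL L h t := by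
  unfold prL; rw [mul_add, map_add]

theorem prL_zero (h : H) : prL L h (0 : A[H]) = 0 := by
  unfold prL; rw [mul_zero, map_zero]

theorem prL_sum (h : H) {ι : Type*} (C : Finset ι) (f : ι → A[H]) :
    prL L h (∑ i ∈ C, f i) = ∑ i ∈ C, prL L h (f i) := by
  unfold prL; rw [Finset.mul_sum, map_sum]

theorem prL_mul_iota (h : H) (s : A[H]) (r : A[L]) :
    prL L h (s * iotaN L r) = prL L h s * r := by
  unfold prL; rw [← mul_assoc, psiN_iota_right]

theorem prL_single_mul (h g : H) (s : A[H]) :
    prL L h (single g 1 * s) = prL L (g⁻¹ * h) s := by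
  unfold prL
  rw [← mul_assoc, single_mul_single, one_mul, mul_inv_rev, inv_inv]

theorem prL_one_iota (r : A[L]) : prL L 1 (iotaN L r) = r := by
  unfold prL
  rw [inv_one, ← one_def, one_mul, psiN_iota]

/-- the sum over the cosets -/
theorem coset_sum (s : A[H]) : ∃ C : Finset (H ⧸ L), ∀ C' : Finset (H ⧸ L), C ⊆ C' →
    s = ∑ c ∈ C', single c.out 1 * iotaN L (prL L c.out s) := by
  classical
  induction s using MonoidAlgebra.induction_linear with
  | zero =>
    refine ⟨∅, fun C' _ => ?_⟩
    rw [Finset.sum_eq_zero]
    intro c _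
    rw [prL_zero, map_zero, mul_zero]
  | add x y hx hy =>
    obtain ⟨C1, h1⟩ := hx
    obtain ⟨C2, h2⟩ := hy
    refine ⟨C1 ∪ C2, fun C' hC => ?_⟩
    have e1 := h1 C' ((Finset.subset_union_left).trans hC)
    have e2 := h2 C' ((Finset.subset_union_right).trans hC)
    calc x + y = (∑ c ∈ C', single c.out 1 * iotaN L (prL L c.out x)) +
          ∑ c ∈ C', single c.out 1 * iotaN L (prL L c.out y) := by rw [← e1, ← e2]
      _ = _ := by
          rw [← Finset.sum_add_distrib]
          refine Finset.sum_congr rfl fun c _ => ?_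
          rw [prL_add, map_add, mul_add]
  | single h b =>
    refine ⟨{(h : H ⧸ L)}, fun C' hC => ?_⟩
    have hmem : (h : H ⧸ L) ∈ C' := hC (Finset.mem_singleton_self _)
    rw [Finset.sum_eq_single_of_mem _ hmem]
    · have h1 : ((h : H ⧸ L).out)⁻¹ * h ∈ L := by
        have h2 := QuotientGroup.out_eq' (h : H ⧸ L)
        exact QuotientGroup.eq.1 h2
      unfold prL
      rw [single_mul_single, one_mul, psiN_single_of_mem L h1, iotaN_single, single_mul_single,
        one_mul, mul_inv_cancel_left]
    · intro c _ hc
      have h1 : (c.out)⁻¹ * h ∉ L := by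
        intro h2
        apply hc
        rw [← QuotientGroup.eq.2 h2, QuotientGroup.out_eq']
      unfold prL
      rw [single_mul_single, psiN_single_of_not_mem L h1, map_zero, mul_zero]

/-- the same for vectors -/
theorem coset_sum_vec {ι : Type} [Finite ι] (y : ι → A[H]) : ∃ C : Finset (H ⧸ L),
    y = ∑ c ∈ C, fun i => single c.out 1 * iotaN L (prL L c.out (y i)) := by
  classical
  have := Fintype.ofFinite ι
  choose C hC using fun i => coset_sum L (y i)
  refine ⟨Finset.univ.biUnion C, ?_⟩
  funext i
  rw [Finset.sum_apply]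
  exact hC i _ (Finset.subset_biUnion_of_mem C (Finset.mem_univ i))

variable {J K : Type} [Fintype J]

theorem prL_vecMul (D : Matrix J K A[L]) (h : H) (w : J → A[H]) (k : K) :
    prL L h (Matrix.vecMul w (D.map (iotaN L)) k) =
      Matrix.vecMul (fun j => prL L h (w j)) D k := by
  simp only [Matrix.vecMul, dotProduct, Matrix.map_apply]
  rw [prL_sum]
  exact Finset.sum_congr rfl fun j _ => prL_mul_iota L h _ _

theorem iota_vecMul (D : Matrix J K A[L]) (w : J → A[L]) :
    Matrix.vecMul (fun j => iotaN L (w j)) (D.map (iotaN L)) =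
      fun k => iotaN L (Matrix.vecMul w D k) := by
  funext k
  simp only [Matrix.vecMul, dotProduct, Matrix.map_apply, map_sum, map_mul]

theorem single_vecMul (g : H) (D : Matrix J K A[H]) (w : J → A[H]) :
    Matrix.vecMul (fun j => single g 1 * w j) D =
      fun k => single g 1 * Matrix.vecMul w D k := by
  funext k
  simp only [Matrix.vecMul, dotProduct, Finset.mul_sum, mul_assoc]

/-- a row is in the row space of `D` if its parts on the cosets are -/
theorem row_lift [Finite K] (D : Matrix J K A[L]) (y : K → A[H])
    (h : ∀ g : H, ∃ w, Matrix.vecMul w D = fun k => prL L g (y k)) :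
    ∃ w, Matrix.vecMul w (D.map (iotaN L)) = y := by
  obtain ⟨C, hC⟩ := coset_sum_vec L y
  choose w hw using h
  refine ⟨∑ c ∈ C, fun j => single c.out 1 * iotaN L (w c.out j), ?_⟩
  have h1 : Matrix.vecMul (∑ c ∈ C, fun j => single c.out (1 : A) * iotaN L (w c.out j))
      (D.map (iotaN L)) = ∑ c ∈ C, Matrix.vecMul (fun j => single c.out (1 : A) *
        iotaN L (w c.out j)) (D.map (iotaN L)) := Matrix.sum_vecMul _ _ _
  rw [h1]
  conv_rhs => rw [hC]
  refine Finset.sum_congr rfl fun c _ => ?_
  rw [single_vecMul, iota_vecMul, hw]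

/-- exactness passes to `A[H]` -/
theorem ex_up {T : RC A[L]} {k : ℕ} (h : T.Ex k) : (T.map (iotaN L)).Ex k := by
  intro x hx
  refine row_lift L (T.D (k + 1)) x fun g => ?_
  refine h _ ?_
  funext b
  have h1 := congrArg (prL L g) (congrFun hx b)
  have h2 := prL_vecMul L (T.D k) g x b
  rw [← h2]
  refine h1.trans ?_
  exact prL_zero L g

end

end Pool.Agent.UP25
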