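import Mathlib
import Pool.Agent.Lib.UP25.Coset
import Pool.Agent.Lib.UP.F8b

/-!
# TANK UP, stage 3: direct sums of complexes induced from subgroups
-/

set_option autoImplicit false
set_option linter.unusedSectionVars false

open MonoidAlgebra Pool.Agent.UP Pool.Agent.UPV

namespace Pool.Agent.UP25

universe u v

section plc

variable {R : Type u} [Ring R] {n : ℕ} {J K : Fin n → Type}

/-- a vector placed in the block `i` -/
def plc (i : Fin n) (w : J i → R) : (Σ j, J j) → R :=
  fun q => if h : q.1 = i then w (h ▸ q.2) else 0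

theorem plc_same (i : Fin n) (w : J i → R) (a : J i) : plc i w ⟨i, a⟩ = w a := by
  unfold plc
  rw [dif_pos rfl]

theorem plc_ne {i j : Fin n} (h : j ≠ i) (w : J i → R) (a : J j) : plc i w ⟨j, a⟩ = 0 := by
  unfold plc
  rw [dif_neg h]

theorem plc_add (i : Fin n) (w w' : J i → R) : plc i (w + w') = plc i w + plc i w' := by
  funext ⟨j, a⟩
  rw [Pi.add_apply]
  by_cases h : j = i
  · subst h; rw [plc_same, plc_same, plc_same, Pi.add_apply]
  · rw [plc_ne h, plc_ne h, plc_ne h, add_zero]

theorem plc_zero (i : Fin n) : plc i (0 : J i → R) = 0 := by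
  funext ⟨j, a⟩
  by_cases h : j = i
  · subst h; rw [plc_same]; rfl
  · rw [plc_ne h]; rfl

theorem plc_smul (i : Fin n) (s : R) (w : J i → R) : plc i (s • w) = s • plc i w := by
  funext ⟨j, a⟩
  rw [Pi.smul_apply]
  by_cases h : j = i
  · subst h; rw [plc_same, plc_same, Pi.smul_apply]
  · rw [plc_ne h, plc_ne h, smul_zero]

theorem sum_plc (y : (Σ j, J j) → R) : y = ∑ i : Fin n, plc i fun a => y ⟨i, a⟩ := by
  funext ⟨j, a⟩
  rw [Finset.sum_apply, Finset.sum_eq_single j]
  · rw [plc_same]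
  · intro i _ hi
    rw [plc_ne (Ne.symm hi)]
  · intro h
    exact absurd (Finset.mem_univ _) h

variable [∀ i, Fintype (J i)]

theorem vecMul_blk (M : ∀ i, Matrix (J i) (K i) R) (y : (Σ j, J j) → R) (i : Fin n) (b : K i) :
    Matrix.vecMul y (Matrix.blockDiagonal' M) ⟨i, b⟩ =
      Matrix.vecMul (fun a => y ⟨i, a⟩) (M i) b := by
  simp only [Matrix.vecMul, dotProduct]
  rw [Fintype.sum_sigma, Finset.sum_eq_single i]
  · exact Finset.sum_congr rfl fun a _ => by rw [Matrix.blockDiagonal'_apply_eq]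
  · intro j _ hj
    refine Finset.sum_eq_zero fun a _ => ?_
    rw [Matrix.blockDiagonal'_apply_ne _ _ _ hj, mul_zero]
  · intro h
    exact absurd (Finset.mem_univ _) h

theorem vecMul_plc (M : ∀ i, Matrix (J i) (K i) R) (i : Fin n) (w : J i → R) :
    Matrix.vecMul (plc i w) (Matrix.blockDiagonal' M) = plc i (Matrix.vecMul w (M i)) := by
  funext ⟨j, b⟩
  rw [vecMul_blk]
  by_cases h : j = i
  · subst h
    rw [plc_same]
    congr 1
    funext a
    rw [plc_same]
  · rw [plc_ne h]
    have h1 : (fun a => plc i w (⟨j, a⟩ : Σ j, J j)) = 0 := by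
      funext a
      rw [plc_ne h]
      rfl
    rw [h1, Matrix.zero_vecMul]
    rfl

end plc

section
variable {A : Type u} {H : Type v} [CommRing A] [Group H] {n : ℕ} (L : Fin n → Subgroup H)

/-- direct sum of complexes over the group rings of subgroups, induced to `A[H]` -/
noncomputable abbrev sumRC (T : ∀ i, RC A[L i]) : RC A[H] where
  ι k := Σ i, (T i).ι k
  D k := Matrix.blockDiagonal' fun i => ((T i).D k).map (iotaN (L i))
  DD k := by
    rw [← Matrix.blockDiagonal'_mul]
    have h : (fun i => ((T i).D (k + 1)).map (iotaN (L i)) * ((T i).D k).map (iotaN (L i))) = 0 := by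
      funext i
      rw [← Matrix.map_mul, (T i).DD]
      exact Matrix.map_zero _ (map_zero _)
    rw [h, Matrix.blockDiagonal'_zero]

theorem sumRC_vecMul (T : ∀ i, RC A[L i]) (k : ℕ) (y : (sumRC L T).ι (k + 1) → A[H]) (i : Fin n)
    (b : (T i).ι k) : Matrix.vecMul y ((sumRC L T).D k) ⟨i, b⟩ =
      Matrix.vecMul (fun a => y ⟨i, a⟩) (((T i).D k).map (iotaN (L i))) b :=
  vecMul_blk (J := fun i => (T i).ι (k + 1)) (K := fun i => (T i).ι k)
    (fun i => ((T i).D k).map (iotaN (L i))) y i b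

theorem sumRC_vecMul_plc (T : ∀ i, RC A[L i]) (k : ℕ) (i : Fin n)
    (w : (T i).ι (k + 1) → A[H]) : Matrix.vecMul (plc i w) ((sumRC L T).D k) =
      plc i (Matrix.vecMul w (((T i).D k).map (iotaN (L i)))) :=
  vecMul_plc (J := fun i => (T i).ι (k + 1)) (K := fun i => (T i).ι k)
    (fun i => ((T i).D k).map (iotaN (L i))) i w

theorem sumRC_ex {T : ∀ i, RC A[L i]} {k : ℕ} (h : ∀ i, (T i).Ex k) : (sumRC L T).Ex k := by
  intro x hx
  have h1 : ∀ i, ∃ y, Matrix.vecMul y (((T i).D (k + 1)).map (iotaN (L i))) =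
      fun a => x ⟨i, a⟩ := by
    intro i
    refine ex_up (L i) (h i) _ ?_
    funext b
    have h2 := sumRC_vecMul L T k x i b
    rw [hx] at h2
    exact h2.symm
  choose y hy using h1
  refine ⟨∑ i, plc i (y i), ?_⟩
  have h2 : Matrix.vecMul (∑ i, plc i (y i)) ((sumRC L T).D (k + 1)) =
      ∑ i, Matrix.vecMul (plc i (y i)) ((sumRC L T).D (k + 1)) := Matrix.sum_vecMul _ _ _
  rw [h2]
  refine Eq.trans ?_ (sum_plc (J := fun i => (T i).ι (k + 1)) x).symm
  refine Finset.sum_congr rfl fun i _ => ?_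
  rw [sumRC_vecMul_plc, hy]

variable [StarRing A]

attribute [local instance] starMA

theorem star_iotaN (M : Subgroup H) (r : A[M]) : star (iotaN M r) = iotaN M (star r) :=
  starMA_map M.subtype r

theorem conj_map (M : Subgroup H) {I J : Type} (D : Matrix I J A[M]) :
    (D.map (iotaN M)).conjTranspose = D.conjTranspose.map (iotaN M) := by
  exact Matrix.ext fun i j => star_iotaN M (D j i)

theorem sumRC_conj (T : ∀ i, RC A[L i]) (k : ℕ) : ((sumRC L T).D k).conjTranspose =
    Matrix.blockDiagonal' fun i => ((T i).D k).conjTranspose.map (iotaN (L i)) := by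
  change (Matrix.blockDiagonal' fun i => ((T i).D k).map (iotaN (L i))).conjTranspose = _
  rw [Matrix.blockDiagonal'_conjTranspose]
  congr 1
  funext i
  exact conj_map (L i) _

theorem sumRC_plc_conj (T : ∀ i, RC A[L i]) (k : ℕ) (i : Fin n) (w : (T i).ι k → A[H]) :
    Matrix.vecMul (plc i w) ((sumRC L T).D k).conjTranspose =
      plc i (Matrix.vecMul w (((T i).D k).conjTranspose.map (iotaN (L i)))) := by
  rw [sumRC_conj]
  exact vecMul_plc (J := fun i => (T i).ι k) (K := fun i => (T i).ι (k + 1))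
    (fun i => ((T i).D k).conjTranspose.map (iotaN (L i))) i w

/-- a vector over `A[L i]` placed in the block `i` -/
noncomputable def jV (T : ∀ i, RC A[L i]) (p : ℕ) (i : Fin n) (z : (T i).ι p → A[L i]) :
    (sumRC L T).ι p → A[H] := plc i fun a => iotaN (L i) (z a)

theorem jV_add (T : ∀ i, RC A[L i]) (p : ℕ) (i : Fin n) (y z : (T i).ι p → A[L i]) :
    jV L T p i (y + z) = jV L T p i y + jV L T p i z := by
  unfold jV
  refine Eq.trans ?_ (plc_add i _ _)
  congr 1
  funext a
  exact map_add (iotaN (L i)) (y a) (z a)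

theorem jV_zero (T : ∀ i, RC A[L i]) (p : ℕ) (i : Fin n) :
    jV L T p i (0 : (T i).ι p → A[L i]) = 0 := by
  unfold jV
  refine Eq.trans ?_ (plc_zero i)
  congr 1

theorem jV_smul (T : ∀ i, RC A[L i]) (p : ℕ) (i : Fin n) (r : A[L i])
    (z : (T i).ι p → A[L i]) : jV L T p i (r • z) = iotaN (L i) r • jV L T p i z := by
  unfold jV
  refine Eq.trans ?_ (plc_smul i _ _)
  congr 1
  funext a
  exact map_mul (iotaN (L i)) r (z a)

theorem jV_conj (T : ∀ i, RC A[L i]) (p : ℕ) (i : Fin n) (z : (T i).ι p → A[L i]) :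
    Matrix.vecMul (jV L T p i z) ((sumRC L T).D p).conjTranspose =
      jV L T (p + 1) i (Matrix.vecMul z ((T i).D p).conjTranspose) := by
  unfold jV
  rw [sumRC_plc_conj, iota_vecMul]

/-- the map of the cocycles -/
noncomputable def jC (T : ∀ i, RC A[L i]) (p : ℕ) (i : Fin n) :
    (T i).cy p →ₛₗ[(iotaN (L i) : A[L i] →+* A[H])] (sumRC L T).cy p where
  toFun z := ⟨jV L T p i z.1, by
    have h1 : Matrix.vecMul z.1 ((T i).D p).conjTranspose = 0 := z.2
    have h2 := jV_conj L T p i z.1
    rw [h1, jV_zero] at h2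
    exact h2⟩
  map_add' y z := Subtype.ext (jV_add L T p i y.1 z.1)
  map_smul' r z := Subtype.ext (jV_smul L T p i r z.1)

/-- the map from the cohomology of the dual of `T i` -/
noncomputable def jE (T : ∀ i, RC A[L i]) (p : ℕ) (i : Fin n) :
    (T i).E p →ₛₗ[(iotaN (L i) : A[L i] →+* A[H])] (sumRC L T).E p :=
  Submodule.mapQ _ _ (jC L T p i) (by
    rintro ⟨y, hy⟩ hb
    change jV L T p i y ∈ (sumRC L T).bd p
    replace hb : y ∈ (T i).bd p := hb
    cases p with
    | zero =>
      rw [show y = 0 from hb, jV_zero]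
      exact Submodule.zero_mem _
    | succ p =>
      obtain ⟨z, rfl⟩ := hb
      exact ⟨jV L T p i z, jV_conj L T p i z⟩)

theorem jE_mk (T : ∀ i, RC A[L i]) (p : ℕ) (i : Fin n) (z : (T i).cy p) :
    jE L T p i (Submodule.Quotient.mk z) = Submodule.Quotient.mk (jC L T p i z) := rfl

/-- the images of the `jE` generate -/
theorem jE_span (T : ∀ i, RC A[L i]) (p : ℕ) :
    Submodule.span A[H] (⋃ i, Set.range (jE L T p i)) = ⊤ := by
  rw [eq_top_iff]
  intro x _
  obtain ⟨⟨y, hy⟩, rfl⟩ := Submodule.Quotient.mk_surjective _ x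
  have hyc : Matrix.vecMul y ((sumRC L T).D p).conjTranspose = 0 := hy
  choose C hC using fun i => coset_sum_vec (L i) (fun a : (T i).ι p => y ⟨i, a⟩)
  have hz : ∀ (i : Fin n) (g : H), (fun a : (T i).ι p => prL (L i) g (y ⟨i, a⟩)) ∈ (T i).cy p := by
    intro i g
    change Matrix.vecMul _ ((T i).D p).conjTranspose = 0
    funext b
    rw [← prL_vecMul]
    have h1 := congrFun hyc ⟨i, b⟩
    rw [sumRC_conj] at h1
    rw [← vecMul_blk (fun i => ((T i).D p).conjTranspose.map (iotaN (L i))) y i b]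
    exact (congrArg (prL (L i) g) h1).trans (prL_zero _ _)
  let w : ∀ (i : Fin n) (g : H), (sumRC L T).cy p := fun i g =>
    (single g 1 : A[H]) • jC L T p i ⟨_, hz i g⟩
  have hw : ∀ (i : Fin n) (g : H), (w i g).1 = plc i fun a : (T i).ι p =>
      single g (1 : A) * iotaN (L i) (prL (L i) g (y ⟨i, a⟩)) := by
    intro i g
    exact (plc_smul i (single g (1 : A) : A[H]) _).symm
  have hsum : y = ∑ i, ∑ c ∈ C i, (w i c.out).1 := by
    refine (sum_plc (J := fun i => (T i).ι p) y).trans ?_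
    refine Finset.sum_congr rfl fun i _ => ?_
    have h2 : ∀ (S : Finset (H ⧸ L i)) (f : H ⧸ L i → (T i).ι p → A[H]),
        plc i (∑ c ∈ S, f c) = ∑ c ∈ S, plc (J := fun i => (T i).ι p) i (f c) := by
      classical
      intro S f
      induction S using Finset.induction_on with
      | empty => rw [Finset.sum_empty, Finset.sum_empty]; exact plc_zero i
      | insert c S hc ih => rw [Finset.sum_insert hc, Finset.sum_insert hc, plc_add, ih]
    refine (congrArg (plc i) (hC i)).trans ((h2 _ _).trans ?_)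
    exact Finset.sum_congr rfl fun c _ => (hw i c.out).symm
  have h3 : (⟨y, hy⟩ : (sumRC L T).cy p) = ∑ i, ∑ c ∈ C i, w i c.out := by
    refine Subtype.ext ?_
    rw [AddSubmonoidClass.coe_finsetSum]
    refine hsum.trans ?_
    refine Finset.sum_congr rfl fun i _ => ?_
    rw [AddSubmonoidClass.coe_finsetSum]
  have h4 : (Submodule.Quotient.mk ⟨y, hy⟩ : (sumRC L T).E p) =
      Submodule.mkQ ((( sumRC L T).bd p).comap ((sumRC L T).cy p).subtype)
        (∑ i, ∑ c ∈ C i, w i c.out) := by
    rw [← h3]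
    rfl
  rw [h4, map_sum]
  refine Submodule.sum_mem _ fun i _ => ?_
  rw [map_sum]
  refine Submodule.sum_mem _ fun c _ => ?_
  rw [map_smul]
  exact Submodule.smul_mem _ _ (Submodule.subset_span (Set.mem_iUnion.2
    ⟨i, Submodule.Quotient.mk ⟨_, hz i c.out⟩, rfl⟩))

/-- exactness of the dual -/
theorem sumRC_coex {T : ∀ i, RC A[L i]} {p : ℕ} (h : ∀ i, (T i).CoEx p) :
    (sumRC L T).CoEx p := by
  refine F8b_coEx fun a => ?_
  have h1 : a ∈ Submodule.span A[H] (⋃ i, Set.range (jE L T p i)) := by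
    rw [jE_span]; exact Submodule.mem_top
  induction h1 using Submodule.span_induction with
  | mem x hx =>
    obtain ⟨i, e, rfl⟩ := Set.mem_iUnion.1 hx
    rw [F8b_E_zero (h i) e, map_zero]
  | zero => rfl
  | add x y _ _ hx hy => rw [hx, hy, add_zero]
  | smul s x _ hx => rw [hx, smul_zero]

end

end Pool.Agent.UP25
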