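import Mathlib
import Pool.Agent.Lib.UP25.Blk
import Pool.Agent.Lib.UPV.V1

/-!
# TANK UP, stage 3: equivariant families of subgroups of an `A[H]`-module

The total module of an equivariant family `U x`, `x ∈ X`, and its resolution, given resolutions of
the `U x` over the group rings of the stabilisers.
-/

set_option autoImplicit false
set_option linter.unusedSectionVars false

open MonoidAlgebra Pool.Agent.UP Pool.Agent.UPV

namespace Pool.Agent.UP25

universe u v w

section
variable (A : Type u) (H : Type v) [CommRing A] [Group H] (X : Type v) [MulAction H X]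
  (K : Type w) [AddCommGroup K] [Module A[H] K]

/-- an equivariant family of subgroups of `K`, linear over `A` -/
structure EqFam where
  U : X → AddSubgroup K
  mem : ∀ (h : H) (a : A) (x : X) (m : K), m ∈ U x → (single h a : A[H]) • m ∈ U (h • x)

end

section
variable {A : Type u} {H : Type v} [CommRing A] [Group H] {X : Type v} [MulAction H X]
  {K : Type w} [AddCommGroup K] [Module A[H] K]

/-- the value of an element of `Tw` -/
noncomputable def val (x : X) : Tw A H X K →+ K := Finsupp.applyAddHom x

theorem val_mk_same (x : X) (m : K) : val x (Tw.mk A H x m) = m := by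
  change (Finsupp.single x m) x = m
  exact Finsupp.single_eq_same

theorem val_mk_ne {x y : X} (h : x ≠ y) (m : K) : val y (Tw.mk A H x m) = 0 := by
  change (Finsupp.single x m) y = 0
  exact Finsupp.single_eq_of_ne (Ne.symm h)

theorem tw_ext {f g : Tw A H X K} (h : ∀ x, val x f = val x g) : f = g := Finsupp.ext h

theorem tw_sum (f : Tw A H X K) : ∃ S : Finset X, f = ∑ x ∈ S, Tw.mk A H x (val x f) := by
  refine ⟨(f : X →₀ K).support, ?_⟩
  exact (Finsupp.sum_single (f : X →₀ K)).symm

/-- the total module -/
noncomputable def EqFam.tot (F : EqFam A H X K) : Submodule A[H] (Tw A H X K) where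
  carrier := {f | ∀ x, val x f ∈ F.U x}
  add_mem' := by
    intro f g hf hg x
    rw [map_add]
    exact (F.U x).add_mem (hf x) (hg x)
  zero_mem' := by
    intro x
    rw [map_zero]
    exact (F.U x).zero_mem
  smul_mem' := by
    intro r f hf
    induction r using MonoidAlgebra.induction_linear with
    | zero =>
      intro x
      rw [zero_smul, map_zero]
      exact (F.U x).zero_mem
    | add r s hr hs =>
      intro x
      rw [add_smul, map_add]
      exact (F.U x).add_mem (hr x) (hs x)
    | single h a =>
      obtain ⟨S, hS⟩ := tw_sum f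
      intro y
      rw [hS, Finset.smul_sum, map_sum]
      refine (F.U y).sum_mem fun x _ => ?_
      rw [Tw.single_smul]
      by_cases hxy : h • x = y
      · subst hxy
        rw [val_mk_same]
        exact F.mem h a x _ (hf x)
      · rw [val_mk_ne hxy]
        exact (F.U y).zero_mem

theorem EqFam.mem_tot (F : EqFam A H X K) (f : Tw A H X K) :
    f ∈ F.tot ↔ ∀ x, val x f ∈ F.U x := Iff.rfl

theorem EqFam.mk_mem (F : EqFam A H X K) {x : X} {m : K} (hm : m ∈ F.U x) :
    Tw.mk A H x m ∈ F.tot := by
  intro y
  by_cases h : x = y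
  · subst h
    rw [val_mk_same]
    exact hm
  · rw [val_mk_ne h]
    exact (F.U y).zero_mem

theorem EqFam.mem_inv (F : EqFam A H X K) (h : H) {x : X} {m : K} (hm : m ∈ F.U (h • x)) :
    (single h⁻¹ 1 : A[H]) • m ∈ F.U x := by
  have h1 := F.mem h⁻¹ 1 (h • x) m hm
  rwa [inv_smul_smul] at h1

/-- a resolution over the group ring of a subgroup of a subgroup of an `A[H]`-module -/
structure SRes (L : Subgroup H) (T : RC A[L]) (U : AddSubgroup K) where
  ε : (T.ι 0 → A[L]) →+ K
  smul : ∀ (r : A[L]) (z : T.ι 0 → A[L]), ε (r • z) = iotaN L r • ε z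
  rng : ∀ m, m ∈ U ↔ ∃ z, ε z = m
  zero : ∀ x, ε (Matrix.vecMul x (T.D 0)) = 0
  ker : ∀ x, ε x = 0 → ∃ y, Matrix.vecMul y (T.D 0) = x
  ex : ∀ k, T.Ex k

theorem SRes.eval {L : Subgroup H} {T : RC A[L]} {U : AddSubgroup K} (r : SRes L T U)
    (z : T.ι 0 → A[L]) : r.ε z = ∑ a, iotaN L (z a) • r.ε (Pi.single a 1) := by
  have h1 : z = ∑ a, z a • (Pi.single a (1 : A[L]) : T.ι 0 → A[L]) := by
    funext k
    simp [Finset.sum_apply, Pi.single_apply]
  conv_lhs => rw [h1]
  rw [map_sum]
  exact Finset.sum_congr rfl fun a _ => r.smul _ _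

/-- the value at `g • x` of an element of the cyclic submodule generated by `[x] m` -/
theorem val_smul_mk (x : X) (g : H) (y : A[H]) (m : K) :
    val (g • x) (y • Tw.mk A H x m) = (single g 1 : A[H]) •
      (iotaN (MulAction.stabilizer H x) (prL (MulAction.stabilizer H x) g y) • m) := by
  induction y using MonoidAlgebra.induction_linear with
  | zero => rw [zero_smul, map_zero, prL_zero, map_zero, zero_smul, smul_zero]
  | add y z hy hz => rw [add_smul, map_add, hy, hz, prL_add, map_add, add_smul, smul_add]
  | single h a =>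
    rw [Tw.single_smul]
    unfold prL
    rw [single_mul_single, one_mul]
    by_cases hh : h • x = g • x
    · have h1 : g⁻¹ * h ∈ MulAction.stabilizer H x := by
        rw [MulAction.mem_stabilizer_iff, mul_smul, hh, inv_smul_smul]
      rw [hh, val_mk_same, psiN_single_of_mem _ h1, iotaN_single, ← mul_smul, single_mul_single,
        one_mul]
      simp only [mul_inv_cancel_left]
    · have h1 : g⁻¹ * h ∉ MulAction.stabilizer H x := by
        rw [MulAction.mem_stabilizer_iff, mul_smul, inv_smul_eq_iff]
        exact hh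
      rw [val_mk_ne hh, psiN_single_of_not_mem _ h1, map_zero, zero_smul, smul_zero]

theorem val_smul_mk_ne {x z : X} (hx : ∀ h : H, h • x ≠ z) (y : A[H]) (m : K) :
    val z (y • Tw.mk A H x m) = 0 := by
  induction y using MonoidAlgebra.induction_linear with
  | zero => rw [zero_smul, map_zero]
  | add y z hy hz => rw [add_smul, map_add, hy, hz, add_zero]
  | single h a => rw [Tw.single_smul, val_mk_ne (hx h)]

theorem iota_smul_mk (x : X) (s : A[MulAction.stabilizer H x]) (m : K) :
    iotaN (MulAction.stabilizer H x) s • Tw.mk A H x m =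
      Tw.mk A H x (iotaN (MulAction.stabilizer H x) s • m) := by
  induction s using MonoidAlgebra.induction_linear with
  | zero =>
    rw [map_zero, zero_smul, zero_smul]
    exact (Finsupp.single_zero x).symm
  | add y z hy hz => rw [map_add, add_smul, hy, hz, add_smul, Tw.mk_add]
  | single h a =>
    rw [iotaN_single, Tw.single_smul, MulAction.mem_stabilizer_iff.1 h.2]

theorem mk_sum {ι : Type*} (x : X) (S : Finset ι) (f : ι → K) :
    Tw.mk A H x (∑ i ∈ S, f i) = ∑ i ∈ S, Tw.mk A H x (f i) := by
  classical
  induction S using Finset.induction_on with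
  | empty =>
    rw [Finset.sum_empty, Finset.sum_empty]
    exact Finsupp.single_zero x
  | insert c S hc ih => rw [Finset.sum_insert hc, Finset.sum_insert hc, Tw.mk_add, ih]

variable {n : ℕ} (F : EqFam A H X K) (x : Fin n → X)
  (T : ∀ i, RC A[MulAction.stabilizer H (x i)])
  (r : ∀ i, SRes (MulAction.stabilizer H (x i)) (T i) (F.U (x i)))

/-- the augmentation of the total module -/
noncomputable def totε : ((sumRC (fun i => MulAction.stabilizer H (x i)) T).ι 0 → A[H]) →ₗ[A[H]]
    Tw A H X K where
  toFun y := ∑ q, y q • Tw.mk A H (x q.1) ((r q.1).ε (Pi.single q.2 1))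
  map_add' y z := by
    rw [← Finset.sum_add_distrib]
    exact Finset.sum_congr rfl fun q _ => by rw [Pi.add_apply, add_smul]
  map_smul' s y := by
    rw [RingHom.id_apply, Finset.smul_sum]
    exact Finset.sum_congr rfl fun q _ => by rw [Pi.smul_apply, smul_eq_mul, mul_smul]

theorem totε_mem (y : (sumRC (fun i => MulAction.stabilizer H (x i)) T).ι 0 → A[H]) :
    totε F x T r y ∈ F.tot := by
  refine Submodule.sum_mem _ fun q _ => Submodule.smul_mem _ _ (F.mk_mem ?_)
  exact ((r q.1).rng _).2 ⟨_, rfl⟩

/-- the values of the augmentation -/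
theorem val_totε (hx2 : ∀ (i j : Fin n) (h : H), h • x i = x j → i = j)
    (y : (sumRC (fun i => MulAction.stabilizer H (x i)) T).ι 0 → A[H]) (g : H) (i : Fin n) :
    val (g • x i) (totε F x T r y) = (single g 1 : A[H]) •
      (r i).ε (fun a => prL (MulAction.stabilizer H (x i)) g (y ⟨i, a⟩)) := by
  change val (g • x i) (∑ q : Σ i, (T i).ι 0, y q •
    Tw.mk A H (x q.1) ((r q.1).ε (Pi.single q.2 1))) = _
  rw [map_sum, Fintype.sum_sigma, Finset.sum_eq_single i]
  · rw [(r i).eval, Finset.smul_sum]
    exact Finset.sum_congr rfl fun a _ => val_smul_mk _ _ _ _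
  · intro j _ hj
    refine Finset.sum_eq_zero fun a _ => ?_
    refine val_smul_mk_ne (fun h hh => hj ?_) _ _
    refine hx2 j i (g⁻¹ * h) ?_
    rw [mul_smul, hh, inv_smul_smul]
  · intro h
    exact absurd (Finset.mem_univ _) h

include r in
/-- **the resolution of the total module** -/
theorem res_tot (hx1 : ∀ z : X, ∃ (i : Fin n) (h : H), h • x i = z)
    (hx2 : ∀ (i j : Fin n) (h : H), h • x i = x j → i = j) :
    Nonempty (Res (sumRC (fun i => MulAction.stabilizer H (x i)) T) F.tot) := by
  let ε : ((sumRC (fun i => MulAction.stabilizer H (x i)) T).ι 0 → A[H]) →ₗ[A[H]] F.tot :=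
    (totε F x T r).codRestrict F.tot (totε_mem F x T r)
  have hε : ∀ y, (ε y).1 = totε F x T r y := fun y => rfl
  have hext : ∀ f g : F.tot, (∀ (i : Fin n) (h : H), val (h • x i) f.1 = val (h • x i) g.1) →
      f = g := by
    intro f g h
    refine Subtype.ext (tw_ext fun z => ?_)
    obtain ⟨i, k, rfl⟩ := hx1 z
    exact h i k
  have hex : ∀ (k : ℕ), (sumRC (fun i => MulAction.stabilizer H (x i)) T).Ex k := fun k =>
    sumRC_ex _ fun i => (r i).ex k
  refine ⟨⟨ε, ?_, ?_, ?_, hex⟩⟩
  · -- surjectivity
    intro f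
    have hgen : ∀ (z : X) (m : K), m ∈ F.U z → Tw.mk A H z m ∈ LinearMap.range (totε F x T r) := by
      intro z m hm
      obtain ⟨i, h, rfl⟩ := hx1 z
      obtain ⟨w, hw⟩ := ((r i).rng _).1 (F.mem_inv h hm)
      have h1 : Tw.mk A H (h • x i) m =
          (single h 1 : A[H]) • Tw.mk A H (x i) ((r i).ε w) := by
        rw [hw, Tw.single_smul, ← mul_smul, single_mul_single, mul_inv_cancel, one_mul, ← one_def,
          one_smul]
      rw [h1]
      refine Submodule.smul_mem _ _ ⟨plc i fun a => iotaN (MulAction.stabilizer H (x i)) (w a), ?_⟩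
      change (∑ q : Σ i, (T i).ι 0, (plc i fun a => iotaN (MulAction.stabilizer H (x i)) (w a)) q •
        Tw.mk A H (x q.1) ((r q.1).ε (Pi.single q.2 1))) = _
      rw [Fintype.sum_sigma, Finset.sum_eq_single i]
      · rw [(r i).eval, mk_sum]
        refine Finset.sum_congr rfl fun a _ => ?_
        rw [plc_same, iota_smul_mk]
      · intro j _ hj
        refine Finset.sum_eq_zero fun a _ => ?_
        rw [plc_ne hj, zero_smul]
      · intro h
        exact absurd (Finset.mem_univ _) h
    obtain ⟨S, hS⟩ := tw_sum f.1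
    have h2 : f.1 ∈ LinearMap.range (totε F x T r) := by
      rw [hS]
      exact Submodule.sum_mem _ fun z _ => hgen z _ (f.2 z)
    obtain ⟨y, hy⟩ := h2
    exact ⟨y, Subtype.ext hy⟩
  · -- the composition is zero
    intro y
    refine hext _ _ fun i h => ?_
    rw [hε, val_totε F x T r hx2]
    have h1 : (fun a => prL (MulAction.stabilizer H (x i)) h
        (Matrix.vecMul y ((sumRC (fun i => MulAction.stabilizer H (x i)) T).D 0) ⟨i, a⟩)) =
        Matrix.vecMul (fun b => prL (MulAction.stabilizer H (x i)) h (y ⟨i, b⟩)) ((T i).D 0) := by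
      funext a
      rw [sumRC_vecMul, prL_vecMul]
    rw [h1, (r i).zero, smul_zero]
    exact (map_zero (val (h • x i))).symm
  · -- the kernel
    intro y hy
    have h1 : ∀ i, ∃ w, Matrix.vecMul w (((T i).D 0).map
        (iotaN (MulAction.stabilizer H (x i)))) = fun a => y ⟨i, a⟩ := by
      intro i
      refine row_lift _ ((T i).D 0) _ fun g => ?_
      refine (r i).ker _ ?_
      have h2 := val_totε F x T r hx2 y g i
      rw [← hε, hy] at h2
      have h3 : (single g 1 : A[H]) •
          (r i).ε (fun a => prL (MulAction.stabilizer H (x i)) g (y ⟨i, a⟩)) = 0 :=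
        h2.symm.trans (map_zero (val (g • x i)))
      have h4 := congrArg (fun m => (single g⁻¹ 1 : A[H]) • m) h3
      simp only [← mul_smul, single_mul_single, inv_mul_cancel, one_mul, ← one_def, one_smul,
        smul_zero] at h4
      exact h4
    choose w hw using h1
    refine ⟨∑ i, plc i (w i), ?_⟩
    have h2 : Matrix.vecMul (∑ i, plc i (w i))
        ((sumRC (fun i => MulAction.stabilizer H (x i)) T).D 0) =
        ∑ i, Matrix.vecMul (plc i (w i))
          ((sumRC (fun i => MulAction.stabilizer H (x i)) T).D 0) := Matrix.sum_vecMul _ _ _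
    rw [h2]
    refine Eq.trans ?_ (sum_plc (J := fun i => (T i).ι 0) y).symm
    refine Finset.sum_congr rfl fun i _ => ?_
    rw [sumRC_vecMul_plc, hw]

end

end Pool.Agent.UP25
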