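import Mathlib
import Pool.Agent.Lib.UP25.Fam
import Pool.Agent.Lib.UP25.TDefs
import Pool.Agent.Lib.UP.U2
import Pool.Agent.Lib.UP.U3a

/-!
# TANK UP, stage 3: restriction to subgroups, the total module of a family
-/

set_option autoImplicit false
set_option linter.unusedSectionVars false

open MonoidAlgebra Pool.Agent.UP Pool.Agent.UPV

namespace Pool.Agent.UP25

universe u v w w'

section
variable {H : Type v} [Group H]

/-- a copy of `K`, for the restriction of the scalars to the group ring of `L` -/
def Rs (_L : Subgroup H) (K : Type w) : Type w := K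

instance (L : Subgroup H) (K : Type w) [AddCommGroup K] : AddCommGroup (Rs L K) :=
  inferInstanceAs (AddCommGroup K)

variable {A : Type u} [CommRing A]

noncomputable instance (L : Subgroup H) (K : Type w) [AddCommGroup K] [Module A[H] K] :
    Module A[L] (Rs L K) :=
  letI : Module A[L] K := Module.compHom K (iotaN (A := A) L)
  inferInstanceAs (Module A[L] K)

/-- the identity -/
def toRs (L : Subgroup H) (K : Type w) [AddCommGroup K] : K ≃+ Rs L K := AddEquiv.refl K

theorem toRs_smul (L : Subgroup H) {K : Type w} [AddCommGroup K] [Module A[H] K] (r : A[L])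
    (k : K) : r • toRs L K k = toRs L K (iotaN L r • k) := rfl

theorem rs_smul (L : Subgroup H) {K : Type w} [AddCommGroup K] [Module A[H] K] (r : A[L])
    (k : Rs L K) : (toRs L K).symm (r • k) = iotaN L r • (toRs L K).symm k := rfl

/-- restriction of a linear map -/
noncomputable def rsMap (L : Subgroup H) {K : Type w} [AddCommGroup K] [Module A[H] K]
    {K' : Type w'} [AddCommGroup K'] [Module A[H] K'] (f : K →ₗ[A[H]] K') :
    Rs L K →ₗ[A[L]] Rs L K' where
  toFun k := toRs L K' (f ((toRs L K).symm k))
  map_add' a b := by rw [map_add, map_add, map_add]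
  map_smul' r k := by
    rw [rs_smul, map_smul]
    rfl

theorem rsMap_apply (L : Subgroup H) {K : Type w} [AddCommGroup K] [Module A[H] K]
    {K' : Type w'} [AddCommGroup K'] [Module A[H] K'] (f : K →ₗ[A[H]] K') (k : K) :
    rsMap L f (toRs L K k) = toRs L K' (f k) := rfl

/-- an additive subgroup which is stable under the group ring of `L` -/
noncomputable def locSub (L : Subgroup H) {K : Type w} [AddCommGroup K] [Module A[H] K]
    (U : AddSubgroup K)
    (hU : ∀ (h : H) (a : A) (m : K), h ∈ L → m ∈ U → (single h a : A[H]) • m ∈ U) :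
    Submodule A[L] (Rs L K) where
  carrier := {k | (toRs L K).symm k ∈ U}
  add_mem' := fun {a b} ha hb => U.add_mem ha hb
  zero_mem' := U.zero_mem
  smul_mem' := by
    intro r k hk
    change iotaN L r • (toRs L K).symm k ∈ U
    replace hk : (toRs L K).symm k ∈ U := hk
    induction r using MonoidAlgebra.induction_linear with
    | zero => rw [map_zero, zero_smul]; exact U.zero_mem
    | add r s hr hs => rw [map_add, add_smul]; exact U.add_mem hr hs
    | single h a =>
      rw [iotaN_single]
      exact hU h a _ h.2 hk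

theorem mem_locSub (L : Subgroup H) {K : Type w} [AddCommGroup K] [Module A[H] K]
    (U : AddSubgroup K)
    (hU : ∀ (h : H) (a : A) (m : K), h ∈ L → m ∈ U → (single h a : A[H]) • m ∈ U) (k : K) :
    toRs L K k ∈ locSub L U hU ↔ k ∈ U := Iff.rfl

/-- a resolution of `locSub` -/
noncomputable def SRes.of_res (L : Subgroup H) {K : Type w} [AddCommGroup K] [Module A[H] K]
    (U : AddSubgroup K)
    (hU : ∀ (h : H) (a : A) (m : K), h ∈ L → m ∈ U → (single h a : A[H]) • m ∈ U)
    {T : RC A[L]} (r : Res T (locSub L U hU)) : SRes L T U where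
  ε := (toRs L K).symm.toAddMonoidHom.comp
    ((locSub L U hU).subtype.toAddMonoidHom.comp r.ε.toAddMonoidHom)
  smul s z := by
    change (toRs L K).symm (r.ε (s • z)).1 = iotaN L s • (toRs L K).symm (r.ε z).1
    rw [map_smul]
    rfl
  rng m := by
    constructor
    · intro hm
      obtain ⟨z, hz⟩ := r.surj ⟨toRs L K m, hm⟩
      exact ⟨z, congrArg Subtype.val hz⟩
    · rintro ⟨z, rfl⟩
      exact (r.ε z).2
  zero x := congrArg Subtype.val (r.zero x)
  ker x hx := r.ker x (Subtype.ext hx)
  ex := r.ex

end

section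
variable {A : Type u} {H : Type v} [CommRing A] [Group H] {X : Type v} [MulAction H X]
  {K : Type w} [AddCommGroup K] [Module A[H] K]

/-- the member `U x` as a module over the group ring of a subgroup which fixes `x` -/
noncomputable def EqFam.loc (F : EqFam A H X K) (L : Subgroup H) (x : X)
    (hx : ∀ h ∈ L, h • x = x) : Submodule A[L] (Rs L K) :=
  locSub L (F.U x) fun h a m hh hm => by
    have h1 := F.mem h a x m hm
    rwa [hx h hh] at h1

theorem EqFam.mem_loc (F : EqFam A H X K) (L : Subgroup H) (x : X)
    (hx : ∀ h ∈ L, h • x = x) (k : K) : toRs L K k ∈ F.loc L x hx ↔ k ∈ F.U x := Iff.rfl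

theorem stab_fix (x : X) : ∀ h ∈ MulAction.stabilizer H x, h • x = x := fun _ hh => hh

/-- representatives of the orbits -/
theorem exists_orbit_reps (H : Type v) [Group H] (X : Type v) [MulAction H X]
    (h : Finite (MulAction.orbitRel.Quotient H X)) :
    ∃ (n : ℕ) (x : Fin n → X), (∀ z : X, ∃ (i : Fin n) (h : H), h • x i = z) ∧
      ∀ (i j : Fin n) (h : H), h • x i = x j → i = j := by
  obtain ⟨n, ⟨e⟩⟩ := Finite.exists_equiv_fin (MulAction.orbitRel.Quotient H X)
  refine ⟨n, fun i => (e.symm i).out, fun z => ?_, fun i j h hh => ?_⟩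
  · obtain ⟨g, hg⟩ := exists_rep (H := H) z
    refine ⟨e (Quotient.mk _ z), g, ?_⟩
    change g • (e.symm (e (Quotient.mk _ z))).out = z
    rw [Equiv.symm_apply_apply]
    exact hg
  · apply e.symm.injective
    rw [← Quotient.out_eq (e.symm i), ← Quotient.out_eq (e.symm j)]
    refine Quotient.sound ?_
    change (e.symm i).out ∈ MulAction.orbit H (e.symm j).out
    exact ⟨h⁻¹, by
      change h⁻¹ • (e.symm j).out = _
      rw [← show h • (e.symm i).out = (e.symm j).out from hh, inv_smul_smul]⟩

/-- the resolution of the total module -/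
theorem exists_tot (F : EqFam A H X K) {n : ℕ} (x : Fin n → X)
    (hx1 : ∀ z : X, ∃ (i : Fin n) (h : H), h • x i = z)
    (hx2 : ∀ (i j : Fin n) (h : H), h • x i = x j → i = j)
    (hn : ∀ i, IsNoetherianRing A[MulAction.stabilizer H (x i)])
    (hfg : ∀ i, (F.loc (MulAction.stabilizer H (x i)) (x i) (stab_fix _)).FG) :
    ∃ T : ∀ i, RC A[MulAction.stabilizer H (x i)],
      (∀ i, Nonempty (Res (T i) (F.loc (MulAction.stabilizer H (x i)) (x i) (stab_fix _)))) ∧
      Nonempty (Res (sumRC (fun i => MulAction.stabilizer H (x i)) T) F.tot) := by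
  have h1 : ∀ i, ∃ T : RC A[MulAction.stabilizer H (x i)],
      Nonempty (Res T (F.loc (MulAction.stabilizer H (x i)) (x i) (stab_fix _))) := by
    intro i
    have := hn i
    have : Module.Finite A[MulAction.stabilizer H (x i)]
      (F.loc (MulAction.stabilizer H (x i)) (x i) (stab_fix _)) := Module.Finite.iff_fg.2 (hfg i)
    exact exists_res _
  choose T hT using h1
  refine ⟨T, hT, ?_⟩
  exact res_tot F x T (fun i => SRes.of_res _ _ _ (hT i).some) hx1 hx2

end

section
variable {A : Type u} {H : Type v} [CommRing A] [StarRing A] [Group H] {X : Type v}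
  [MulAction H X] {K : Type (max u v)} [AddCommGroup K] [Module A[H] K]

theorem ge_tot (F : EqFam A H X K) {n : ℕ} (x : Fin n → X)
    (T : ∀ i, RC A[MulAction.stabilizer H (x i)])
    (hT : ∀ i, Nonempty (Res (T i)
      (F.loc (MulAction.stabilizer H (x i)) (x i) (stab_fix _))))
    (hR : Nonempty (Res (sumRC (fun i => MulAction.stabilizer H (x i)) T) F.tot)) {p : ℕ}
    (h : ∀ i, GE A[MulAction.stabilizer H (x i)] p
      (F.loc (MulAction.stabilizer H (x i)) (x i) (stab_fix _))) : GE A[H] p F.tot := by
  obtain ⟨R⟩ := hR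
  refine (ge_iff R p).2 fun l hl => ?_
  refine sumRC_coex _ fun i => ?_
  obtain ⟨r⟩ := hT i
  exact (ge_iff r p).1 (h i) l hl

end

end Pool.Agent.UP25
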