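import Mathlib
import Pool.Agent.Lib.UP25.Rst
import Pool.Agent.Lib.UP.U1
import Pool.Agent.Lib.UP.U3
import Pool.Agent.Lib.UP.U4
import Pool.Agent.Lib.UP.U5
import Pool.Agent.Lib.UP.U5E
import Pool.Agent.Lib.UP.F5b

/-!
# TANK UP, stage 3: the exact sequence of the total modules of a good family on a tree
-/

set_option autoImplicit false
set_option linter.unusedSectionVars false

open MonoidAlgebra Pool.Agent.UP Pool.Agent.UPV

namespace Pool.Agent.UP25

universe u v w

section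
variable {A : Type u} {H : Type v} [CommRing A] [Group H] {V : Type v} [MulAction H V]
  (T : TAct H V) {K : Type w} [AddCommGroup K] [Module A[H] K]

/-- the family of the intersections on the edges -/
noncomputable def EqFam.edge (F : EqFam A H V K) : EqFam A H T.E K where
  U e := F.U e.1.1 ⊓ F.U e.1.2
  mem h a _ m hm := ⟨F.mem h a _ m hm.1, F.mem h a _ m hm.2⟩

variable (A H V K) in
/-- the sum of the coefficients -/
noncomputable def sumL : Tw A H V K →ₗ[A[H]] K :=
  Tw.lift A H (fun _ => AddMonoidHom.id K) (fun _ _ _ _ => rfl)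

theorem sumL_eq (f : Tw A H V K) : sumL A H V K f = sumV V K f := rfl

variable (A K) in
/-- the boundary -/
noncomputable def bdL : Tw A H T.E K →ₗ[A[H]] Tw A H V K :=
  Tw.lift A H (fun e => (Finsupp.singleAddHom (M := K) e.1.2 - Finsupp.singleAddHom (M := K) e.1.1 :
    K →+ (V →₀ K))) (fun g a e m => by
      change Tw.mk A H (g • e.1.2) ((single g a : A[H]) • m) -
        Tw.mk A H (g • e.1.1) ((single g a : A[H]) • m) =
        (single g a : A[H]) • (Tw.mk A H e.1.2 m - Tw.mk A H e.1.1 m)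
      rw [smul_sub, Tw.single_smul, Tw.single_smul])

theorem bdL_eq (f : Tw A H T.E K) : bdL A T K f = bdE T.or K f := rfl

/-- a good family -/
structure Good (F : EqFam A H V K) : Prop where
  fg : ∀ (L : Subgroup H), T.Stab L → ∀ (x : V) (hx : ∀ h ∈ L, h • x = x), (F.loc L x hx).FG
  sum : ∀ k : K, ∃ f : V →₀ K, (∀ x, f x ∈ F.U x) ∧ sumV V K f = k
  exact : ∀ f : V →₀ K, (∀ x, f x ∈ F.U x) → sumV V K f = 0 →
    ∃ g : T.E →₀ K, (∀ e, g e ∈ F.U e.1.1 ∧ g e ∈ F.U e.1.2) ∧ bdE T.or K g = f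

variable {T}

theorem val_bdE_mem (F : EqFam A H V K) (g : T.E →₀ K)
    (hg : ∀ e, g e ∈ F.U e.1.1 ∧ g e ∈ F.U e.1.2) (x : V) : bdE T.or K g x ∈ F.U x := by
  rw [bdE_apply]
  refine (F.U x).sum_mem fun e _ => ?_
  refine (F.U x).sub_mem ?_ ?_
  · by_cases h : e.1.2 = x
    · rw [← h, Finsupp.single_eq_same]
      exact (hg e).2
    · rw [Finsupp.single_eq_of_ne (Ne.symm h)]
      exact (F.U x).zero_mem
  · by_cases h : e.1.1 = x
    · rw [← h, Finsupp.single_eq_same]
      exact (hg e).1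
    · rw [Finsupp.single_eq_of_ne (Ne.symm h)]
      exact (F.U x).zero_mem

/-- the exact sequence -/
theorem Good.ses {F : EqFam A H V K} (hF : Good T F) :
    ∃ (φ : (F.edge T).tot →ₗ[A[H]] F.tot) (ψ : F.tot →ₗ[A[H]] K), Function.Injective φ ∧
      Function.Surjective ψ ∧ LinearMap.range φ = LinearMap.ker ψ := by
  let φ : (F.edge T).tot →ₗ[A[H]] F.tot :=
    ((bdL A T K).comp (F.edge T).tot.subtype).codRestrict F.tot (fun g => by
      intro x
      exact val_bdE_mem F (g.1 : T.E →₀ K) g.2 x)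
  let ψ : F.tot →ₗ[A[H]] K := (sumL A H V K).comp F.tot.subtype
  refine ⟨φ, ψ, ?_, ?_, ?_⟩
  · rw [← LinearMap.ker_eq_bot, eq_bot_iff]
    intro g hg
    have h1 : bdE T.or K (g.1 : T.E →₀ K) = 0 := congrArg Subtype.val hg
    exact Subtype.ext (tree_inj T.or T.tree _ h1)
  · intro k
    obtain ⟨f, h1, h2⟩ := hF.sum k
    exact ⟨⟨f, h1⟩, h2⟩
  · apply le_antisymm
    · rintro _ ⟨g, rfl⟩
      exact sumV_bdE T.or (g.1 : T.E →₀ K)
    · intro f hf
      obtain ⟨g, h1, h2⟩ := hF.exact (f.1 : V →₀ K) f.2 hf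
      exact ⟨⟨g, h1⟩, Subtype.ext h2⟩

/-- the members on the edges are finitely generated -/
theorem Good.edge_fg {F : EqFam A H V K} (hF : Good T F) (e : T.E)
    (hn : IsNoetherianRing A[MulAction.stabilizer H e]) :
    ((F.edge T).loc (MulAction.stabilizer H e) e (stab_fix e)).FG := by
  have h1 : ∀ h ∈ MulAction.stabilizer H e, h • e.1.1 = e.1.1 := fun h hh =>
    ((T.mem_stabE h e).1 hh).1
  have h2 := hF.fg _ (Or.inr ⟨e, rfl⟩) e.1.1 h1
  have h3 : (F.edge T).loc (MulAction.stabilizer H e) e (stab_fix e) ≤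
      F.loc (MulAction.stabilizer H e) e.1.1 h1 := fun k hk => hk.1
  have h4 : IsNoetherian A[MulAction.stabilizer H e] (F.loc (MulAction.stabilizer H e) e.1.1 h1) :=
    isNoetherian_of_fg_of_noetherian _ h2
  exact isNoetherian_submodule.1 h4 _ h3

/-- the two resolutions -/
theorem Good.exists_res {F : EqFam A H V K} (hF : Good T F)
    (hfin : Finite (MulAction.orbitRel.Quotient H T.E))
    (hn : ∀ L : Subgroup H, T.Stab L → IsNoetherianRing A[L]) :
    ∃ (n : ℕ) (x : Fin n → V) (T0 : ∀ i, RC A[MulAction.stabilizer H (x i)])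
      (m : ℕ) (e : Fin m → T.E) (T1 : ∀ i, RC A[MulAction.stabilizer H (e i)]),
      (∀ i, Nonempty (Res (T0 i) (F.loc (MulAction.stabilizer H (x i)) (x i) (stab_fix _)))) ∧
      Nonempty (Res (sumRC (fun i => MulAction.stabilizer H (x i)) T0) F.tot) ∧
      (∀ i, Nonempty (Res (T1 i)
        ((F.edge T).loc (MulAction.stabilizer H (e i)) (e i) (stab_fix _)))) ∧
      Nonempty (Res (sumRC (fun i => MulAction.stabilizer H (e i)) T1) (F.edge T).tot) := by
  obtain ⟨n, x, hx1, hx2⟩ := exists_orbit_reps H V T.fin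
  obtain ⟨m, e, he1, he2⟩ := exists_orbit_reps H T.E hfin
  obtain ⟨T0, h1, h2⟩ := exists_tot F x hx1 hx2 (fun i => hn _ (Or.inl ⟨x i, rfl⟩))
    (fun i => hF.fg _ (Or.inl ⟨x i, rfl⟩) (x i) (stab_fix _))
  obtain ⟨T1, h3, h4⟩ := exists_tot (F.edge T) e he1 he2 (fun i => hn _ (Or.inr ⟨e i, rfl⟩))
    (fun i => hF.edge_fg (e i) (hn _ (Or.inr ⟨e i, rfl⟩)))
  exact ⟨n, x, T0, m, e, T1, h1, h2, h3, h4⟩

/-- a module with a resolution is finitely presented -/
theorem fp_of_res {R : Type u} [Ring R] {T : RC R} {M : Type w} [AddCommGroup M] [Module R M]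
    (r : Res T M) : Module.FinitePresentation R M := by
  refine Module.finitePresentation_of_surjective r.ε r.surj ?_
  have h1 : LinearMap.ker r.ε = LinearMap.range (Matrix.vecMulLinear (T.D 0)) := by
    apply le_antisymm
    · intro x hx
      obtain ⟨y, hy⟩ := r.ker x hx
      exact ⟨y, hy⟩
    · rintro _ ⟨y, rfl⟩
      exact r.zero y
  rw [h1]
  exact Module.Finite.iff_fg.1 inferInstance

theorem Good.fp {F : EqFam A H V K} (hF : Good T F)
    (hfin : Finite (MulAction.orbitRel.Quotient H T.E))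
    (hn : ∀ L : Subgroup H, T.Stab L → IsNoetherianRing A[L]) :
    Module.FinitePresentation A[H] K := by
  obtain ⟨n, x, T0, m, e, T1, -, ⟨r0⟩, -, ⟨r1⟩⟩ := hF.exists_res hfin hn
  obtain ⟨φ, ψ, h1, h2, h3⟩ := hF.ses
  have h4 := fp_of_res r0
  have h5 := fp_of_res r1
  refine Module.finitePresentation_of_surjective ψ h2 ?_
  rw [← h3, LinearMap.range_eq_map]
  exact Submodule.FG.map _ Module.Finite.fg_top

end

section
variable {A : Type u} {H : Type v} [CommRing A] [StarRing A] [Group H] {V : Type v}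
  [MulAction H V] {T : TAct H V} {K : Type (max u v)} [AddCommGroup K] [Module A[H] K]

/-- **the first transfer** -/
theorem Good.ge {F : EqFam A H V K} (hF : Good T F)
    (hfin : Finite (MulAction.orbitRel.Quotient H T.E))
    (hn : ∀ L : Subgroup H, T.Stab L → IsNoetherianRing A[L]) {p : ℕ}
    (h : ∀ L : Subgroup H, T.Stab L → Loc A[L] p (Rs L K)) : GE A[H] p K := by
  cases p with
  | zero => exact fun l hl => absurd hl (Nat.not_lt_zero l)
  | succ p =>
    obtain ⟨n, x, T0, m, e, T1, h1, h2, h3, h4⟩ := hF.exists_res hfin hn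
    obtain ⟨φ, ψ, h5, h6, h7⟩ := hF.ses
    refine GE.quot φ ψ h5 h6 h7 ?_ ?_
    · refine ge_tot _ e T1 h3 h4 fun i => ?_
      exact ((h _ (Or.inr ⟨e i, rfl⟩)).mono (Nat.le_succ p)) _
        (hF.edge_fg (e i) (hn _ (Or.inr ⟨e i, rfl⟩)))
    · refine ge_tot _ x T0 h1 h2 fun i => ?_
      exact h _ (Or.inl ⟨x i, rfl⟩) _ (hF.fg _ (Or.inl ⟨x i, rfl⟩) (x i) (stab_fix _))

end

end Pool.Agent.UP25
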