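import Mathlib
import Pool.Agent.Lib.UP25.Ses

/-!
# TANK UP, stage 3: the modules `E^(p+1)` over the group rings of the stabilisers
-/

set_option autoImplicit false
set_option linter.unusedSectionVars false

open MonoidAlgebra Pool.Agent.UP Pool.Agent.UPV

namespace Pool.Agent.UP25

universe u v w

/-- transport of a resolution -/
theorem res_equiv {R : Type u} [Ring R] {T : RC R} {M : Type w} [AddCommGroup M] [Module R M]
    {N : Type w} [AddCommGroup N] [Module R N] (r : Res T M) (e : M ≃ₗ[R] N) :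
    Nonempty (Res T N) :=
  ⟨⟨(e : M →ₗ[R] N).comp r.ε, e.surjective.comp r.surj,
    fun x => (congrArg e (r.zero x)).trans (map_zero e),
    fun x hx => r.ker x (e.map_eq_zero_iff.1 hx), r.ex⟩⟩

section
variable {A : Type u} {H : Type v} [CommRing A] [StarRing A] [Group H] {V : Type v}
  [MulAction H V] {T : TAct H V} {K : Type (max u v)} [AddCommGroup K] [Module A[H] K]

attribute [local instance] starMA

/-- the statement of row S1 -/
def LocSum (A : Type u) [CommRing A] [StarRing A] (H : Type v) [Group H] (M : Subgroup H) : Prop :=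
  ∀ {n : ℕ} (L : Fin n → Subgroup H) (T : ∀ i, RC A[L i]), (∀ i k, (T i).Ex k) →
    (∀ i, NAR A (L i)) → (∀ (g : H) (i : Fin n), Cms (cjg g (L i)) M) →
    ∀ p : ℕ, Loc A[M] p (Rs M ((sumRC L T).E p))

theorem Good.alpha {F : EqFam A H V K} (hF : Good T F)
    (hfin : Finite (MulAction.orbitRel.Quotient H T.E))
    (hn : ∀ L : Subgroup H, T.Stab L → NAR A L)
    {M : Subgroup H} (hM : T.Stab M) (hS : LocSum A H M)
    (hc : ∀ (L : Subgroup H) (g : H), T.Stab L → Cms (cjg g L) M)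
    {P : RC A[H]} (r : Res P K) (p : ℕ) : Loc A[M] p (Rs M (P.E (p + 1))) := by
  have hno : ∀ L : Subgroup H, T.Stab L → IsNoetherianRing A[L] := fun L hL => (hn L hL).noetherian
  have hnoM := hno M hM
  obtain ⟨n, x, T0, m, e, T1, h1, ⟨r0⟩, h3, ⟨r1⟩⟩ := hF.exists_res hfin hno
  obtain ⟨φ, ψ, h5, h6, h7⟩ := hF.ses
  obtain ⟨f, hf⟩ := exists_lift r1 r0 φ
  obtain ⟨rc⟩ := cone_res_lin f r1 r0 φ h5 hf
  obtain ⟨rK⟩ := res_equiv rc ((Submodule.quotEquivOfEq _ _ h7).trans
    (ψ.quotKerEquivOfSurjective h6))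
  obtain ⟨eE⟩ := E_equiv r rK (p + 1)
  obtain ⟨i, q, hiq, -⟩ := cone_E f p
  have hL1 : Loc A[M] p (Rs M ((sumRC (fun i => MulAction.stabilizer H (e i)) T1).E p)) :=
    hS _ T1 (fun i => (h3 i).some.ex) (fun i => hn _ (Or.inr ⟨e i, rfl⟩))
      (fun g i => hc _ g (Or.inr ⟨e i, rfl⟩)) p
  have hL0 : Loc A[M] p (Rs M ((sumRC (fun i => MulAction.stabilizer H (x i)) T0).E (p + 1))) :=
    (hS _ T0 (fun i => (h1 i).some.ex) (fun i => hn _ (Or.inl ⟨x i, rfl⟩))
      (fun g i => hc _ g (Or.inl ⟨x i, rfl⟩)) (p + 1)).mono (Nat.le_succ p)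
  have hL : Loc A[M] p (Rs M ((cone f).E (p + 1))) := by
    refine Loc.of_exact (rsMap M i) (rsMap M q) ?_ hL1 hL0
    intro k hk
    have hk' : (toRs M _).symm k ∈ LinearMap.ker q := hk
    rw [← hiq] at hk'
    obtain ⟨y, hy⟩ := hk'
    exact ⟨toRs M _ y, hy⟩
  exact Loc.of_injective (rsMap M (eE : P.E (p + 1) →ₗ[A[H]] (cone f).E (p + 1)))
    (fun a b hab => eE.injective hab) hL

end

end Pool.Agent.UP25
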