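import Mathlib
import Pool.Agent.Lib.UP25.Ses

/-!
# TANK UP, stage 3: lattices in free modules, good families on finitely presented modules
-/

set_option autoImplicit false
set_option linter.unusedSectionVars false

open MonoidAlgebra Pool.Agent.UP Pool.Agent.UPV

namespace Pool.Agent.UP25

universe u v w

section
variable {H : Type v} [Group H] {V : Type v} [MulAction H V] (T : TAct H V)

theorem lat_walk (h : H) {x y : V} (p : T.Γ.Walk x y) :
    ∃ q : T.Γ.Walk (h • x) (h • y), q.length = p.length := by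
  induction p with
  | nil => exact ⟨SimpleGraph.Walk.nil, rfl⟩
  | cons hadj p ih =>
    obtain ⟨q, hq⟩ := ih
    exact ⟨SimpleGraph.Walk.cons (T.adj h _ _ hadj) q, by
      rw [SimpleGraph.Walk.length_cons, SimpleGraph.Walk.length_cons, hq]⟩

theorem lat_dist_le (h : H) (x y : V) : T.Γ.dist (h • x) (h • y) ≤ T.Γ.dist x y := by
  obtain ⟨p, hp⟩ := T.tree.connected.exists_walk_length_eq_dist x y
  obtain ⟨q, hq⟩ := lat_walk T h p
  rw [← hp, ← hq]
  exact SimpleGraph.dist_le q

theorem lat_dist (h : H) (x y : V) : T.Γ.dist (h • x) (h • y) = T.Γ.dist x y := by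
  apply le_antisymm (lat_dist_le T h x y)
  have h1 := lat_dist_le T h⁻¹ (h • x) (h • y)
  rwa [inv_smul_smul, inv_smul_smul] at h1

variable {A : Type u} [CommRing A] (x0 : V) (ι : Type)

variable (A) in
/-- the vectors whose support is at distance `≤ m` from `x` -/
def lat (m : ℕ) (x : V) : AddSubgroup (ι → A[H]) where
  carrier := {y | ∀ a h, (y a).coeff h ≠ 0 → T.Γ.dist x (h • x0) ≤ m}
  add_mem' := by
    intro y z hy hz a h hh
    rw [Pi.add_apply, coeff_add, Finsupp.add_apply] at hh
    by_cases h1 : (y a).coeff h = 0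
    · rw [h1, zero_add] at hh
      exact hz a h hh
    · exact hy a h h1
  zero_mem' := by
    intro a h hh
    exact absurd (by rw [Pi.zero_apply, coeff_zero, Finsupp.zero_apply]) hh
  neg_mem' := by
    intro y hy a h hh
    refine hy a h fun h0 => hh ?_
    rw [Pi.neg_apply, coeff_neg, Finsupp.neg_apply, h0, neg_zero]

theorem mem_lat {m : ℕ} {x : V} {y : ι → A[H]} :
    y ∈ lat T A x0 ι m x ↔ ∀ a h, (y a).coeff h ≠ 0 → T.Γ.dist x (h • x0) ≤ m := Iff.rfl

variable {K : Type w} [AddCommGroup K] [Module A[H] K]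

/-- the family of the lattices in a submodule of a free module -/
noncomputable def latF (j : K →ₗ[A[H]] (ι → A[H])) (m : ℕ) : EqFam A H V K where
  U x := (lat T A x0 ι m x).comap j.toAddMonoidHom
  mem h b x k hk := by
    change j ((single h b : A[H]) • k) ∈ lat T A x0 ι m (h • x)
    replace hk : j k ∈ lat T A x0 ι m x := hk
    rw [map_smul]
    intro a g hg
    rw [Pi.smul_apply, smul_eq_mul, coeff_single_mul_apply] at hg
    have h1 := hk a (h⁻¹ * g) (fun h0 => hg (by rw [h0, mul_zero]))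
    rw [← lat_dist T h, ← mul_smul, mul_inv_cancel_left] at h1
    exact h1

theorem mem_latF (j : K →ₗ[A[H]] (ι → A[H])) (m : ℕ) (x : V) (k : K) :
    k ∈ (latF T x0 ι j m).U x ↔ j k ∈ lat T A x0 ι m x := Iff.rfl

/-- every vector lies in a lattice -/
theorem exists_lat [Finite ι] (y : ι → A[H]) (x : V) :
    ∃ m, ∀ m', m ≤ m' → y ∈ lat T A x0 ι m' x := by
  classical
  have := Fintype.ofFinite ι
  refine ⟨∑ a : ι, ∑ h ∈ (y a).coeff.support, T.Γ.dist x (h • x0), fun m' hm' a h hh => ?_⟩
  refine le_trans ?_ hm'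
  refine le_trans ?_ (Finset.single_le_sum (f := fun a => ∑ h ∈ (y a).coeff.support,
    T.Γ.dist x (h • x0)) (fun _ _ => Nat.zero_le _) (Finset.mem_univ a))
  exact Finset.single_le_sum (f := fun h => T.Γ.dist x (h • x0)) (fun _ _ => Nat.zero_le _)
    (Finsupp.mem_support_iff.2 hh)

/-- the lattices are finitely generated -/
theorem latF_fg [Finite ι] (j : K →ₗ[A[H]] (ι → A[H])) (hj : Function.Injective j) (m : ℕ)
    (L : Subgroup H) (hn : IsNoetherianRing A[L]) (x : V) (hx : ∀ h ∈ L, h • x = x)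
    (hC : ∃ C : Finset H, ∀ h : H, T.Γ.dist x (h • x0) ≤ m → ∃ c ∈ C, h * c⁻¹ ∈ L) :
    ((latF T x0 ι j m).loc L x hx).FG := by
  classical
  have := Fintype.ofFinite ι
  obtain ⟨C, hC⟩ := hC
  let G : C × ι → Rs L (ι → A[H]) := fun q =>
    toRs L _ (Pi.single q.2 (single (q.1 : H) 1 : A[H]))
  let N : Submodule A[L] (Rs L (ι → A[H])) := Submodule.span A[L] (Set.range G)
  have hN : N.FG := Submodule.fg_span (Set.finite_range G)
  have h1 : ∀ y : ι → A[H], y ∈ lat T A x0 ι m x → toRs L _ y ∈ N := by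
    intro y hy
    have h2 : y = ∑ a : ι, ∑ h ∈ (y a).coeff.support,
        (Pi.single a (single h ((y a).coeff h) : A[H]) : ι → A[H]) := by
      funext b
      rw [Finset.sum_apply, Finset.sum_eq_single b]
      · rw [Finset.sum_apply]
        simp only [Pi.single_eq_same]
        exact (sum_coeff_single (y b)).symm
      · intro a _ hab
        rw [Finset.sum_apply]
        exact Finset.sum_eq_zero fun h _ => Pi.single_eq_of_ne (Ne.symm hab) _
      · intro h
        exact absurd (Finset.mem_univ _) h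
    rw [h2, map_sum]
    refine Submodule.sum_mem _ fun a _ => ?_
    rw [map_sum]
    refine Submodule.sum_mem _ fun h hh => ?_
    obtain ⟨c, hc, hcL⟩ := hC h (hy a h (Finsupp.mem_support_iff.1 hh))
    have h3 : (Pi.single a (single h ((y a).coeff h) : A[H]) : ι → A[H]) =
        iotaN L (single (⟨h * c⁻¹, hcL⟩ : L) ((y a).coeff h)) •
          (Pi.single a (single c 1 : A[H]) : ι → A[H]) := by
      rw [iotaN_single, ← Pi.single_smul, smul_eq_mul, single_mul_single, mul_one]
      simp only [inv_mul_cancel_right]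
    rw [h3, ← toRs_smul]
    exact Submodule.smul_mem _ _ (Submodule.subset_span ⟨(⟨c, hc⟩, a), rfl⟩)
  have h2 : ((latF T x0 ι j m).loc L x hx).map (rsMap L j) ≤ N := by
    rintro _ ⟨k, hk, rfl⟩
    exact h1 _ hk
  have h3 : IsNoetherian A[L] N := isNoetherian_of_fg_of_noetherian _ hN
  have h4 : (((latF T x0 ι j m).loc L x hx).map (rsMap L j)).FG :=
    isNoetherian_submodule.1 h3 _ h2
  exact Submodule.fg_of_fg_map_injective (rsMap L j) (fun a b hab => hj hab) h4

/-- exactness for the lattices -/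
theorem latF_exact (j : K →ₗ[A[H]] (ι → A[H])) (m : ℕ) (f : V →₀ K)
    (hf : ∀ x, f x ∈ (latF T x0 ι j m).U x) (h0 : sumV V K f = 0) :
    ∃ g : T.E →₀ K, (∀ e, g e ∈ (latF T x0 ι j m).U e.1.1 ∧ g e ∈ (latF T x0 ι j m).U e.1.2) ∧
      bdE T.or K g = f := by
  refine tree_exact T.or T.tree (latF T x0 ι j m).U ?_ f hf h0
  rintro x y hxy k hk ⟨S, φ, hS, rfl⟩
  rw [mem_latF] at hk ⊢
  intro a h hh
  have h1 := hk a h hh
  have h2 : ∃ z ∈ S, (j (φ z) a).coeff h ≠ 0 := by
    by_contra hcon
    push Not at hcon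
    apply hh
    rw [map_sum, Finset.sum_apply]
    have h3 : ∀ S' ⊆ S, (∑ z ∈ S', j (φ z) a).coeff h = 0 := by
      classical
      intro S'
      induction S' using Finset.induction_on with
      | empty =>
        intro _
        rw [Finset.sum_empty, coeff_zero, Finsupp.zero_apply]
      | insert z S' hz ih =>
        intro hS'
        rw [Finset.sum_insert hz, coeff_add, Finsupp.add_apply,
          ih ((Finset.subset_insert z S').trans hS'),
          hcon z (hS' (Finset.mem_insert_self z S')), add_zero]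
    exact h3 S subset_rfl
  obtain ⟨z, hz, hzh⟩ := h2
  exact ball_step T.tree hxy (hS z hz).2 h1 ((hS z hz).1 a h hzh)

/-- the sums of the lattices -/
theorem latF_sum [Module.Finite A[H] K] [Finite ι] (j : K →ₗ[A[H]] (ι → A[H])) :
    ∃ m, ∀ m', m ≤ m' → ∀ k : K, ∃ f : V →₀ K, (∀ x, f x ∈ (latF T x0 ι j m').U x) ∧
      sumV V K f = k := by
  classical
  obtain ⟨s, hs⟩ := (Module.Finite.fg_top : (⊤ : Submodule A[H] K).FG)
  choose M hM using fun k : K => exists_lat T x0 ι (j k) x0
  refine ⟨∑ k ∈ s, M k, fun m' hm' k => ?_⟩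
  have h1 : ((sumL A H V K).comp (latF T x0 ι j m').tot.subtype).range = ⊤ := by
    rw [eq_top_iff, ← hs, Submodule.span_le]
    intro k hk
    have h2 : k ∈ (latF T x0 ι j m').U x0 := by
      refine hM k m' (le_trans ?_ hm')
      exact Finset.single_le_sum (f := M) (fun _ _ => Nat.zero_le _) hk
    refine ⟨⟨Tw.mk A H x0 k, (latF T x0 ι j m').mk_mem h2⟩, ?_⟩
    exact sumV_single x0 k
  have h2 : k ∈ ((sumL A H V K).comp (latF T x0 ι j m').tot.subtype).range := by
    rw [h1]; exact Submodule.mem_top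
  obtain ⟨f, hf⟩ := h2
  exact ⟨f.1, f.2, hf⟩

/-- the combinatorial facts on the tree, row S3 -/
def BallC : Prop :=
  ∀ L : Subgroup H, T.Stab L → ∀ (x0 x : V) (m : ℕ),
    ∃ C : Finset H, ∀ h : H, T.Γ.dist x (h • x0) ≤ m → ∃ c ∈ C, h * c⁻¹ ∈ L

/-- good families on finitely generated submodules of free modules -/
theorem good_sub [Module.Finite A[H] K] [Finite ι] (hB : BallC T)
    (hn : ∀ L : Subgroup H, T.Stab L → IsNoetherianRing A[L])
    (j : K →ₗ[A[H]] (ι → A[H])) (hj : Function.Injective j) :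
    ∃ m, ∀ m', m ≤ m' → Good T (latF T x0 ι j m') := by
  obtain ⟨m, hm⟩ := latF_sum T x0 ι j
  refine ⟨m, fun m' hm' => ⟨?_, hm m' hm', fun f hf h0 => latF_exact T x0 ι j m' f hf h0⟩⟩
  intro L hL x hx
  exact latF_fg T x0 ι j hj m' L (hn L hL) x hx (hB L hL x0 x m')

end

end Pool.Agent.UP25
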