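import Mathlib
import Pool.Agent.Lib.UP25.Lat
import Pool.Agent.Lib.UP.TrBr

/-!
# TANK UP, stage 3: good families on finitely presented modules; coherence
-/

set_option autoImplicit false
set_option linter.unusedSectionVars false

open MonoidAlgebra Pool.Agent.UP Pool.Agent.UPV

namespace Pool.Agent.UP25

universe u v w w'

section
variable {H : Type v} [Group H] {V : Type v} [MulAction H V] (T : TAct H V)
  {A : Type u} [CommRing A] {K : Type w} [AddCommGroup K] [Module A[H] K]
  {W : Type w'} [AddCommGroup W] [Module A[H] W]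

/-- the family of the images -/
noncomputable def EqFam.map (F : EqFam A H V K) (π : K →ₗ[A[H]] W) : EqFam A H V W where
  U x := (F.U x).map π.toAddMonoidHom
  mem := by
    rintro h a x _ ⟨k, hk, rfl⟩
    exact ⟨(single h a : A[H]) • k, F.mem h a x k hk, map_smul π _ _⟩

theorem sumV_mapRange {V : Type v} {K : Type w} [AddCommGroup K] {W : Type w'} [AddCommGroup W]
    (π : K →+ W) (f : V →₀ K) :
    sumV V W (Finsupp.mapRange.addMonoidHom π f) = π (sumV V K f) := by
  induction f using Finsupp.induction_linear with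
  | zero => rw [map_zero, map_zero, map_zero, map_zero]
  | add f g hf hg => rw [map_add, map_add, map_add, map_add, hf, hg]
  | single x k =>
    rw [sumV_single, Finsupp.mapRange.addMonoidHom_apply, Finsupp.mapRange_single, sumV_single]

theorem bdE_mapRange {K : Type w} [AddCommGroup K] {W : Type w'} [AddCommGroup W]
    (π : K →+ W) (g : T.E →₀ K) :
    bdE T.or W (Finsupp.mapRange.addMonoidHom π g) =
      Finsupp.mapRange.addMonoidHom π (bdE T.or K g) := by
  induction g using Finsupp.induction_linear with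
  | zero => rw [map_zero, map_zero, map_zero, map_zero]
  | add f g hf hg => rw [map_add, map_add, map_add, map_add, hf, hg]
  | single e k =>
    rw [Finsupp.mapRange.addMonoidHom_apply, Finsupp.mapRange_single, bdE_single, bdE_single,
      map_sub, Finsupp.mapRange.addMonoidHom_apply, Finsupp.mapRange.addMonoidHom_apply,
      Finsupp.mapRange_single, Finsupp.mapRange_single]

/-- lifts of finitely supported functions -/
theorem exists_lift_fn {V : Type v} {K : Type w} [AddCommGroup K] {W : Type w'} [AddCommGroup W]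
    (π : K →+ W) (U : V → AddSubgroup K) (f : V →₀ W) (hf : ∀ x, f x ∈ (U x).map π) :
    ∃ f' : V →₀ K, (∀ x, f' x ∈ U x) ∧ Finsupp.mapRange.addMonoidHom π f' = f := by
  classical
  have h1 : ∀ x, ∃ k ∈ U x, π k = f x := fun x => hf x
  choose k hk hkf using h1
  refine ⟨Finsupp.onFinset f.support (fun x => if f x = 0 then 0 else k x) (fun x hx => ?_), ?_, ?_⟩
  · rw [Finsupp.mem_support_iff]
    intro h0
    exact hx (if_pos h0)
  · intro x
    rw [Finsupp.onFinset_apply]
    split_ifs
    · exact (U x).zero_mem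
    · exact hk x
  · ext x
    rw [Finsupp.mapRange.addMonoidHom_apply, Finsupp.mapRange_apply, Finsupp.onFinset_apply]
    split_ifs with h0
    · rw [map_zero, h0]
    · exact hkf x

variable (x0 : V) {ι : Type}

include x0 in
/-- good families on quotients of free modules -/
theorem good_quot [Finite ι] (hB : BallC T)
    (hn : ∀ L : Subgroup H, T.Stab L → IsNoetherianRing A[L])
    (π : (ι → A[H]) →ₗ[A[H]] W) (hπ : Function.Surjective π) (hker : (LinearMap.ker π).FG) :
    ∃ F : EqFam A H V W, Good T F := by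
  have hfK : Module.Finite A[H] (LinearMap.ker π) := Module.Finite.iff_fg.2 hker
  obtain ⟨m1, hm1⟩ := good_sub T x0 ι hB hn (LinearMap.id : (ι → A[H]) →ₗ[A[H]] (ι → A[H]))
    Function.injective_id
  obtain ⟨m2, hm2⟩ := good_sub T x0 ι hB hn (LinearMap.ker π).subtype
    (LinearMap.ker π).subtype_injective
  have g1 := hm1 (max m1 m2) (le_max_left _ _)
  have g2 := hm2 (max m1 m2) (le_max_right _ _)
  obtain ⟨F0, hF0⟩ : ∃ F0, F0 = latF T x0 ι
    (LinearMap.id : (ι → A[H]) →ₗ[A[H]] (ι → A[H])) (max m1 m2) := ⟨_, rfl⟩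
  rw [← hF0] at g1
  refine ⟨F0.map π, ?_, ?_, ?_⟩
  · intro L hL x hx
    have h1 : (F0.map π).loc L x hx = (F0.loc L x hx).map (rsMap L π) := by
      apply le_antisymm
      · rintro _ ⟨k, hk, rfl⟩
        exact ⟨k, hk, rfl⟩
      · rintro _ ⟨k, hk, rfl⟩
        exact ⟨k, hk, rfl⟩
    rw [h1]
    exact (g1.fg L hL x hx).map _
  · intro k
    obtain ⟨k', rfl⟩ := hπ k
    obtain ⟨f, hf1, hf2⟩ := g1.sum k'
    refine ⟨Finsupp.mapRange.addMonoidHom π.toAddMonoidHom f, fun x => ?_, ?_⟩
    · exact ⟨f x, hf1 x, rfl⟩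
    · rw [sumV_mapRange, hf2]
      rfl
  · intro f hf h0
    obtain ⟨f', hf1, hf2⟩ := exists_lift_fn π.toAddMonoidHom F0.U f hf
    have h1 : sumV V (ι → A[H]) f' ∈ LinearMap.ker π := by
      have h2 := sumV_mapRange π.toAddMonoidHom f'
      rw [hf2, h0] at h2
      exact h2.symm
    obtain ⟨q, hq1, hq2⟩ := g2.sum ⟨_, h1⟩
    let q' : V →₀ (ι → A[H]) :=
      Finsupp.mapRange.addMonoidHom (LinearMap.ker π).subtype.toAddMonoidHom q
    have hq'1 : ∀ x, q' x ∈ F0.U x := by
      intro x
      rw [hF0]
      exact hq1 x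
    have hq'2 : sumV V (ι → A[H]) q' = sumV V (ι → A[H]) f' := by
      rw [sumV_mapRange, hq2]
      rfl
    have hq'3 : Finsupp.mapRange.addMonoidHom π.toAddMonoidHom q' = 0 := by
      ext x
      exact (q x).2
    obtain ⟨g, hg1, hg2⟩ := g1.exact (f' - q') (fun x => (F0.U x).sub_mem (hf1 x) (hq'1 x))
      (by rw [map_sub, hq'2, sub_self])
    refine ⟨Finsupp.mapRange.addMonoidHom π.toAddMonoidHom g, fun e => ?_, ?_⟩
    · exact ⟨⟨g e, (hg1 e).1, rfl⟩, ⟨g e, (hg1 e).2, rfl⟩⟩
    · rw [bdE_mapRange, hg2, map_sub, hf2, hq'3, sub_zero]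

/-- good families on finitely presented modules -/
theorem good_of_fp (hB : BallC T)
    (hn : ∀ L : Subgroup H, T.Stab L → IsNoetherianRing A[L])
    [Module.FinitePresentation A[H] W] : ∃ F : EqFam A H V W, Good T F := by
  obtain ⟨x0⟩ := T.tree.connected.nonempty
  obtain ⟨n, K, e, hK⟩ := Module.FinitePresentation.exists_fin A[H] W
  refine good_quot T x0 hB hn ((e.symm : ((Fin n → A[H]) ⧸ K) →ₗ[A[H]] W).comp K.mkQ)
    (e.symm.surjective.comp K.mkQ_surjective) ?_
  have h1 : LinearMap.ker ((e.symm : ((Fin n → A[H]) ⧸ K) →ₗ[A[H]] W).comp K.mkQ) = K := by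
    rw [LinearMap.ker_comp, LinearEquiv.ker, ← LinearMap.ker, Submodule.ker_mkQ]
  rw [h1]
  exact hK

/-- coherence from the finite generation of the left kernels -/
theorem cohT_of_ker {R : Type u} [Ring R] (h : ∀ (J K : Type) [Fintype J] [Fintype K]
    (D : Matrix J K R), (LinearMap.ker (Matrix.vecMulLinear D)).FG) : CohT R := by
  classical
  intro J K _ _ D
  let N : Submodule R (J → R) := LinearMap.ker (Matrix.vecMulLinear D)
  obtain ⟨S, hS⟩ : N.FG := h J K D
  let eq := S.equivFin
  refine ⟨S.card, fun i j => (eq.symm i : J → R) j, ?_, ?_⟩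
  · funext i k
    have h1 : ((eq.symm i : J → R)) ∈ N := by
      rw [← hS]
      exact Submodule.subset_span (eq.symm i).2
    have h2 : Matrix.vecMul (eq.symm i : J → R) D = 0 := h1
    exact congrFun h2 k
  · intro x hx
    have h1 : x () ∈ N := row_eq_iff.1 hx
    rw [← hS] at h1
    have h2 : Submodule.span R (S : Set (J → R)) =
        Submodule.span R (Set.range fun i : Fin S.card => (eq.symm i : J → R)) := by
      congr 1
      ext y
      constructor
      · intro hy
        exact ⟨eq ⟨y, hy⟩, by simp⟩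
      · rintro ⟨i, rfl⟩
        exact (eq.symm i).2
    rw [h2] at h1
    obtain ⟨c, hc⟩ := (Submodule.mem_span_range_iff_exists_fun R).1 h1
    refine ⟨fun _ i => c i, ?_⟩
    symm
    apply row_eq_iff.2
    change Matrix.vecMul c _ = x ()
    rw [← hc]
    funext j
    simp only [Matrix.vecMul, dotProduct, Finset.sum_apply, Pi.smul_apply, smul_eq_mul]

/-- **coherence** -/
theorem coh_of_tact (hB : BallC T) (hfin : Finite (MulAction.orbitRel.Quotient H T.E))
    (hn : ∀ L : Subgroup H, T.Stab L → IsNoetherianRing A[L]) : CohT A[H] := by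
  refine cohT_of_ker fun J K _ _ D => ?_
  obtain ⟨x0⟩ := T.tree.connected.nonempty
  let R := LinearMap.range (Matrix.vecMulLinear D)
  have hR : Module.Finite A[H] R := inferInstance
  obtain ⟨m, hm⟩ := good_sub T x0 K hB hn R.subtype R.subtype_injective
  have hfp : Module.FinitePresentation A[H] R := (hm m le_rfl).fp hfin hn
  have hker : (LinearMap.ker (Matrix.vecMulLinear D).rangeRestrict).FG :=
    Module.FinitePresentation.fg_ker _ (LinearMap.surjective_rangeRestrict _)
  rwa [LinearMap.ker_rangeRestrict] at hker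

end

end Pool.Agent.UP25
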