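import Mathlib
import Pool.Agent.Lib.UP25.LatQ
import Pool.Agent.Lib.UP25.Alpha

/-!
# TANK UP, stage 3: `CohT` and `AR1` for groups acting on locally finite trees
-/

set_option autoImplicit false
set_option linter.unusedSectionVars false
set_option linter.unusedVariables false

open MonoidAlgebra Pool.Agent.UP Pool.Agent.UPV

namespace Pool.Agent.UP25

universe u v w

/-- an exact complex is a resolution of its cokernel -/
theorem res_coker {R : Type u} [Ring R] (P : RC R) (hP : ∀ k, P.Ex k) :
    Nonempty (Res P ((P.ι 0 → R) ⧸ LinearMap.range (Matrix.vecMulLinear (P.D 0)))) :=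
  ⟨⟨Submodule.mkQ _, Submodule.mkQ_surjective _,
    fun x => (Submodule.Quotient.mk_eq_zero _).2 ⟨x, rfl⟩,
    fun x hx => (Submodule.Quotient.mk_eq_zero _).1 hx, hP⟩⟩

section
variable {A : Type u} {H : Type v} [CommRing A] [StarRing A] [Group H] {V : Type v}
  [MulAction H V] (T : TAct H V)

attribute [local instance] starMA

theorem ar1_tact (hB : BallC T) (hfin : Finite (MulAction.orbitRel.Quotient H T.E))
    (hn : ∀ L : Subgroup H, T.Stab L → NAR A L)
    (hc : ∀ L M : Subgroup H, T.Stab L → T.Stab M → ∀ g : H, Cms (cjg g L) M)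
    (hS : ∀ M : Subgroup H, T.Stab M → LocSum A H M) : CohT A[H] ∧ AR1 A[H] := by
  have hno : ∀ L : Subgroup H, T.Stab L → IsNoetherianRing A[L] := fun L hL => (hn L hL).noetherian
  have hcoh : CohT A[H] := coh_of_tact T hB hfin hno
  refine ⟨hcoh, fun P hP p N hN => ?_⟩
  have h1 := fp_E hcoh P (p + 1)
  have h2 := fp_submodule hcoh N hN
  obtain ⟨F, hF⟩ := good_of_fp T (W := N) hB hno
  refine hF.ge hfin hno fun M hM => ?_
  obtain ⟨r⟩ := res_coker P hP
  have h3 := fp_coker P
  obtain ⟨F', hF'⟩ := good_of_fp T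
    (W := (P.ι 0 → A[H]) ⧸ LinearMap.range (Matrix.vecMulLinear (P.D 0))) hB hno
  have h4 := hF'.alpha hfin hn hM (hS M hM) (fun L g hL => hc L M hL hM g) r p
  exact Loc.of_injective (rsMap M N.subtype) (fun a b hab => N.subtype_injective hab) h4

end

end Pool.Agent.UP25
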