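import Mathlib
import Pool.Agent.Lib.UPV.V6
import Pool.Agent.Lib.UP.F2

/-!
# TANK UP, stage 3, row S1, first part (helper62)

The Frobenius extension `A[K] → A[G]` of an injective homomorphism `K → G` with image of finite
index; submodules of sums of submodules with the property `Loc`.
-/

set_option autoImplicit false

open MonoidAlgebra Pool.Agent.UP Pool.Agent.UPV

namespace Pool.Agent.UP25

universe u v

section
variable {A : Type u} {K G : Type v} [CommRing A] [Group K] [Group G] (κ : K →* G)

/-- restriction of the support along an injective homomorphism -/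
noncomputable def psiK (hκ : Function.Injective κ) : MonoidAlgebra A G →+ MonoidAlgebra A K :=
  ((coeffAddEquiv (R := A) (M := K)).symm : (K →₀ A) →+ MonoidAlgebra A K).comp
    ((Finsupp.comapDomain.addMonoidHom hκ).comp
      ((coeffAddEquiv (R := A) (M := G)) : MonoidAlgebra A G →+ (G →₀ A)))

theorem psiK_coeff (hκ : Function.Injective κ) (x : MonoidAlgebra A G) (n : K) :
    (psiK κ hκ x).coeff n = x.coeff (κ n) := rfl

theorem psiK_single (hκ : Function.Injective κ) (k : K) (a : A) :
    psiK κ hκ (single (κ k) a) = single k a := by
  apply coeff_injective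
  ext n
  rw [psiK_coeff, coeff_single, coeff_single]
  by_cases hn : k = n
  · rw [hn, Finsupp.single_eq_same, Finsupp.single_eq_same]
  · have hn' : κ k ≠ κ n := fun h' => hn (hκ h')
    classical
    rw [Finsupp.single_apply, if_neg hn', Finsupp.single_apply, if_neg hn]

theorem psiK_single_of_not_mem (hκ : Function.Injective κ) {h : G} (hN : h ∉ κ.range) (a : A) :
    psiK κ hκ (single h a) = 0 := by
  apply coeff_injective
  ext n
  classical
  rw [psiK_coeff, coeff_single, coeff_zero, Finsupp.zero_apply, Finsupp.single_apply, if_neg]
  rintro rfl
  exact hN ⟨n, rfl⟩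

/-- the map of group rings -/
noncomputable abbrev iotaK : MonoidAlgebra A K →+* MonoidAlgebra A G :=
  MonoidAlgebra.mapDomainRingHom A κ

theorem iotaK_single (n : K) (a : A) : iotaK κ (single n a) = single (κ n) a := by
  change MonoidAlgebra.mapDomain _ _ = _
  exact mapDomain_single

theorem psiK_left (hκ : Function.Injective κ) (r : MonoidAlgebra A K) (s : MonoidAlgebra A G) :
    psiK κ hκ (iotaK κ r * s) = r * psiK κ hκ s := by
  induction r using MonoidAlgebra.induction_linear with
  | zero => rw [map_zero, zero_mul, map_zero, zero_mul]
  | add x y hx hy => rw [map_add, add_mul, map_add, hx, hy, add_mul]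
  | single n a =>
    induction s using MonoidAlgebra.induction_linear with
    | zero => rw [mul_zero, map_zero, mul_zero]
    | add x y hx hy => rw [mul_add, map_add, hx, hy, map_add, mul_add]
    | single h b =>
      rw [iotaK_single, single_mul_single]
      by_cases hN : h ∈ κ.range
      · obtain ⟨k, rfl⟩ := hN
        rw [psiK_single, ← map_mul, psiK_single, single_mul_single]
      · rw [psiK_single_of_not_mem κ hκ hN, psiK_single_of_not_mem κ hκ, mul_zero]
        intro h'
        exact hN ((κ.range.mul_mem_cancel_left ⟨n, rfl⟩).1 h')

variable [StarRing A]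

/-- the group ring of a group along an injective homomorphism with image of finite index: a
Frobenius extension -/
theorem exists_frob_hom (hκ : Function.Injective κ) (hN : κ.range.FiniteIndex) :
    ∃ F : @Frob (MonoidAlgebra A K) (MonoidAlgebra A G) _ (starMA A K) _ (starMA A G),
      @Frob.ι _ _ _ (starMA A K) _ (starMA A G) F = iotaK κ := by
  classical
  obtain ⟨n, g, c, hc⟩ := exists_reps κ.range hN
  let := starMA A K
  let := starMA A G
  refine ⟨⟨iotaK κ, psiK κ hκ, n, fun i => single (g i) 1, psiK_left κ hκ, ?_, ?_, ?_, ?_⟩, rfl⟩
  · intro s
    induction s using MonoidAlgebra.induction_linear with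
    | zero => rw [star_zero, map_zero, star_zero]
    | add x y hx hy => rw [star_add, map_add, hx, hy, map_add, star_add]
    | single h b =>
      change psiK κ hκ ((starMA A G).star (single h b)) = (starMA A K).star (psiK κ hκ (single h b))
      rw [starMA_single]
      by_cases hN : h ∈ κ.range
      · obtain ⟨k, rfl⟩ := hN
        rw [psiK_single, ← map_inv, psiK_single, starMA_single]
      · rw [psiK_single_of_not_mem κ hκ hN, psiK_single_of_not_mem κ hκ, starMA_zero]
        intro h'
        exact hN (κ.range.inv_mem_iff.1 h')
  · intro r
    exact starMA_map κ r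
  · intro s
    induction s using MonoidAlgebra.induction_linear with
    | zero =>
      refine Finset.sum_eq_zero fun i _ => ?_
      rw [zero_mul, map_zero, map_zero, zero_mul]
    | add x y hx hy =>
      refine Eq.trans ?_ (congrArg₂ (· + ·) hx hy)
      refine Eq.trans ?_ Finset.sum_add_distrib
      refine Finset.sum_congr rfl fun i _ => ?_
      rw [add_mul, map_add, map_add, add_mul]
    | single h b =>
      rw [Finset.sum_eq_single (c h)]
      · change iotaK κ (psiK κ hκ (single h b * (starMA A G).star (single (g (c h)) 1))) * _ = _
        obtain ⟨k, hk⟩ := (hc h (c h)).2 rfl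
        rw [starMA_single, star_one, single_mul_single, ← hk, psiK_single,
          iotaK_single, single_mul_single, hk]
        simp
      · intro i _ hi
        change iotaK κ (psiK κ hκ (single h b * (starMA A G).star (single (g i) 1))) * _ = _
        rw [starMA_single, star_one, single_mul_single, psiK_single_of_not_mem κ hκ, map_zero,
          zero_mul]
        intro h'
        exact hi ((hc h i).1 h').symm
      · intro h'
        exact absurd (Finset.mem_univ _) h'
  · intro i j
    change psiK κ hκ (single (g i) 1 * (starMA A G).star (single (g j) 1)) = _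
    rw [starMA_single, star_one, single_mul_single, mul_one]
    have hii : c (g i) = i := (hc (g i) i).1 (by rw [mul_inv_cancel]; exact κ.range.one_mem)
    by_cases hij : i = j
    · subst hij
      rw [if_pos rfl, mul_inv_cancel, one_def]
      have h1 := psiK_single κ hκ 1 (1 : A)
      rw [map_one] at h1
      exact h1
    · rw [if_neg hij, psiK_single_of_not_mem κ hκ]
      intro h'
      exact hij (hii.symm.trans ((hc (g i) j).1 h'))

end

section
variable {R : Type u} [Ring R] [IsNoetherianRing R] {p : ℕ} {E : Type u} [AddCommGroup E]
  [Module R E]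

theorem loc_finset {I : Type v} (Q : I → Submodule R E) (h : ∀ i, Loc R p (Q i))
    {M' : Type u} [AddCommGroup M'] [Module R M'] (h0 : Loc R p M') (F : Finset I) :
    Loc R p (F.sup Q : Submodule R E) := by
  classical
  induction F using Finset.induction_on with
  | empty =>
    refine Loc.of_injective (0 : ((∅ : Finset I).sup Q : Submodule R E) →ₗ[R] M') ?_ h0
    rintro ⟨x, hx⟩ ⟨y, hy⟩ _
    rw [Finset.sup_empty, Submodule.mem_bot] at hx hy
    exact Subtype.ext (hx.trans hy.symm)
  | insert i F hi ih =>
    rw [Finset.sup_insert]
    exact Loc.sup (h i) ih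

/-- finitely generated submodules of sums of `Loc` submodules -/
theorem ge_of_le_iSup {I : Type v} (Q : I → Submodule R E) (h : ∀ i, Loc R p (Q i))
    {M' : Type u} [AddCommGroup M'] [Module R M'] (h0 : Loc R p M') (N : Submodule R E)
    (hN : N.FG) (hle : N ≤ ⨆ i, Q i) : GE R p N := by
  obtain ⟨F, hF⟩ := CompleteLattice.IsCompactElement.exists_finset_of_le_iSup _ ((Submodule.fg_iff_compact N).1 hN) _ hle
  rw [← Finset.sup_eq_iSup] at hF
  have : Module.Finite R N := Module.Finite.iff_fg.2 hN
  exact Loc.ge (Loc.of_injective (Submodule.inclusion hF) (Submodule.inclusion_injective hF)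
    (loc_finset Q h h0 F))

end

end Pool.Agent.UP25
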