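import Mathlib
import Pool.Agent.Lib.UP25.TDefs
import Pool.Agent.Lib.UP25.Blk
import Pool.Agent.Lib.UP25.S1a

/-!
# TANK UP, stage 3, row S1 (helper62)

The modules `E^p` of a direct sum of complexes induced from subgroups `L i`, over the group ring of
a subgroup `M` commensurable with all the conjugates of the `L i`.
-/

set_option autoImplicit false

open MonoidAlgebra Pool.Agent.UP Pool.Agent.UPV

namespace Pool.Agent.UP25

universe u v

section S1
variable {A : Type u} {H : Type v} [CommRing A] [StarRing A] [Group H] {n : ℕ}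
attribute [local instance] starMA

section cover
variable (L : Fin n → Subgroup H) (T : ∀ i, RC A[L i]) (p : ℕ)

/-- the image of the block `b.2`, moved by `b.1` -/
def QS (b : H × Fin n) : Set ((sumRC L T).E p) :=
  Set.range fun e => (single b.1 1 : A[H]) • jE L T p b.2 e

theorem QS_smul (b : H × Fin n) (h : H) (a : A) {x : (sumRC L T).E p} (hx : x ∈ QS L T p b) :
    (single h a : A[H]) • x ∈ QS L T p (h * b.1, b.2) := by
  obtain ⟨e, rfl⟩ := hx
  refine ⟨(single 1 a : A[L b.2]) • e, ?_⟩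
  change (single (h * b.1) 1 : A[H]) • jE L T p b.2 ((single 1 a : A[L b.2]) • e) = _
  rw [LinearMap.map_smulₛₗ, smul_smul, smul_smul]
  congr 1
  change single (h * b.1) 1 * iotaN (L b.2) (single 1 a) = single h a * single b.1 1
  rw [iotaN_single, single_mul_single, single_mul_single, one_mul, mul_one, OneMemClass.coe_one,
    mul_one]

/-- every element is a sum of elements of finitely many `QS` -/
theorem QS_cover (x : (sumRC L T).E p) : ∃ B : Finset (H × Fin n),
    x ∈ AddSubmonoid.closure (⋃ b ∈ B, QS L T p b) := by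
  classical
  have h1 : ∀ x : (sumRC L T).E p, x ∈ AddSubmonoid.closure (⋃ b, QS L T p b) := by
    intro x
    have hx : x ∈ Submodule.span A[H] (⋃ i, Set.range (jE L T p i)) := by
      rw [jE_span]; exact Submodule.mem_top
    induction hx using Submodule.span_induction with
    | mem x hx =>
      obtain ⟨i, e, rfl⟩ := Set.mem_iUnion.1 hx
      refine AddSubmonoid.subset_closure (Set.mem_iUnion.2 ⟨(1, i), e, ?_⟩)
      change (single 1 1 : A[H]) • jE L T p i e = _
      rw [← one_def, one_smul]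
    | zero => exact AddSubmonoid.zero_mem _
    | add x y _ _ hx hy => exact AddSubmonoid.add_mem _ hx hy
    | smul s x hx0 hx =>
      clear hx0
      induction s using MonoidAlgebra.induction_linear with
      | zero => rw [zero_smul]; exact AddSubmonoid.zero_mem _
      | add s t hs ht => rw [add_smul]; exact AddSubmonoid.add_mem _ hs ht
      | single h a =>
        induction hx using AddSubmonoid.closure_induction with
        | mem x hx =>
          obtain ⟨b, hb⟩ := Set.mem_iUnion.1 hx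
          exact AddSubmonoid.subset_closure (Set.mem_iUnion.2 ⟨_, QS_smul L T p b h a hb⟩)
        | zero => rw [smul_zero]; exact AddSubmonoid.zero_mem _
        | add x y _ _ hx hy => rw [smul_add]; exact AddSubmonoid.add_mem _ hx hy
  have h2 := h1 x
  induction h2 using AddSubmonoid.closure_induction with
  | mem x hx =>
    obtain ⟨b, hb⟩ := Set.mem_iUnion.1 hx
    exact ⟨{b}, AddSubmonoid.subset_closure (by simpa using hb)⟩
  | zero => exact ⟨∅, AddSubmonoid.zero_mem _⟩
  | add x y _ _ hx hy =>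
    obtain ⟨B1, h1⟩ := hx
    obtain ⟨B2, h2⟩ := hy
    refine ⟨B1 ∪ B2, AddSubmonoid.add_mem _ (AddSubmonoid.closure_mono ?_ h1)
      (AddSubmonoid.closure_mono ?_ h2)⟩
    · exact Set.biUnion_subset_biUnion_left fun b hb => by
        simp only [Finset.coe_union]
        exact Or.inl hb
    · exact Set.biUnion_subset_biUnion_left fun b hb => by
        simp only [Finset.coe_union]
        exact Or.inr hb

end cover

/-! ### the group theory -/

/-- conjugation into `L`: `μ ↦ c⁻¹ μ c` -/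
def kap (M : Subgroup H) (M0 : Subgroup M) (L : Subgroup H) (c : H)
    (h : ∀ μ : M0, c⁻¹ * ((μ : M) : H) * c ∈ L) : M0 →* L where
  toFun μ := ⟨c⁻¹ * ((μ : M) : H) * c, h μ⟩
  map_one' := by
    apply Subtype.ext
    change c⁻¹ * (((1 : M0) : M) : H) * c = 1
    simp
  map_mul' x y := by
    apply Subtype.ext
    change c⁻¹ * (((x * y : M0) : M) : H) * c = (c⁻¹ * ((x : M) : H) * c) * (c⁻¹ * ((y : M) : H) * c)
    simp only [Subgroup.coe_mul]
    group

theorem kap_inj (M : Subgroup H) (M0 : Subgroup M) (L : Subgroup H) (c : H)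
    (h : ∀ μ : M0, c⁻¹ * ((μ : M) : H) * c ∈ L) : Function.Injective (kap M M0 L c h) := by
  intro x y hxy
  have h1 : c⁻¹ * ((x : M) : H) * c = c⁻¹ * ((y : M) : H) * c := congrArg Subtype.val hxy
  apply Subtype.ext
  apply Subtype.ext
  simpa using h1

theorem kap_fin (M : Subgroup H) (M0 : Subgroup M) (hM0 : M0.FiniteIndex) (L : Subgroup H) (c : H)
    (h : ∀ μ : M0, c⁻¹ * ((μ : M) : H) * c ∈ L) (hc : Cms (cjg c L) M) :
    (kap M M0 L c h).range.FiniteIndex := by
  -- `M0` as a subgroup of `H`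
  set M1 : Subgroup H := M0.map M.subtype with hM1
  have hM1M : M1 ≤ M := by
    rintro _ ⟨μ, _, rfl⟩
    exact μ.2
  have h1 : M1.relIndex M ≠ 0 := by
    have h2 : M1.subgroupOf M = M0 := Subgroup.comap_map_eq_self_of_injective M.subtype_injective M0
    rw [Subgroup.relIndex, h2]
    exact hM0.index_ne_zero
  have h2 : M1 ≤ cjg c L := by
    rintro _ ⟨μ, hμ, rfl⟩
    refine ⟨c⁻¹ * (μ : H) * c, h ⟨μ, hμ⟩, ?_⟩
    change c * (c⁻¹ * (μ : H) * c) * c⁻¹ = (μ : H)
    group
  have h3 : M1.relIndex (cjg c L ⊓ M) ≠ 0 := fun h0 =>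
    h1 (Subgroup.relIndex_eq_zero_of_le_right inf_le_right h0)
  have h4 : M1.relIndex (cjg c L) ≠ 0 := Subgroup.relIndex_ne_zero_trans h3 hc.1
  -- back by conjugation
  have h5 : ((M1.map (MulAut.conj c⁻¹).toMonoidHom).relIndex
      ((cjg c L).map (MulAut.conj c⁻¹).toMonoidHom)) ≠ 0 := by
    rw [Subgroup.relIndex_map_map_of_injective _ _ (MulAut.conj c⁻¹).injective]
    exact h4
  have h6 : (cjg c L).map (MulAut.conj c⁻¹).toMonoidHom = L := by
    ext x
    constructor
    · rintro ⟨_, ⟨y, hy, rfl⟩, rfl⟩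
      change c⁻¹ * (c * y * c⁻¹) * c⁻¹⁻¹ ∈ L
      have : c⁻¹ * (c * y * c⁻¹) * c⁻¹⁻¹ = y := by group
      rw [this]
      exact hy
    · intro hx
      refine ⟨c * x * c⁻¹, ⟨x, hx, rfl⟩, ?_⟩
      change c⁻¹ * (c * x * c⁻¹) * c⁻¹⁻¹ = x
      group
  rw [h6, Subgroup.relIndex] at h5
  have h7 : (M1.map (MulAut.conj c⁻¹).toMonoidHom).subgroupOf L = (kap M M0 L c h).range := by
    ext ⟨x, hx⟩
    constructor
    · rintro ⟨_, ⟨μ, hμ, rfl⟩, h8⟩
      refine ⟨⟨μ, hμ⟩, ?_⟩
      apply Subtype.ext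
      change c⁻¹ * (μ : H) * c = x
      have h9 : c⁻¹ * (μ : H) * c⁻¹⁻¹ = x := h8
      rw [← h9, inv_inv]
    · rintro ⟨⟨μ, hμ⟩, h8⟩
      refine ⟨_, ⟨μ, hμ, rfl⟩, ?_⟩
      have h9 : c⁻¹ * (μ : H) * c = x := congrArg Subtype.val h8
      change c⁻¹ * (μ : H) * c⁻¹⁻¹ = x
      rw [← h9, inv_inv]
  rw [h7] at h5
  exact ⟨h5⟩

/-- a normal subgroup of finite index of `M`, contained in finitely many commensurable subgroups -/
theorem exists_core (M : Subgroup H) {I : Type v} (B : Finset I) (K : I → Subgroup H)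
    (h : ∀ i, Cms (K i) M) : ∃ M0 : Subgroup M, M0.FiniteIndex ∧ M0.Normal ∧
      ∀ i ∈ B, ∀ μ ∈ M0, (μ : H) ∈ K i := by
  have h1 : ∀ i, ((K i).subgroupOf M).FiniteIndex := by
    intro i
    have h2 := (h i).2
    rw [Subgroup.relIndex, Subgroup.inf_subgroupOf_right] at h2
    exact ⟨h2⟩
  have h2 : (⨅ i ∈ B, (K i).subgroupOf M).FiniteIndex :=
    Subgroup.finiteIndex_iInf' _ fun i _ => h1 i
  refine ⟨(⨅ i ∈ B, (K i).subgroupOf M).normalCore, inferInstance, inferInstance, ?_⟩
  intro i hi μ hμ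
  have h3 := Subgroup.normalCore_le _ hμ
  simp only [Subgroup.mem_iInf] at h3
  exact h3 i hi

end S1

end Pool.Agent.UP25
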