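import Mathlib
import Pool.Agent.Lib.UP25.S1

/-!
# TANK UP, stage 3, row S1, main theorem (helper62)
-/

set_option autoImplicit false

open MonoidAlgebra Pool.Agent.UP Pool.Agent.UPV

namespace Pool.Agent.UP25

universe u v

section S1
variable {A : Type u} {H : Type v} [CommRing A] [StarRing A] [Group H] {n : ℕ}
attribute [local instance] starMA

theorem kap_key (M : Subgroup H) (M0 : Subgroup M) (L : Subgroup H) (c : H)
    (h : ∀ μ : M0, c⁻¹ * ((μ : M) : H) * c ∈ L) (r : A[M0]) :
    (single c 1 : A[H]) * iotaN L (iotaK (kap M M0 L c h) r) =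
      iotaN M (iotaN M0 r) * single c 1 := by
  induction r using MonoidAlgebra.induction_linear with
  | zero => simp only [map_zero, mul_zero, zero_mul]
  | add x y hx hy => simp only [map_add, mul_add, add_mul, hx, hy]
  | single μ a =>
    rw [iotaK_single, iotaN_single, iotaN_single, iotaN_single, single_mul_single,
      single_mul_single, one_mul, mul_one]
    congr 1
    change c * (c⁻¹ * ((μ : M) : H) * c) = ((μ : M) : H) * c
    group

/-- **S1** -/
theorem loc_sumRC (L : Fin n → Subgroup H) (T : ∀ i, RC A[L i]) (hT : ∀ i k, (T i).Ex k)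
    (hL : ∀ i, NAR A (L i)) (M : Subgroup H) (hM : NAR A M)
    (hc : ∀ (g : H) (i : Fin n), Cms (cjg g (L i)) M) (p : ℕ) :
    letI : Module A[M] ((sumRC L T).E p) := Module.compHom _ (iotaN (A := A) M)
    Loc A[M] p ((sumRC L T).E p) := by
  classical
  letI iM : Module A[M] ((sumRC L T).E p) := Module.compHom _ (iotaN (A := A) M)
  change Loc A[M] p ((sumRC L T).E p)
  have hnM : IsNoetherianRing A[M] := hM.noetherian
  intro N hN
  have hfinN : Module.Finite A[M] N := Module.Finite.iff_fg.2 hN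
  obtain ⟨S, hS⟩ := hN
  choose B hB using QS_cover L T p
  obtain ⟨M0, hfin, hnorm, hM0⟩ := exists_core M (S.biUnion B) (fun b => cjg b.1 (L b.2))
    (fun b => hc b.1 b.2)
  have hNAR0 : NAR A M0 := hM.of_injective M0.subtype M0.subtype_injective
  have hn0 : IsNoetherianRing A[M0] := hNAR0.noetherian
  have har0 : AR A[M0] := hNAR0.ar
  letI i0 : Module A[M0] ((sumRC L T).E p) :=
    Module.compHom _ ((iotaN (A := A) M).comp (iotaN (A := A) M0))
  have hk : ∀ (j : M × {b // b ∈ S.biUnion B}) (μ : M0),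
      ((j.1 : H) * j.2.1.1)⁻¹ * ((μ : M) : H) * ((j.1 : H) * j.2.1.1) ∈ L j.2.1.2 := by
    rintro ⟨m, ⟨⟨g, i⟩, hb⟩⟩ μ
    have h1 : m⁻¹ * (μ : M) * m ∈ M0 := by
      have := hnorm.conj_mem (μ : M) μ.2 m⁻¹
      rwa [inv_inv] at this
    obtain ⟨l, hl, h2⟩ := hM0 (g, i) hb _ h1
    change g * l * g⁻¹ = (m : H)⁻¹ * ((μ : M) : H) * (m : H) at h2
    change ((m : H) * g)⁻¹ * ((μ : M) : H) * ((m : H) * g) ∈ L i
    have h3 : ((m : H) * g)⁻¹ * ((μ : M) : H) * ((m : H) * g) =
        g⁻¹ * ((m : H)⁻¹ * ((μ : M) : H) * (m : H)) * g := by group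
    rw [h3, ← h2]
    have h4 : g⁻¹ * (g * l * g⁻¹) * g = l := by group
    rw [h4]
    exact hl
  have hF := fun j : M × {b // b ∈ S.biUnion B} =>
    exists_frob_hom (A := A) (kap M M0 (L j.2.1.2) _ (hk j)) (kap_inj _ _ _ _ _)
      (kap_fin M M0 hfin (L j.2.1.2) _ (hk j) (hc _ _))
  choose F hFi using hF
  have hkey : ∀ (j : M × {b // b ∈ S.biUnion B}) (r : A[M0]),
      (single ((j.1 : H) * j.2.1.1) 1 : A[H]) * iotaN (L j.2.1.2) ((F j).ι r) =
        iotaN M (iotaN M0 r) * single ((j.1 : H) * j.2.1.1) 1 := by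
    intro j r
    rw [hFi j]
    exact kap_key M M0 (L j.2.1.2) _ (hk j) r
  -- the submodules
  let φ : ∀ j : M × {b // b ∈ S.biUnion B},
      ((F j).rc (T j.2.1.2)).E p →ₗ[A[M0]] (sumRC L T).E p := fun j =>
    { toFun := fun y => (single ((j.1 : H) * j.2.1.1) 1 : A[H]) •
        jE L T p j.2.1.2 ((F j).mapE (T j.2.1.2) p y)
      map_add' := fun y z => by rw [map_add, map_add, smul_add]
      map_smul' := fun r y => by
        rw [LinearMap.map_smulₛₗ, LinearMap.map_smulₛₗ, smul_smul, hkey, mul_smul]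
        rfl }
  let Q : M × {b // b ∈ S.biUnion B} → Submodule A[M0] ((sumRC L T).E p) :=
    fun j => LinearMap.range (φ j)
  have hQ : ∀ j, Loc A[M0] p (Q j) := fun j =>
    Loc.of_surjective (φ j).rangeRestrict (φ j).surjective_rangeRestrict
      (har0 ((F j).rc (T j.2.1.2)) (fun k => (F j).rc_ex (hT _ k)) p)
  have hQS : ∀ j, QS L T p ((j.1 : H) * j.2.1.1, j.2.1.2) ⊆ (Q j : Set ((sumRC L T).E p)) := by
    rintro j _ ⟨e, rfl⟩
    obtain ⟨y, rfl⟩ := ((F j).mapE_bijective (T j.2.1.2) p).2 e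
    exact ⟨y, rfl⟩
  have hQS' : ∀ j, (Q j : Set ((sumRC L T).E p)) ⊆ QS L T p ((j.1 : H) * j.2.1.1, j.2.1.2) := by
    rintro j _ ⟨y, rfl⟩
    exact ⟨_, rfl⟩
  -- closed under `M`
  have hsm : ∀ (r : A[M]) (x : (sumRC L T).E p), x ∈ (⨆ j, Q j : Submodule A[M0] _) →
      r • x ∈ (⨆ j, Q j : Submodule A[M0] _) := by
    intro r x hx
    induction r using MonoidAlgebra.induction_linear with
    | zero => rw [zero_smul]; exact Submodule.zero_mem _
    | add s t hs ht => rw [add_smul]; exact Submodule.add_mem _ hs ht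
    | single m a =>
      induction hx using Submodule.iSup_induction' with
      | mem j x hx =>
        have h1 := QS_smul L T p _ (m : H) a (hQS' j hx)
        have h2 : (single m a : A[M]) • x = (single (m : H) a : A[H]) • x := by
          change iotaN M (single m a) • x = _
          rw [iotaN_single]
        rw [h2]
        refine Submodule.mem_iSup_of_mem (m * j.1, j.2) (hQS (m * j.1, j.2) ?_)
        change (single (m : H) a : A[H]) • x ∈ QS L T p (((m * j.1 : M) : H) * j.2.1.1, j.2.1.2)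
        rw [Subgroup.coe_mul, mul_assoc]
        exact h1
      | zero => rw [smul_zero]; exact Submodule.zero_mem _
      | add x y _ _ hx hy => rw [smul_add]; exact Submodule.add_mem _ hx hy
  -- the module over `A[M0]`
  let N' : Submodule A[M0] ((sumRC L T).E p) :=
    { carrier := N
      add_mem' := fun ha hb => N.add_mem ha hb
      zero_mem' := N.zero_mem
      smul_mem' := fun r x hx => N.smul_mem (iotaN M0 r) hx }
  have hle : N' ≤ ⨆ j, Q j := by
    intro x hx
    have hx' : x ∈ Submodule.span A[M] (S : Set ((sumRC L T).E p)) := by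
      rw [hS]; exact hx
    clear hx
    induction hx' using Submodule.span_induction with
    | mem x hx =>
      have h1 := hB x
      have h2 : AddSubmonoid.closure (⋃ b ∈ B x, QS L T p b) ≤
          (⨆ j, Q j : Submodule A[M0] _).toAddSubmonoid := by
        rw [AddSubmonoid.closure_le]
        intro z hz
        simp only [Set.mem_iUnion] at hz
        obtain ⟨b, hb, hz⟩ := hz
        have hb' : b ∈ S.biUnion B := Finset.mem_biUnion.2 ⟨x, hx, hb⟩
        refine Submodule.mem_iSup_of_mem ((1 : M), ⟨b, hb'⟩) (hQS ((1 : M), ⟨b, hb'⟩) ?_)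
        change z ∈ QS L T p (((1 : M) : H) * b.1, b.2)
        rw [OneMemClass.coe_one, one_mul]
        exact hz
      exact h2 h1
    | zero => exact Submodule.zero_mem _
    | add x y _ _ hx hy => exact Submodule.add_mem _ hx hy
    | smul r x _ hx => exact hsm r x hx
  -- resolutions
  obtain ⟨T', ⟨r⟩⟩ := exists_res (R := A[M]) N
  have hr : M0.subtype.range.FiniteIndex := by
    rw [Subgroup.range_subtype]
    exact hfin
  obtain ⟨F0, hF0⟩ := exists_frob_hom (A := A) M0.subtype M0.subtype_injective hr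
  let ψ : N' ≃+ N :=
    { toFun := fun x => ⟨x.1, x.2⟩
      invFun := fun x => ⟨x.1, x.2⟩
      left_inv := fun _ => rfl
      right_inv := fun _ => rfl
      map_add' := fun _ _ => rfl }
  have hψ : ∀ (a : A[M0]) (x : N'), ψ (a • x) = F0.ι a • ψ x := by
    intro a x
    rw [hF0]
    rfl
  let r' : Res (F0.rc T') N' := F0.res r ψ hψ
  have : Module.Finite A[M0] N' := Module.Finite.of_surjective r'.ε r'.surj
  have h1 : GE A[M0] p N' := ge_of_le_iSup Q hQ
    (har0 (F0.rc T') (fun k => r'.ex k) p) N' (Module.Finite.iff_fg.1 inferInstance) hle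
  exact (ge_iff r p).2 fun l hl => F0.rc_coex.1 ((ge_iff r' p).1 h1 l hl)

end S1

end Pool.Agent.UP25
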