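import Mathlib
import Pool.Agent.Lib.UP25.Ar1T
import Pool.Agent.Lib.UP25.S1b

/-!
# TANK UP, stage 3: `CohT` and `AR1` for groups acting on locally finite trees, from the
combinatorial facts on the tree
-/

set_option autoImplicit false

open MonoidAlgebra Pool.Agent.UP Pool.Agent.UPV

namespace Pool.Agent.UP25

universe u v

section
variable {A : Type u} {H : Type v} [CommRing A] [StarRing A] [Group H]

attribute [local instance] starMA

theorem locSum (M : Subgroup H) (hM : NAR A M) : LocSum A H M := by
  intro n L T hT hL hc p
  exact loc_sumRC L T hT hL M hM hc p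

variable {V : Type v} [MulAction H V] (T : TAct H V)

theorem tact_coh (hB : BallC T) (hfin : Finite (MulAction.orbitRel.Quotient H T.E))
    (hn : ∀ L : Subgroup H, T.Stab L → NAR A L)
    (hc : ∀ L M : Subgroup H, T.Stab L → T.Stab M → ∀ g : H, Cms (cjg g L) M) :
    CohT A[H] ∧ AR1 A[H] :=
  ar1_tact T hB hfin hn hc fun M hM => locSum M (hn M hM)

end

end Pool.Agent.UP25
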