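import Mathlib
import Pool.Agent.Lib.UP25.TactF
import Pool.Agent.Lib.UP25.S2
import Pool.Agent.Lib.UP25.S4
import Pool.Agent.Lib.UP25.Grp
import Pool.Agent.Lib.UP25.Hull
import Pool.Agent.Lib.UP25.Cls
import Pool.Agent.Lib.UPV.V9
import Pool.Agent.Lib.UP25.Fun
import Pool.Agent.Lib.UP.MainVPF

/-!
# TANK UP, stage 3: the facts for the class `VTd` and the main theorem
-/

set_option autoImplicit false

open MonoidAlgebra Pool.Agent.UP Pool.Agent.UPV
open Pool.Agent.Lib.MP_98022b_UM Pool.Agent.Lib.MP_98022b_UM.UF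

namespace Pool.Agent.UP25

universe u v w

/-- `H` is torsion-free and has a subgroup `N` of finite index which acts by automorphisms on a
locally finite tree such that the stabilisers of the vertices are virtually poly-`ℤ` of bounded
length -/
def IsVT (H : Type v) [Group H] : Prop :=
  (∀ h : H, IsOfFinOrder h → h = 1) ∧
    ∃ (N : Subgroup H) (V : Type v) (_ : MulAction N V) (Γ : SimpleGraph V),
      N.FiniteIndex ∧ Γ.IsTree ∧ (∀ (n : N) (x y : V), Γ.Adj x y → Γ.Adj (n • x) (n • y)) ∧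
        (∀ x : V, (Γ.neighborSet x).Finite) ∧ ∃ d, ∀ x : V, VPZ d (MulAction.stabilizer N x)

theorem isVT_iff {H : Type v} [Group H] : IsVT H ↔ ∃ d, VTd d H := by
  constructor
  · rintro ⟨h1, N, V, i, Γ, h2, h3, h4, h5, d, h6⟩
    exact ⟨d, h1, N, V, i, Γ, h2, h3, h4, h5, h6⟩
  · rintro ⟨d, h1, N, V, i, Γ, h2, h3, h4, h5, h6⟩
    exact ⟨h1, N, V, i, Γ, h2, h3, h4, h5, d, h6⟩

/-- the class contains all finitely generated groups which are torsion-free and virtually
(poly-`ℤ`)-by-free -/
theorem IsVT.of_vpf {H : Type v} [Group H] (hfg : Group.FG H) (h : IsVPF H) : IsVT H := by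
  obtain ⟨d, hd⟩ := isVPF_iff.1 h
  exact isVT_iff.2 ⟨d, vtd_of_vpfd hfg hd⟩

attribute [local instance] starMA in
/-- coherence and `AR1` for the groups which act on a locally finite tree with torsion-free
virtually poly-`ℤ` stabilisers -/
theorem tact_vpz {A : Type u} [CommRing A] [StarRing A] [IsNoetherianRing A] (hA : AR A) {g : ℕ}
    (hg : FL A g) {d : ℕ} {H V : Type v} [Group H] [MulAction H V] (T : TAct H V)
    (htf : ∀ h : H, IsOfFinOrder h → h = 1)
    (hst : ∀ x : V, VPZ d (MulAction.stabilizer H x)) : CohT A[H] ∧ AR1 A[H] := by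
  have htfL : ∀ (L : Subgroup H) (h : L), IsOfFinOrder h → h = 1 := fun L h hh =>
    Subtype.ext (htf h.1 (L.subtype.isOfFinOrder hh))
  have hnx : ∀ x : V, NAR A (MulAction.stabilizer H x) := fun x =>
    VPZ.nar hA hg (htfL _) (hst x)
  refine tact_coh T (fun L hL x0 x m => T.ball_cosets hL x0 x m) T.finE ?_
    (fun L M hL hM g => T.cms (T.stab_cjg hL g) hM)
  rintro L (⟨x, rfl⟩ | ⟨e, rfl⟩)
  · exact hnx x
  · refine (hnx e.1.1).of_injective (Subgroup.inclusion fun h hh => ?_)
      (Subgroup.inclusion_injective _)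
    exact ((T.mem_stabE h e).1 hh).1

/-- the facts for the finitely generated groups of the class `VTd d` -/
theorem VTd.facts {A : Type u} [CommRing A] [StarRing A] [IsNoetherianRing A] (hA : AR A) {g : ℕ}
    (hg : FL A g) {d : ℕ} {H : Type v} [Group H] (hH : VTd d H) (hfg : Group.FG H) :
    Facts4 A[H] (g + d + 3) := by
  obtain ⟨htf, N, V, _, Γ, hN, hΓ, hadj, hlf, hst⟩ := hH
  have hNfg : Group.FG N := Subgroup.fg_of_index_ne_zero N
  obtain ⟨N', V', _, T, hN', hst'⟩ := exists_tact hNfg Γ hΓ hadj hlf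
  have h1 := tact_vpz hA hg (d := d) T
    (fun h hh => Subtype.ext (Subtype.ext (htf _
      (N.subtype.isOfFinOrder (N'.subtype.isOfFinOrder hh))))) (fun x' => by
      obtain ⟨x, hx⟩ := hst' x'
      let f : MulAction.stabilizer N' x' →* MulAction.stabilizer N x :=
        { toFun := fun n => ⟨(n.1 : N), hx n.1 n.2⟩
          map_one' := rfl
          map_mul' := fun _ _ => rfl }
      refine (hst x).of_injective f fun a b hab => ?_
      exact Subtype.ext (Subtype.ext (congrArg
        (fun n : MulAction.stabilizer N x => (n : N)) hab)))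
  have h2 : CohT A[N] := coh_up N' hN' h1.1
  have h3 := ar1_up N' hN' h1.1 h1.2
  have h4 : CohT A[H] := coh_up N hN h2
  have h5 := ar1_up N hN h2 h3
  exact @facts4_of_ar1 A[H] _ (starMA A H) h4 h5 (g + d + 2)
    (fl_tree hA hg htf N hN Γ hΓ hadj hst)

/-- **the main theorem of stage 3** -/
theorem main_vt {A : Type u} [CommRing A] [StarRing A] [IsNoetherianRing A] (hA : AR A) {g : ℕ}
    (hg : FL A g) {Ω G : Type v} [Group G] {E : BSys Ω G}
    {χ : G →* ℤˣ} {ε : ℤ} (hG : E.Geo) (hN : E.NoInv) (hε : ε = 1 ∨ ε = -1)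
    (hE : ∀ ω, ∀ H : Subgroup G, H ≤ E.F ω → H.FG → IsVT H)
    (X : BF E (Pool.Agent.Lib.MP_98022b_UN.barStr (A := A) χ) ε) : X.SMetab :=
  main_cls (P := fun d H _ => VTd d H) (fun _ _ hde h => h.mono hde)
    (fun f hf h => h.of_injective f hf)
    (fun d => ⟨g + d + 3, fun _ _ hfg h => h.facts hA hg hfg⟩) hG hN hε
    (fun ω H h1 h2 => isVT_iff.1 (hE ω H h1 h2)) X

/-- `A` has the vanishing property: let `G` act on a tree, let `{p, q}` be an edge which is not
inverted, such that the vertex groups `G_p` and `G_q` have no elements of order two, and such that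
for some `k ≥ 1` all finitely generated subgroups of the stabilisers `G_u ∩ G_v` of the segments
`[u, v]` consisting of `k` translates of the edge `{p, q}` are torsion-free and have a subgroup of
finite index which acts on a locally finite tree with virtually poly-`ℤ` stabilisers of bounded
length.  Then every `ε`-quadratic UNil form of this edge over `A[G_p ∩ G_q]` becomes metabolic
after adding a metabolic form. -/
def UNilVanishesT (A : Type u) [CommRing A] [StarRing A] : Prop :=
  ∀ (G : Type v) [Group G] (V : Type w) [MulAction G V] (Γ : SimpleGraph V), Γ.IsTree →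
    (∀ (g : G) (x y : V), Γ.Adj x y → Γ.Adj (g • x) (g • y)) →
    ∀ p q : V, Γ.Adj p q → (∀ g : G, ¬ (g • p = q ∧ g • q = p)) →
    (∀ g : G, g • p = p → g * g = 1 → g = 1) → (∀ g : G, g • q = q → g * g = 1 → g = 1) →
    ∀ k : ℕ, 1 ≤ k →
    (∀ (u v : V) (W : Γ.Walk u v), W.IsPath → W.length = k →
      (∀ e ∈ W.edges, ∃ g : G, e = s(g • p, g • q)) → ∀ H : Subgroup G,
      H ≤ MulAction.stabilizer G u ⊓ MulAction.stabilizer G v → H.FG → IsVT H) →
    ∀ (χ : G →* ℤˣ) (ε : ℤ), (ε = 1 ∨ ε = -1) → ∀ (n : Type) [Fintype n] [DecidableEq n]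
      (x : QForm A χ ε p q n),
      ∃ (m : Type) (_ : Fintype m) (_ : DecidableEq m) (y : QForm A χ ε p q m)
        (z : QForm A χ ε p q (n ⊕ m)), y.Metabolic ∧ z.IsSum x y ∧ z.Metabolic

/-- the property contains the one for virtually (poly-`ℤ`)-by-free groups -/
theorem UNilVanishesT.toV {A : Type u} [CommRing A] [StarRing A]
    (h : UNilVanishesT.{u, v, w} A) : UNilVanishesV.{u, v, w} A := by
  intro G _ V _ Γ hΓ hadj p q hpq hinv h2p h2q k hk hF
  refine h G V Γ hΓ hadj p q hpq hinv h2p h2q k hk fun u v W hW1 hW2 hW3 H hH hfg => ?_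
  exact IsVT.of_vpf ((Group.fg_iff_subgroup_fg H).mpr hfg) (hF u v W hW1 hW2 hW3 H hH hfg)

/-- the final theorem -/
theorem unilT {A : Type u} [CommRing A] [IsDomain A] [IsNoetherianRing A] [StarRing A]
    (hA : AR A) {g : ℕ} (hg : FL A g) : UNilVanishesT.{u, v, w} A := by
  intro G _ V _ Γ hΓ hadj p q hpq hinv h2p h2q k hk hF χ ε hε n _ _ x
  refine main_of hΓ hadj hpq hinv h2p h2q k hk χ hε ?_ x
  intro Ω E hGeo hNo hst X
  refine main_vt hA hg hGeo hNo hε (fun ω H hH hfg => ?_) X
  obtain ⟨u, v, W, hW1, hW2, hW3, hle⟩ := hst ω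
  exact hF u v W hW1 hW2 hW3 H (hH.trans hle) hfg

end Pool.Agent.UP25
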